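import Pool.Agent.MP_28f8a1_an.W37.Defs

/-! h37w F1: calculus of the weighted seminorms, Taylor estimates. -/

open Polynomial Metric Filter

namespace Pool.Agent.MP_28f8a1_an.W37

variable {K : Type*} [NontriviallyNormedField K]

theorem wt_pw {s : ℝ} (hs : 0 ≤ s) : Wt (pw s) :=
  ⟨by simp [pw], fun k => pow_nonneg hs k, fun i j => by simp [pw, pow_add]⟩

theorem Bd.mono {w : ℕ → ℝ} {f : K[X]} {r r' : ℝ} (h : Bd w f r) (hr : r ≤ r') : Bd w f r' :=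
  fun k => (h k).trans hr

theorem Bd.wmono {w w' : ℕ → ℝ} {f : K[X]} {r : ℝ} (h : Bd w f r) (hw : ∀ k, w' k ≤ w k) :
    Bd w' f r :=
  fun k => (mul_le_mul_of_nonneg_left (hw k) (norm_nonneg _)).trans (h k)

theorem Bd.eval0 {w : ℕ → ℝ} (hw : Wt w) {f : K[X]} {r : ℝ} (h : Bd w f r) : ‖f.eval 0‖ ≤ r := by
  have := h 0
  rwa [hw.zero, mul_one, coeff_zero_eq_eval_zero] at this

theorem Bd.nonneg {w : ℕ → ℝ} (hw : Wt w) {f : K[X]} {r : ℝ} (h : Bd w f r) : 0 ≤ r :=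
  (norm_nonneg _).trans (h.eval0 hw)

theorem bd_zero {w : ℕ → ℝ} {r : ℝ} (hr : 0 ≤ r) : Bd w (0 : K[X]) r := fun k => by simpa using hr

theorem bd_C {w : ℕ → ℝ} (hw : Wt w) {a : K} {r : ℝ} (h : ‖a‖ ≤ r) : Bd w (C a) r := by
  intro k
  rcases k with _ | k
  · simpa [hw.zero] using h
  · simpa [coeff_C] using (norm_nonneg a).trans h

theorem Bd.neg {w : ℕ → ℝ} {f : K[X]} {r : ℝ} (h : Bd w f r) : Bd w (-f) r :=
  fun k => by simpa using h k

theorem Bd.of_C_mul {w : ℕ → ℝ} {f : K[X]} {a : K} {r : ℝ} (ha : a ≠ 0)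
    (h : Bd w (C a * f) (‖a‖ * r)) : Bd w f r := by
  intro k
  have h1 := h k
  rw [coeff_C_mul, norm_mul, mul_assoc] at h1
  exact le_of_mul_le_mul_left h1 (norm_pos_iff.2 ha)

variable [IsUltrametricDist K]

theorem nadd {a b : K} {r : ℝ} (ha : ‖a‖ ≤ r) (hb : ‖b‖ ≤ r) : ‖a + b‖ ≤ r :=
  (IsUltrametricDist.norm_add_le_max a b).trans (max_le ha hb)

theorem nsub {a b : K} {r : ℝ} (ha : ‖a‖ ≤ r) (hb : ‖b‖ ≤ r) : ‖a - b‖ ≤ r := by
  rw [sub_eq_add_neg]; exact nadd ha (by simpa using hb)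

theorem nadd_lt {a b : K} {r : ℝ} (ha : ‖a‖ < r) (hb : ‖b‖ < r) : ‖a + b‖ < r :=
  (IsUltrametricDist.norm_add_le_max a b).trans_lt (max_lt ha hb)

theorem nsub_lt {a b : K} {r : ℝ} (ha : ‖a‖ < r) (hb : ‖b‖ < r) : ‖a - b‖ < r := by
  rw [sub_eq_add_neg]; exact nadd_lt ha (by simpa using hb)

/-- isosceles -/
theorem neq_of_sub_lt {a b : K} (h : ‖a - b‖ < ‖b‖) : ‖a‖ = ‖b‖ := by
  apply le_antisymm
  · have : a = (a - b) + b := by ring
    rw [this]; exact nadd h.le le_rfl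
  · by_contra hc
    have h1 : ‖a - (a - b)‖ < ‖b‖ := nsub_lt (not_le.1 hc) h
    simp at h1

theorem Bd.add {w : ℕ → ℝ} (hw : Wt w) {f g : K[X]} {r : ℝ} (hf : Bd w f r) (hg : Bd w g r) :
    Bd w (f + g) r := by
  intro k
  rw [coeff_add]
  rcases le_total ‖f.coeff k‖ ‖g.coeff k‖ with h | h
  · exact (mul_le_mul_of_nonneg_right (nadd h le_rfl) (hw.nonneg k)).trans (hg k)
  · exact (mul_le_mul_of_nonneg_right (nadd le_rfl h) (hw.nonneg k)).trans (hf k)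

theorem Bd.sub {w : ℕ → ℝ} (hw : Wt w) {f g : K[X]} {r : ℝ} (hf : Bd w f r) (hg : Bd w g r) :
    Bd w (f - g) r := by
  rw [sub_eq_add_neg]; exact hf.add hw hg.neg

theorem Bd.mul {w : ℕ → ℝ} (hw : Wt w) {f g : K[X]} {r r' : ℝ} (hf : Bd w f r) (hg : Bd w g r') :
    Bd w (f * g) (r * r') := by
  intro k
  rw [coeff_mul]
  obtain ⟨p, hp, hle⟩ := IsUltrametricDist.exists_norm_finsetSum_le_of_nonempty
    (t := Finset.HasAntidiagonal.antidiagonal k) ⟨(0, k), by simp⟩ (fun p => f.coeff p.1 * g.coeff p.2)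
  have hk : p.1 + p.2 = k := by simpa using hp
  calc _ ≤ ‖f.coeff p.1 * g.coeff p.2‖ * w k := mul_le_mul_of_nonneg_right hle (hw.nonneg k)
    _ ≤ ‖f.coeff p.1 * g.coeff p.2‖ * (w p.1 * w p.2) :=
        mul_le_mul_of_nonneg_left (hk ▸ hw.sub p.1 p.2) (norm_nonneg _)
    _ = (‖f.coeff p.1‖ * w p.1) * (‖g.coeff p.2‖ * w p.2) := by rw [norm_mul]; ring
    _ ≤ r * r' := mul_le_mul (hf _) (hg _) (mul_nonneg (norm_nonneg _) (hw.nonneg _))
        (hf.nonneg hw)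

theorem Bd.C_mul {w : ℕ → ℝ} (hw : Wt w) (a : K) {f : K[X]} {r : ℝ} (hf : Bd w f r) :
    Bd w (C a * f) (‖a‖ * r) := (bd_C hw le_rfl).mul hw hf

theorem Bd.eval_le {s : ℝ} {f : K[X]} {r : ℝ} (h : Bd (pw s) f r) {l : K} (hl : ‖l‖ ≤ s) :
    ‖f.eval l‖ ≤ r := by
  rw [eval_eq_sum_range]
  obtain ⟨k, -, hle⟩ := IsUltrametricDist.exists_norm_finsetSum_le_of_nonempty
    (t := Finset.range (f.natDegree + 1)) ⟨0, by simp⟩ (fun i => f.coeff i * l ^ i)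
  refine hle.trans (le_trans ?_ (h k))
  rw [norm_mul, norm_pow]
  exact mul_le_mul_of_nonneg_left (pow_le_pow_left₀ (norm_nonneg _) hl k) (norm_nonneg _)

/-- from the centred bound to the plain bound -/
theorem Bd.of_centred {w : ℕ → ℝ} (hw : Wt w) {f : K[X]} {a : K} {r : ℝ}
    (h : Bd w (f - C a) r) (ha : ‖a‖ ≤ r) : Bd w f r := by
  have := h.add hw (bd_C hw ha)
  simpa using this

theorem bd_comp (A : K[X]) (R : ℝ) : ∃ Cc : ℝ, 1 ≤ Cc ∧ ∀ w : ℕ → ℝ, Wt w → ∀ a : K[X],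
    Bd w a R → Bd w (A.comp a) Cc := by
  induction A using Polynomial.recOnHorner with
  | M0 => exact ⟨1, le_rfl, fun w _ a _ => by simpa using bd_zero zero_le_one⟩
  | MC p x _ _ ih =>
    obtain ⟨C1, h1, h⟩ := ih
    refine ⟨max C1 ‖x‖, le_max_of_le_left h1, fun w hw a ha => ?_⟩
    rw [add_comp, C_comp]
    exact ((h w hw a ha).mono (le_max_left _ _)).add hw (bd_C hw (le_max_right _ _))
  | MX p _ ih =>
    obtain ⟨C1, h1, h⟩ := ih
    refine ⟨max 1 (C1 * R), le_max_left _ _, fun w hw a ha => ?_⟩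
    rw [mul_comp, X_comp]
    exact ((h w hw a ha).mul hw ha).mono (le_max_right _ _)

theorem tay0 (A : K[X]) (R : ℝ) : ∃ Cc : ℝ, 1 ≤ Cc ∧ ∀ w : ℕ → ℝ, Wt w → ∀ a b : K[X],
    Bd w a R → Bd w b R → ∃ E : K[X], Bd w E Cc ∧
      A.comp a = A.comp b + (a - b) * A.derivative.comp b + (a - b) ^ 2 * E := by
  induction A using Polynomial.recOnHorner with
  | M0 => exact ⟨1, le_rfl, fun w _ a b _ _ => ⟨0, bd_zero zero_le_one, by simp⟩⟩
  | MC p x _ _ ih =>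
    obtain ⟨C1, h1, h⟩ := ih
    refine ⟨C1, h1, fun w hw a b ha hb => ?_⟩
    obtain ⟨E, hE, he⟩ := h w hw a b ha hb
    refine ⟨E, hE, ?_⟩
    simp only [add_comp, C_comp, derivative_add, derivative_C, add_zero]
    rw [he]; ring
  | MX p _ ih =>
    obtain ⟨C1, h1, h⟩ := ih
    obtain ⟨C2, h2, h'⟩ := bd_comp p.derivative R
    refine ⟨max C2 (C1 * R), le_max_of_le_left h2, fun w hw a b ha hb => ?_⟩
    obtain ⟨E, hE, he⟩ := h w hw a b ha hb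
    refine ⟨p.derivative.comp b + E * a, ((h' w hw b hb).mono (le_max_left _ _)).add hw
      ((hE.mul hw ha).mono (le_max_right _ _)), ?_⟩
    simp only [mul_comp, X_comp, derivative_mul, derivative_X, mul_one, add_comp]
    rw [he]; ring

/-- One constant for all the estimates about `A` on the ball of radius `R`. -/
structure Tay (A : K[X]) (R Cc : ℝ) : Prop where
  one : 1 ≤ Cc
  val : ∀ w : ℕ → ℝ, Wt w → ∀ a : K[X], Bd w a R → Bd w (A.comp a) Cc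
  der : ∀ w : ℕ → ℝ, Wt w → ∀ a : K[X], Bd w a R → Bd w (A.derivative.comp a) Cc
  two : ∀ w : ℕ → ℝ, Wt w → ∀ a b : K[X], Bd w a R → Bd w b R → ∃ E : K[X], Bd w E Cc ∧
      A.comp a - A.comp b = (a - b) * (A.derivative.comp b + (a - b) * E)
  lip : ∀ w : ℕ → ℝ, Wt w → ∀ a b : K[X], Bd w a R → Bd w b R → ∃ Q : K[X], Bd w Q Cc ∧
      A.comp a - A.comp b = (a - b) * Q
  dlip : ∀ w : ℕ → ℝ, Wt w → ∀ a b : K[X], Bd w a R → Bd w b R → ∃ Q : K[X], Bd w Q Cc ∧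
      A.derivative.comp a - A.derivative.comp b = (a - b) * Q

theorem lip0 (A : K[X]) (R : ℝ) : ∃ Cc : ℝ, 1 ≤ Cc ∧ ∀ w : ℕ → ℝ, Wt w → ∀ a b : K[X],
    Bd w a R → Bd w b R → ∃ Q : K[X], Bd w Q Cc ∧ A.comp a - A.comp b = (a - b) * Q := by
  obtain ⟨C1, h1, h⟩ := tay0 A R
  obtain ⟨C2, h2, h'⟩ := bd_comp A.derivative R
  refine ⟨max C2 (R * C1), le_max_of_le_left h2, fun w hw a b ha hb => ?_⟩
  obtain ⟨E, hE, he⟩ := h w hw a b ha hb
  refine ⟨A.derivative.comp b + (a - b) * E, ((h' w hw b hb).mono (le_max_left _ _)).add hw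
    (((ha.sub hw hb).mul hw hE).mono (le_max_right _ _)), ?_⟩
  rw [he]; ring

theorem tay (A : K[X]) (R : ℝ) : ∃ Cc : ℝ, Tay A R Cc := by
  obtain ⟨C1, h1, p1⟩ := bd_comp A R
  obtain ⟨C2, h2, p2⟩ := bd_comp A.derivative R
  obtain ⟨C3, h3, p3⟩ := tay0 A R
  obtain ⟨C4, h4, p4⟩ := lip0 A R
  obtain ⟨C5, h5, p5⟩ := lip0 A.derivative R
  refine ⟨C1 + C2 + C3 + C4 + C5, by linarith, fun w hw a ha => (p1 w hw a ha).mono (by linarith),
    fun w hw a ha => (p2 w hw a ha).mono (by linarith), fun w hw a b ha hb => ?_,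
    fun w hw a b ha hb => ?_, fun w hw a b ha hb => ?_⟩
  · obtain ⟨E, hE, he⟩ := p3 w hw a b ha hb
    exact ⟨E, hE.mono (by linarith), by rw [he]; ring⟩
  · obtain ⟨E, hE, he⟩ := p4 w hw a b ha hb
    exact ⟨E, hE.mono (by linarith), he⟩
  · obtain ⟨E, hE, he⟩ := p5 w hw a b ha hb
    exact ⟨E, hE.mono (by linarith), he⟩

section points
variable {A : K[X]} {R Cc : ℝ}

theorem Tay.pval (h : Tay A R Cc) {x : K} (hx : ‖x‖ ≤ R) : ‖A.eval x‖ ≤ Cc := by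
  have hw := wt_pw (zero_le_one (α := ℝ))
  simpa [eval_comp] using (h.val _ hw _ (bd_C hw hx)).eval0 hw

theorem Tay.pder (h : Tay A R Cc) {x : K} (hx : ‖x‖ ≤ R) : ‖A.derivative.eval x‖ ≤ Cc := by
  have hw := wt_pw (zero_le_one (α := ℝ))
  simpa [eval_comp] using (h.der _ hw _ (bd_C hw hx)).eval0 hw

theorem Tay.ptwo (h : Tay A R Cc) {x y : K} (hx : ‖x‖ ≤ R) (hy : ‖y‖ ≤ R) :
    ∃ e : K, ‖e‖ ≤ Cc ∧ A.eval x - A.eval y = (x - y) * (A.derivative.eval y + (x - y) * e) := by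
  have hw := wt_pw (zero_le_one (α := ℝ))
  obtain ⟨E, hE, he⟩ := h.two _ hw _ _ (bd_C hw hx) (bd_C hw hy)
  refine ⟨E.eval 0, hE.eval0 hw, ?_⟩
  simpa [eval_comp] using congrArg (eval 0) he

theorem Tay.plip (h : Tay A R Cc) {x y : K} (hx : ‖x‖ ≤ R) (hy : ‖y‖ ≤ R) :
    ‖A.eval x - A.eval y‖ ≤ ‖x - y‖ * Cc := by
  have hw := wt_pw (zero_le_one (α := ℝ))
  obtain ⟨E, hE, he⟩ := h.lip _ hw _ _ (bd_C hw hx) (bd_C hw hy)
  have h1 : A.eval x - A.eval y = (x - y) * E.eval 0 := by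
    simpa [eval_comp] using congrArg (eval 0) he
  rw [h1, norm_mul]
  exact mul_le_mul_of_nonneg_left (hE.eval0 hw) (norm_nonneg _)

theorem Tay.pdlip (h : Tay A R Cc) {x y : K} (hx : ‖x‖ ≤ R) (hy : ‖y‖ ≤ R) :
    ‖A.derivative.eval x - A.derivative.eval y‖ ≤ ‖x - y‖ * Cc := by
  have hw := wt_pw (zero_le_one (α := ℝ))
  obtain ⟨E, hE, he⟩ := h.dlip _ hw _ _ (bd_C hw hx) (bd_C hw hy)
  have h1 : A.derivative.eval x - A.derivative.eval y = (x - y) * E.eval 0 := by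
    simpa [eval_comp] using congrArg (eval 0) he
  rw [h1, norm_mul]
  exact mul_le_mul_of_nonneg_left (hE.eval0 hw) (norm_nonneg _)

/-- `A` is a similarity on a disc that is small compared with the derivative -/
theorem Tay.scale (h : Tay A R Cc) {x z : K} (hx : ‖x‖ ≤ R) (hz : ‖z‖ ≤ R)
    (hs : ‖z - x‖ * Cc < ‖A.derivative.eval x‖) :
    ‖A.eval z - A.eval x‖ = ‖z - x‖ * ‖A.derivative.eval x‖ := by
  obtain ⟨e, he, h1⟩ := h.ptwo hz hx
  rw [h1, norm_mul]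
  congr 1
  apply neq_of_sub_lt
  rw [add_sub_cancel_left, norm_mul]
  exact (mul_le_mul_of_nonneg_left he (norm_nonneg _)).trans_lt hs

end points

end Pool.Agent.MP_28f8a1_an.W37
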