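import Pool.Agent.MP_28f8a1_an.W37.Cap

/-! h37w F6: section 2 of the paper. -/

open Polynomial Metric Filter Topology

namespace Pool.Agent.MP_28f8a1_an.W37

variable {K : Type*} [NontriviallyNormedField K] [IsUltrametricDist K]

/-- the non-constant part of `f` is at most `θ` times the constant term -/
def Cen (w : ℕ → ℝ) (θ : ℝ) (f : K[X]) : Prop := Bd w (f - C (f.eval 0)) (θ * ‖f.eval 0‖)

section cen

variable {w : ℕ → ℝ} {θ : ℝ} {f : K[X]}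

theorem Cen.bd (hw : Wt w) (h : Cen w θ f) (h1 : θ ≤ 1) : Bd w f ‖f.eval 0‖ :=
  (Bd.mono h (mul_le_of_le_one_left (norm_nonneg _) h1)).of_centred hw le_rfl

omit [IsUltrametricDist K] in
theorem Cen.swap {a b : K[X]} (h : Cen w θ (a - b)) : Cen w θ (b - a) := by
  have := Bd.neg h
  unfold Cen
  convert this using 1
  · simp only [eval_sub, C_sub]; ring
  · rw [eval_sub, eval_sub, norm_sub_rev]

omit [IsUltrametricDist K] in
theorem Cen.wmono {w' : ℕ → ℝ} (h : Cen w θ f) (hw : ∀ k, w' k ≤ w k) : Cen w' θ f :=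
  Bd.wmono h hw

omit [IsUltrametricDist K] in
theorem cen_iff (h0 : 0 ≤ θ) :
    Cen w θ f ↔ ∀ k, 1 ≤ k → ‖f.coeff k‖ * w k ≤ θ * ‖f.eval 0‖ := by
  refine ⟨fun h k hk => ?_, fun h k => ?_⟩
  · have := h k
    rwa [coeff_sub, coeff_C_of_ne_zero (by omega), sub_zero] at this
  · rcases k with _ | k
    · rw [coeff_sub, coeff_C_zero, coeff_zero_eq_eval_zero, sub_self, norm_zero, zero_mul]
      positivity
    · rw [coeff_sub, coeff_C_of_ne_zero (by omega), sub_zero]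
      exact h _ (by omega)

omit [IsUltrametricDist K] in
theorem Cen.of_zero {θ' : ℝ} (h : Cen w θ f) (h0 : f.eval 0 = 0) : Cen w θ' f := by
  unfold Cen at h ⊢
  rwa [h0, norm_zero, mul_zero] at h ⊢

theorem near_norm (hw : Wt w) {Q : K[X]} {q : K} (hq : q ≠ 0) (h1 : θ < 1)
    (hQ : Bd w (Q - C q) (θ * ‖q‖)) : ‖Q.eval 0‖ = ‖q‖ := by
  have h2 := hQ.eval0 hw
  rw [eval_sub, eval_C] at h2
  exact neq_of_sub_lt (h2.trans_lt (mul_lt_of_lt_one_left (norm_pos_iff.2 hq) h1))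

theorem Cen.lift (hw : Wt w) {D Q : K[X]} {q : K} (hq : q ≠ 0) (h1 : θ < 1)
    (hD : Bd w D ‖D.eval 0‖) (hQ : Bd w (Q - C q) (θ * ‖q‖)) (h : Cen w θ (D * Q)) :
    Cen w θ D := by
  have h2 := near_norm hw hq h1 hQ
  have h3 := hQ.eval0 hw
  rw [eval_sub, eval_C] at h3
  have h4 : Bd w (Q - C (Q.eval 0)) (θ * ‖q‖) := by
    convert hQ.sub hw (bd_C hw h3) using 1
    rw [C_sub]; ring
  refine Bd.of_C_mul (a := Q.eval 0) (norm_pos_iff.1 (h2 ▸ norm_pos_iff.2 hq)) ?_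
  have h5 := (Bd.mono h (r' := ‖Q.eval 0‖ * (θ * ‖D.eval 0‖))
    (by rw [eval_mul, norm_mul]; exact le_of_eq (by ring))).sub hw
    ((hD.mul hw h4).mono (by rw [h2]; exact le_of_eq (by ring)))
  convert h5 using 1
  rw [eval_mul, C_mul]; ring

theorem cen_ev [IsAlgClosed K] {s : ℝ} (hs : 0 < s) (hf : f ≠ 0) (hZ : Z s f = 0) :
    ∀ᶠ u in 𝓝[>] (0 : ℝ), Cen (pw (s + u)) ((1 - u) ^ 2) f := by
  have h1 : ∀ᶠ u in 𝓝 (0 : ℝ), ∀ k ∈ Finset.Icc 1 f.natDegree,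
      ‖f.coeff k‖ * (s + u) ^ k < (1 - u) ^ 2 * ‖f.eval 0‖ :=
    (Filter.eventually_all_finset _).2 fun k hk =>
      ContinuousAt.eventually_lt (by fun_prop) (by fun_prop)
        (by simpa using coeff_lt_of_Z0 hs hf hZ (Finset.mem_Icc.1 hk).1)
  filter_upwards [h1.filter_mono nhdsWithin_le_nhds] with u hu
  refine (cen_iff (sq_nonneg _)).2 fun k hk => ?_
  rcases le_or_gt k f.natDegree with h | h
  · exact (hu k (Finset.mem_Icc.2 ⟨hk, h⟩)).le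
  · rw [coeff_eq_zero_of_natDegree_lt h, norm_zero, zero_mul]
    positivity

variable {T G : K[X]} {z v : K} {R Cc : ℝ}

theorem loc_G (hG : Tay G R Cc) (hz : ‖z‖ ≤ R) {x : K} (hx : ‖x‖ ≤ R) (h0 : G.eval z ≠ 0)
    (h : Cc * ‖x - z‖ ≤ ‖G.eval z‖ / 2) : ‖G.eval x‖ = ‖G.eval z‖ :=
  neq_of_sub_lt (by linarith [hG.plip hx hz, norm_pos_iff.2 h0])

theorem loc_g (hw : Wt w) (hG : Tay G R Cc) (hz : ‖z‖ ≤ R) {a : K[X]} (ha : Bd w a R) {τ : ℝ}
    (hB : Bd w (a - C z) τ) : Bd w (G.comp a - C (G.eval z)) (τ * Cc) := by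
  obtain ⟨Q, h1, h2⟩ := hG.lip w hw a (C z) ha (bd_C hw hz)
  rw [comp_C] at h2
  exact h2 ▸ hB.mul hw h1

theorem n1core (hw : Wt w) (h2 : ‖(2 : K)‖ = 1) (hT : T = C v + (X - C z) ^ 2 * G)
    (hG : Tay G R Cc) (hz : ‖z‖ ≤ R) (h0 : G.eval z ≠ 0) (h1 : θ ≤ 1) (hh : 1 / 2 ≤ θ ^ 2)
    {a : K[X]} (ha : Bd w a R) (hs : Cc * ‖a.eval 0 - z‖ ≤ ‖G.eval z‖ / 2)
    (hB : Cen w θ (a - C z)) (hD : Cen w (θ ^ 2) (T.comp a - C v)) :
    Cen w (θ ^ 2) (a - C z) := by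
  by_cases hb : (a - C z).eval 0 = 0
  · exact hB.of_zero hb
  have hx := ha.eval0 hw
  have e1 : T.comp a - C v = (a - C z) ^ 2 * G.comp a := by
    rw [hT]; simp
  have e0 : (a - C z).eval 0 = a.eval 0 - z := by simp
  have e2 : (G.comp a).eval 0 = G.eval (a.eval 0) := eval_comp
  have h3 := loc_G hG hz hx h0 hs
  have h4 := hB.bd hw h1
  have h5 := loc_g hw hG hz ha h4
  have h6 := h5.eval0 hw
  unfold Cen at hB hD ⊢
  rw [e1, eval_mul, eval_pow, e2, norm_mul, norm_pow, h3] at hD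
  rw [eval_sub, eval_C, e2] at h6
  rw [← e0] at hs
  set b := (a - C z).eval 0
  set γ := G.eval z
  have hτ := norm_nonneg b
  have k1 : ‖b‖ * ‖b‖ * (‖b‖ * Cc) ≤ θ ^ 2 * (‖b‖ ^ 2 * ‖γ‖) := by
    have : ‖b‖ * Cc ≤ θ ^ 2 * ‖γ‖ := by nlinarith [norm_nonneg γ]
    nlinarith [mul_nonneg hτ hτ]
  have h7 := ((hD.sub hw (((hB.mul hw hB).mul hw (bd_C hw (le_refl ‖γ‖))).mono
    (le_of_eq (by ring)))).sub hw (((h4.mul hw h4).mul hw h5).mono k1)).add hw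
    ((((bd_C hw (le_refl ‖b‖)).mul hw (bd_C hw (le_refl ‖b‖))).mul hw (bd_C hw h6)).mono k1)
  refine Bd.of_C_mul (a := 2 * b * γ) (mul_ne_zero (mul_ne_zero
    (norm_pos_iff.1 (h2 ▸ one_pos)) hb) h0) ?_
  convert h7 using 1
  · simp only [C_mul, C_sub, C_pow, map_ofNat]; ring
  · rw [norm_mul, norm_mul, h2]; ring

theorem n3core (hw : Wt w) (h2 : ‖(2 : K)‖ = 1) (hT : T = C v + (X - C z) ^ 2 * G)
    (hG : Tay G R Cc) (hz : ‖z‖ ≤ R) (h1 : θ ≤ 1) (hh : 1 / 2 ≤ θ)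
    {a b : K[X]} (ha : Bd w a R) (hb : Bd w b R) (hs : Cc * ‖b.eval 0 - z‖ ≤ ‖G.eval z‖ / 2)
    (hB : Cen w θ (b - C z)) (hD : Bd w (a - b) (θ * ‖b.eval 0 - z‖)) :
    ∃ Q : K[X], T.comp a - T.comp b = (a - b) * Q ∧
      Bd w (Q - C (2 * G.eval z * (b.eval 0 - z))) (θ * ‖2 * G.eval z * (b.eval 0 - z)‖) := by
  obtain ⟨Q, q1, q2⟩ := hG.lip w hw a b ha hb
  have h4 := hB.bd hw h1
  unfold Cen at hB
  rw [show (b - C z).eval 0 = b.eval 0 - z by simp] at hB h4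
  set β := b.eval 0 - z
  set γ := G.eval z
  have hτ := norm_nonneg β
  have hD' := hD.mono (mul_le_of_le_one_left hτ h1)
  have h5 : Bd w (a - C z) ‖β‖ := by
    convert hD'.add hw h4 using 1
    ring
  have h6 := loc_g hw hG hz ha h5
  have k1 : ‖β‖ * (‖β‖ * Cc) ≤ θ * (‖γ‖ * ‖β‖) := by
    have : ‖β‖ * Cc ≤ θ * ‖γ‖ := by nlinarith [norm_nonneg γ]
    nlinarith
  refine ⟨((a - C z) + (b - C z)) * G.comp a + (b - C z) ^ 2 * Q, ?_, ?_⟩
  · have e1 : ∀ a : K[X], T.comp a = C v + (a - C z) ^ 2 * G.comp a := fun a => by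
      rw [hT]; simp
    rw [e1, e1]
    linear_combination (b - C z) ^ 2 * q2
  · have h7 := ((((hB.C_mul hw (2 * γ)).mono (r' := θ * (‖γ‖ * ‖β‖))
      (by rw [norm_mul, h2]; exact le_of_eq (by ring))).add hw
      ((hD.C_mul hw γ).mono (le_of_eq (by ring)))).add hw
      (((h5.add hw h4).mul hw h6).mono k1)).add hw
      (((h4.mul hw h4).mul hw q1).mono (by rw [mul_assoc]; exact k1))
    convert h7 using 1
    · simp only [C_mul, map_ofNat]; ring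
    · rw [norm_mul, norm_mul, h2]; ring

end cen

/-- the constants of the bootstrap -/
structure Cst (T : K[X]) (L : Subfield K) (Xs : Set K[X]) (R σ d0 θ s1 : ℝ) : Prop where
  pos : 0 < θ
  lt : θ < 1
  half : 1 / 2 ≤ θ ^ 2
  disc : ∀ a ∈ L, ∀ b ∈ L, ‖a‖ < ‖b‖ → ‖a‖ ≤ θ ^ 2 * ‖b‖
  dpos : 0 < d0
  dle : d0 ≤ σ
  alt : (‖(2 : K)‖ = 1 ∧ ∀ z, T.derivative.eval z = 0 → ∃ (G : K[X]) (Cc : ℝ), Tay G R Cc ∧
    T = C (T.eval z) + (X - C z) ^ 2 * G ∧ G.eval z ≠ 0 ∧ Cc * σ ≤ ‖G.eval z‖ / 2) ∨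
    ∀ a ∈ Xs, ∀ z, T.derivative.eval z = 0 → ‖a.eval 0 - z‖ < σ → a.eval 0 = z
  crit : ∀ a ∈ Xs, ∀ z, T.derivative.eval z = 0 → ‖a.eval 0 - z‖ < σ → C z ∈ Xs
  mac : ∀ a ∈ Xs, ∀ b ∈ Xs, d0 ≤ ‖a.eval 0 - b.eval 0‖ → ∃ a' ∈ Xs, ∃ b' ∈ Xs,
    ‖a.eval 0 - a'.eval 0‖ < d0 / 2 ∧ ‖b.eval 0 - b'.eval 0‖ < d0 / 2 ∧
      Cen (pw s1) (θ ^ 2) (a' - b')
  far : ∃ Cc, Tay T R Cc ∧ ∀ a ∈ Xs, ∀ b ∈ Xs, a.eval 0 ≠ b.eval 0 →
    ‖a.eval 0 - b.eval 0‖ < d0 → (∀ z, T.derivative.eval z = 0 → σ ≤ ‖b.eval 0 - z‖) →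
    Cc * d0 ≤ ‖T.derivative.eval (b.eval 0)‖ / 2 ∧ ∃ a' ∈ Xs, ‖b.eval 0 - a'.eval 0‖ < d0 / 2 ∧
      Cen (pw s1) (θ ^ 2) (T.derivative.comp a')

variable {T : K[X]} {c : K} {L : Subfield K} {Xs : Set K[X]} {R σ0 σ d0 θ s1 : ℝ} {w : ℕ → ℝ}

theorem Cst.mac' (k : Cst T L Xs R σ d0 θ s1) (hw : Wt w) (hle : ∀ j, w j ≤ pw s1 j)
    (hA : ∀ a ∈ Xs, ∀ b ∈ Xs, Cen w θ (a - b)) {a b : K[X]} (ha : a ∈ Xs) (hb : b ∈ Xs)
    (h : d0 ≤ ‖a.eval 0 - b.eval 0‖) : Cen w (θ ^ 2) (a - b) := by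
  obtain ⟨a', ha', b', hb', h1, h2, h3⟩ := k.mac a ha b hb h
  have h4 : ‖a'.eval 0 - b'.eval 0‖ = ‖a.eval 0 - b.eval 0‖ := neq_of_sub_lt (by
    have := nsub_lt h2 h1
    rw [show a'.eval 0 - b'.eval 0 - (a.eval 0 - b.eval 0) =
      b.eval 0 - b'.eval 0 - (a.eval 0 - a'.eval 0) by ring]
    linarith [k.dpos])
  have key : ∀ x : ℝ, 0 ≤ x → x < d0 / 2 → θ * x ≤ θ ^ 2 * ‖a.eval 0 - b.eval 0‖ := fun x h5 h6 => by
    have := mul_le_of_le_one_left h5 k.lt.le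
    nlinarith [k.half, k.dpos]
  have h5 := hA a ha a' ha'
  have h6 := hA b hb b' hb'
  have h7 := h3.wmono hle
  unfold Cen at h5 h6 h7 ⊢
  rw [eval_sub] at h5 h6 h7 ⊢
  rw [h4] at h7
  convert (h7.add hw (h5.mono (key _ (norm_nonneg _) h1))).sub hw
    (h6.mono (key _ (norm_nonneg _) h2)) using 1
  simp only [C_sub]; ring

theorem Cst.boot [IsAlgClosed K] (k : Cst T L Xs R σ d0 θ s1) (h : Sys T c L Xs R σ0)
    (hw : Wt w) (hle : ∀ j, w j ≤ pw s1 j)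
    (hA : ∀ a ∈ Xs, ∀ b ∈ Xs, Cen w θ (a - b)) :
    ∀ a ∈ Xs, ∀ b ∈ Xs, Cen w (θ ^ 2) (a - b) := by
  have hD : ∀ a ∈ Xs, ∀ b ∈ Xs, Bd w (a - b) ‖a.eval 0 - b.eval 0‖ := fun a ha b hb =>
    eval_sub (R := K) a b 0 ▸ (hA a ha b hb).bd hw k.lt.le
  have hR := h.bd hw hD
  have t1 : θ ^ 2 < 1 := pow_lt_one₀ k.pos.le k.lt two_ne_zero
  suffices H : ∀ n : ℕ, ∀ a ∈ Xs, ∀ b ∈ Xs, Es T d0 n (b.eval 0) ‖a.eval 0 - b.eval 0‖ →
      Cen w (θ ^ 2) (a - b) by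
    intro a ha b hb
    by_cases h0 : b.eval 0 = a.eval 0
    · exact (hA a ha b hb).of_zero (by rw [eval_sub, h0, sub_self])
    obtain ⟨n, hn⟩ := h.esc hb ha h0 k.dpos
    exact H n a ha b hb (norm_sub_rev (a.eval 0) _ ▸ hn)
  intro n
  induction n with
  | zero => exact fun a ha b hb hE => k.mac' hw hle hA ha hb hE.zero
  | succ n ih =>
    have up : ∀ a ∈ Xs, ∀ b ∈ Xs, Es T d0 (n + 1) (b.eval 0) ‖a.eval 0 - b.eval 0‖ →
        ‖a.eval 0 - b.eval 0‖ < d0 → (∀ y : K, ‖y - b.eval 0‖ ≤ ‖a.eval 0 - b.eval 0‖ → ‖y‖ ≤ R →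
          ‖T.eval y - T.eval (b.eval 0)‖ ≤ ‖T.eval (a.eval 0) - T.eval (b.eval 0)‖) →
        Cen w (θ ^ 2) (T.comp a - T.comp b) := fun a ha b hb hE ht hm => by
      rw [← step_sub]
      refine ih _ (h.inv a ha) _ (h.inv b hb) ?_
      rw [step_eval0, step_eval0]
      refine hE.step ht fun y hy => hm y hy ?_
      simpa using nadd (hy.trans (nsub (h.bdd a ha) (h.bdd b hb))) (h.bdd b hb)
    have n1 : ∀ z, T.derivative.eval z = 0 → ∀ a ∈ Xs, ‖a.eval 0 - z‖ < σ →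
        Es T d0 (n + 1) z ‖a.eval 0 - z‖ → Cen w (θ ^ 2) (a - C z) := fun z hz a ha hτ hE => by
      have hc := k.crit a ha z hz hτ
      rcases le_or_gt d0 ‖a.eval 0 - z‖ with ht | ht
      · exact k.mac' hw hle hA ha hc (by rwa [eval_C])
      rcases k.alt with ⟨h2, loc⟩ | iso
      swap
      · exact (hA a ha _ hc).of_zero (by rw [eval_sub, eval_C, iso a ha z hz hτ, sub_self])
      obtain ⟨G, Cc, g1, g2, g3, g4⟩ := loc z hz
      have hzR : ‖z‖ ≤ R := by simpa using h.bdd _ hc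
      have g5 : ∀ x : ℝ, x ≤ ‖a.eval 0 - z‖ → Cc * x ≤ ‖G.eval z‖ / 2 := fun x hx =>
        (mul_le_mul_of_nonneg_left (hx.trans hτ.le) (by linarith [g1.one])).trans g4
      have g6 : ∀ y : K, ‖y - z‖ ≤ ‖a.eval 0 - z‖ → ‖y‖ ≤ R →
          ‖T.eval y - T.eval z‖ = ‖y - z‖ ^ 2 * ‖G.eval z‖ := fun y h3 h4 => by
        have h5 : T.eval y - T.eval z = (y - z) ^ 2 * G.eval y := by
          have := congrArg (eval y) g2
          simp only [eval_add, eval_C, eval_mul, eval_pow, eval_sub, eval_X] at this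
          rw [this]; ring
        rw [h5, norm_mul, norm_pow, loc_G g1 hzR h4 g3 (g5 _ h3)]
      refine n1core hw h2 g2 g1 hzR g3 k.lt.le k.half (hR a ha) (g5 _ le_rfl) (hA a ha _ hc) ?_
      have h3 := up a ha _ hc (by simpa using hE) (by simpa using ht) fun y h3 h4 => by
        rw [eval_C] at h3 ⊢
        rw [g6 y h3 h4, g6 _ le_rfl (h.bdd a ha)]
        gcongr
      rwa [comp_C] at h3
    intro a ha b hb hE
    rcases le_or_gt d0 ‖a.eval 0 - b.eval 0‖ with ht | ht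
    · exact k.mac' hw hle hA ha hb ht
    by_cases h0 : a.eval 0 = b.eval 0
    · exact (hA a ha b hb).of_zero (by rw [eval_sub, h0, sub_self])
    have hD' : Bd w (a - b) ‖(a - b).eval 0‖ := (hA a ha b hb).bd hw k.lt.le
    by_cases hf : ∀ z, T.derivative.eval z = 0 → σ ≤ ‖b.eval 0 - z‖
    · obtain ⟨Cc, c1, c2⟩ := k.far
      obtain ⟨c3, a', ha', c4, c5⟩ := c2 a ha b hb h0 ht hf
      have c6 : 0 < Cc * d0 := mul_pos (by linarith [c1.one]) k.dpos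
      have c7 : ∀ x : ℝ, x ≤ d0 → x * Cc ≤ ‖T.derivative.eval (b.eval 0)‖ / 2 := fun x hx => by
        nlinarith [c1.one]
      have c8 : ‖T.derivative.eval (a'.eval 0)‖ = ‖T.derivative.eval (b.eval 0)‖ :=
        neq_of_sub_lt (by
          have := c1.pdlip (h.bdd a' ha') (h.bdd b hb)
          have := c7 ‖a'.eval 0 - b.eval 0‖ (by rw [norm_sub_rev]; linarith [k.dpos])
          linarith)
      have c9 : ∀ x : ℝ, x ≤ d0 → x * Cc ≤ θ ^ 2 * ‖T.derivative.eval (a'.eval 0)‖ :=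
        fun x hx => by
          rw [c8]
          nlinarith [c7 x hx, k.half, norm_nonneg (T.derivative.eval (b.eval 0))]
      obtain ⟨E, e1, e2⟩ := c1.two w hw a b (hR a ha) (hR b hb)
      obtain ⟨Q, q1, q2⟩ := c1.dlip w hw b a' (hR b hb) (hR a' ha')
      have c10 := c5.wmono hle
      unfold Cen at c10
      rw [eval_comp] at c10
      refine Cen.lift (q := T.derivative.eval (a'.eval 0)) (Q := T.derivative.comp b + (a - b) * E)
        hw (norm_pos_iff.1 (by linarith)) t1 hD' ?_ (e2 ▸ up a ha b hb hE ht fun y h3 h4 => ?_)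
      · convert (c10.add hw (((hD b hb a' ha').mul hw q1).mono
          (c9 _ (by linarith [k.dpos])))).add hw
          (((hD a ha b hb).mul hw e1).mono (c9 _ ht.le)) using 1
        rw [← q2]; ring
      · rw [c1.scale (h.bdd b hb) h4 (by linarith [c7 _ (h3.trans ht.le)]),
          c1.scale (h.bdd b hb) (h.bdd a ha) (by linarith [c7 _ ht.le])]
        gcongr
    push Not at hf
    obtain ⟨z, hz, hb1⟩ := hf
    have hc := k.crit b hb z hz hb1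
    have hzL : z ∈ L := by simpa using h.memL _ hc
    have htL := L.sub_mem (h.memL a ha) (h.memL b hb)
    have tσ := ht.trans_le k.dle
    rcases le_or_gt ‖b.eval 0 - z‖ ‖a.eval 0 - b.eval 0‖ with h3 | h3
    · have key : ∀ p ∈ Xs, ‖p.eval 0 - z‖ ≤ ‖a.eval 0 - b.eval 0‖ →
          Bd w (p - C z - C (p.eval 0 - z)) (θ ^ 2 * ‖a.eval 0 - b.eval 0‖) := fun p hp h4 => by
        rcases h4.eq_or_lt with h5 | h5
        · have := n1 z hz p hp (h4.trans_lt tσ) (h5 ▸ hE.mono le_rfl h3)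
          unfold Cen at this
          rwa [eval_sub, eval_C, h5] at this
        · have := hA p hp _ hc
          unfold Cen at this
          rw [eval_sub, eval_C] at this
          exact this.mono ((mul_le_of_le_one_left (norm_nonneg _) k.lt.le).trans
            (k.disc _ (L.sub_mem (h.memL p hp) hzL) _ htL h5))
      unfold Cen
      rw [eval_sub]
      convert (key a ha (by simpa using nadd (le_refl ‖a.eval 0 - b.eval 0‖) h3)).sub hw
        (key b hb h3) using 1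
      simp only [C_sub]; ring
    · rcases k.alt with ⟨h2, loc⟩ | iso
      swap
      · rw [iso b hb z hz hb1, sub_self, norm_zero] at h3
        exact absurd h3 (not_lt.2 (norm_nonneg _))
      obtain ⟨G, Cc, g1, g2, g3, g4⟩ := loc z hz
      have hzR : ‖z‖ ≤ R := by simpa using h.bdd _ hc
      have g5 : Cc * ‖b.eval 0 - z‖ ≤ ‖G.eval z‖ / 2 :=
        (mul_le_mul_of_nonneg_left hb1.le (by linarith [g1.one])).trans g4
      have g6 := k.disc _ htL _ (L.sub_mem (h.memL b hb) hzL) h3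
      have g7 : 2 * G.eval z * (b.eval 0 - z) ≠ 0 := mul_ne_zero (mul_ne_zero
        (norm_pos_iff.1 (h2 ▸ one_pos)) g3) (norm_pos_iff.1 ((norm_nonneg _).trans_lt h3))
      have g8 : ∀ y : K, ‖y - b.eval 0‖ ≤ ‖a.eval 0 - b.eval 0‖ → ‖y‖ ≤ R →
          ‖T.eval y - T.eval (b.eval 0)‖ =
            ‖y - b.eval 0‖ * ‖2 * G.eval z * (b.eval 0 - z)‖ := fun y h4 h5 => by
        obtain ⟨Q, q1, q2⟩ := n3core (a := C y) (b := C (b.eval 0)) hw h2 g2 g1 hzR t1.le k.half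
          (bd_C hw h5) (bd_C hw (h.bdd b hb)) (by rwa [eval_C])
          (by
            unfold Cen
            rw [← C_sub, eval_C, sub_self]
            exact bd_zero (by positivity))
          (by rw [← C_sub, eval_C]; exact bd_C hw (h4.trans g6))
        rw [eval_C] at q2
        have q3 := congrArg (eval 0) q1
        simp only [comp_C, eval_sub, eval_mul, eval_C] at q3
        rw [q3, norm_mul, near_norm hw g7 t1 q2]
      obtain ⟨Q, q1, q2⟩ := n3core hw h2 g2 g1 hzR t1.le k.half (hR a ha) (hR b hb) g5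
        (n1 z hz b hb hb1 (hE.mono h3.le le_rfl)) ((hD a ha b hb).mono g6)
      refine Cen.lift hw g7 t1 hD' q2 (q1 ▸ up a ha b hb hE ht fun y h4 h5 => ?_)
      rw [g8 y h4 h5, g8 _ le_rfl (h.bdd a ha)]
      gcongr

omit [IsUltrametricDist K] in
theorem loc_ex {z : K} (h1 : T.derivative.eval z = 0) (h2 : T.derivative.derivative.eval z ≠ 0) :
    ∃ G : K[X], T = C (T.eval z) + (X - C z) ^ 2 * G ∧ G.eval z ≠ 0 := by
  obtain ⟨Q, hQ⟩ : X - C z ∣ T - C (T.eval z) := dvd_iff_isRoot.2 (by simp)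
  have e1 : T.derivative = Q + (X - C z) * Q.derivative := by
    simpa using congrArg derivative hQ
  obtain ⟨G, rfl⟩ : X - C z ∣ Q := dvd_iff_isRoot.2 (by simpa [e1] using h1)
  refine ⟨G, by linear_combination hQ, fun h => h2 ?_⟩
  rw [e1]
  simp [h]

omit [IsUltrametricDist K] in
theorem low_ex [IsAlgClosed K] {f : K[X]} (hf : f ≠ 0) (hσ : 0 < σ) : ∃ μ : ℝ, 0 < μ ∧
    ∀ y : K, (∀ z, f.eval z = 0 → σ ≤ ‖y - z‖) → μ ≤ ‖f.eval y‖ := by
  have hl : 0 < ‖f.leadingCoeff‖ := norm_pos_iff.2 (leadingCoeff_ne_zero.2 hf)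
  refine ⟨‖f.leadingCoeff‖ * σ ^ f.roots.card, by positivity, fun y hy => ?_⟩
  rw [(IsAlgClosed.splits f).eval_eq_prod_roots, norm_mul]
  refine mul_le_mul_of_nonneg_left ?_ hl.le
  have h1 := Multiset.prod_map_le_prod_map₀ (s := f.roots) (fun _ => σ) (fun z => ‖y - z‖)
    (fun _ _ => hσ.le) fun z hz => hy z ((mem_roots hf).1 hz)
  have h2 := map_multiset_prod (normHom (α := K)) (f.roots.map (y - ·))
  simp only [Multiset.map_map, Function.comp_def, normHom_apply] at h2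
  simpa [h2] using h1

variable [IsAlgClosed K]

theorem Sys.farZ (h : Sys T c L Xs R σ0) {s Cc : ℝ} (hs : 0 < s) (hI : Iso Xs s)
    (hZ : ∀ a ∈ Xs, ∀ b ∈ Xs, a.eval 0 ≠ b.eval 0 → Z s (a - b) = 0) (c1 : Tay T R Cc)
    {a b a' : K[X]} (ha : a ∈ Xs) (hb : b ∈ Xs) (ha' : a' ∈ Xs) (h0 : a.eval 0 ≠ b.eval 0)
    (ht : ‖a.eval 0 - b.eval 0‖ < d0) (h1 : ‖b.eval 0 - a'.eval 0‖ < d0)
    (c3 : Cc * d0 ≤ ‖T.derivative.eval (b.eval 0)‖ / 2) :
    T.derivative.comp a' ≠ 0 ∧ Z s (T.derivative.comp a') = 0 := by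
  have hw := wt_pw hs.le
  have hR := h.bd hw hI
  have c6 : 0 < Cc * d0 := mul_pos (by linarith [c1.one]) ((norm_nonneg _).trans_lt ht)
  have c7 : ∀ x : ℝ, x ≤ d0 → x * Cc ≤ Cc * d0 := fun x hx => by nlinarith [c1.one]
  obtain ⟨E, e1, e2⟩ := c1.two _ hw a b (hR a ha) (hR b hb)
  obtain ⟨Q, q1, q2⟩ := c1.dlip _ hw a' b (hR a' ha') (hR b hb)
  have b1 := ((hI a ha b hb).mul hw e1).mono (c7 _ ht.le)
  have b2 := ((hI a' ha' b hb).mul hw q1).mono (c7 _ (by rw [norm_sub_rev]; exact h1.le))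
  have b3 : ‖(T.derivative.comp b + (a - b) * E).eval 0‖ = ‖T.derivative.eval (b.eval 0)‖ :=
    neq_of_sub_lt (by
      rw [eval_add, eval_comp, add_sub_cancel_left]
      linarith [b1.eval0 hw])
  set P := T.derivative.comp b + (a - b) * E with hP
  have b4 : ((a - b) * P).eval 0 ≠ 0 := by
    rw [eval_mul, eval_sub]
    exact mul_ne_zero (sub_ne_zero.2 h0) (norm_pos_iff.1 (by linarith))
  have b5 := hZ _ (h.inv a ha) _ (h.inv b hb) (by
    rw [← sub_ne_zero, ← eval_sub, step_sub, e2]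
    exact b4)
  rw [step_sub, e2, Z_mul s (fun h => b4 (by rw [h, eval_zero]))] at b5
  have b6 := eval_le_gn hs P (l := 0) (by simpa using hs.le)
  obtain ⟨b7, b8⟩ := Z_eq_of_close hs (f := T.derivative.comp a') (g := P) (r := Cc * d0)
    (by
      convert b2.sub hw b1 using 1
      rw [← q2, hP]; ring) (by linarith)
  refine ⟨fun h => ?_, by omega⟩
  rw [h, gn_zero] at b8
  linarith

theorem Sys.cst (h : Sys T c L Xs R σ0) {s : ℝ} (hs : 0 < s) (hI : Iso Xs s)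
    (hZ : ∀ a ∈ Xs, ∀ b ∈ Xs, a.eval 0 ≠ b.eval 0 → Z s (a - b) = 0) :
    ∃ σ d0 θ s1 : ℝ, s < s1 ∧ Cst T L Xs R σ d0 θ s1 := by
  classical
  have hT : T.derivative ≠ 0 := h.alt.elim (fun h1 h0 => h1.2 0 (by simp [h0]) (by simp [h0]))
    fun h1 => h1.1
  have h1 : ∀ᶠ σ in 𝓝 (0 : ℝ), (‖(2 : K)‖ = 1 ∧ ∀ z ∈ T.derivative.roots.toFinset,
      ∃ (G : K[X]) (Cc : ℝ), Tay G R Cc ∧ T = C (T.eval z) + (X - C z) ^ 2 * G ∧ G.eval z ≠ 0 ∧
        Cc * σ ≤ ‖G.eval z‖ / 2) ∨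
      ∀ a ∈ Xs, ∀ z, T.derivative.eval z = 0 → ‖a.eval 0 - z‖ < σ0 → a.eval 0 = z := by
    rcases h.alt with ⟨h2, simple⟩ | ⟨-, iso⟩
    swap
    · exact Eventually.of_forall fun _ => Or.inr iso
    refine Eventually.mono ((Filter.eventually_all_finset _).2 fun z hz => ?_)
      fun σ h3 => Or.inl ⟨h2, h3⟩
    have hz' : T.derivative.eval z = 0 := (mem_roots hT).1 (Multiset.mem_toFinset.1 hz)
    obtain ⟨G, g1, g2⟩ := loc_ex hz' (simple z hz')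
    obtain ⟨Cc, g3⟩ := tay G R
    have g4 : ∀ᶠ σ in 𝓝 (0 : ℝ), Cc * σ < ‖G.eval z‖ / 2 :=
      ContinuousAt.eventually_lt (by fun_prop) (by fun_prop) (by simpa using g2)
    exact g4.mono fun σ g5 => ⟨G, Cc, g3, g1, g2, g5.le⟩
  obtain ⟨σ, ⟨s1, s2⟩, s3⟩ := (((h1.and (eventually_lt_nhds h.sig_pos)).filter_mono
    (nhdsWithin_le_nhds (s := Set.Ioi 0))).and self_mem_nhdsWithin).exists
  have s3 : 0 < σ := s3
  obtain ⟨μ, m1, m2⟩ := low_ex hT s3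
  obtain ⟨Cc, c1⟩ := tay T R
  have c0 : 0 < Cc := by linarith [c1.one]
  set d0 := min σ (μ / 2 / Cc) with hd
  have d1 : 0 < d0 := lt_min s3 (by positivity)
  have d2 : Cc * d0 ≤ μ / 2 := by
    rw [← le_div_iff₀' c0]; exact min_le_right _ _
  obtain ⟨A, a1, a2⟩ := h.net (half_pos d1)
  obtain ⟨k0, -, k2, k3⟩ := disc h.cpt
  have f1 : ∀ᶠ u in 𝓝[>] (0 : ℝ), ∀ a ∈ A, ∀ b ∈ A, a.eval 0 ≠ b.eval 0 →
      Cen (pw (s + u)) ((1 - u) ^ 2) (a - b) :=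
    (Filter.eventually_all_finset _).2 fun a ha => (Filter.eventually_all_finset _).2 fun b hb =>
      Filter.eventually_imp_distrib_left.2 fun h0 => cen_ev hs
        (fun h3 => h0 (by rw [sub_eq_zero.1 h3])) (hZ a (a1 a ha) b (a1 b hb) h0)
  have f2 : ∀ᶠ u in 𝓝[>] (0 : ℝ), ∀ a ∈ A, (T.derivative.comp a ≠ 0 ∧
      Z s (T.derivative.comp a) = 0) → Cen (pw (s + u)) ((1 - u) ^ 2) (T.derivative.comp a) :=
    (Filter.eventually_all_finset _).2 fun a _ =>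
      Filter.eventually_imp_distrib_left.2 fun h0 => cen_ev hs h0.1 h0.2
  have f3 : ∀ x : ℝ, x < 1 → ∀ᶠ u in 𝓝[>] (0 : ℝ), x < (1 - u) ^ 2 := fun x hx =>
    (ContinuousAt.eventually_lt (by fun_prop) (by fun_prop) (by simpa using hx)).filter_mono
      nhdsWithin_le_nhds
  obtain ⟨u, u1, u2, u3, u4, u5, u6⟩ := (f1.and (f2.and ((f3 _ k2).and ((f3 _ one_half_lt_one).and
    (((eventually_lt_nhds one_pos).filter_mono nhdsWithin_le_nhds).and
      self_mem_nhdsWithin))))).exists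
  have u6 : 0 < u := u6
  refine ⟨σ, d0, 1 - u, s + u, by linarith, by linarith, by linarith, u4.le,
    fun a ha b hb h3 => (k3 a ha b hb h3).trans (mul_le_mul_of_nonneg_right u3.le (norm_nonneg _)),
    d1, min_le_left _ _,
    s1.imp (fun s4 => ⟨s4.1, fun z hz => s4.2 z (Multiset.mem_toFinset.2 ((mem_roots hT).2 hz))⟩)
      fun iso a ha z hz h3 => iso a ha z hz (h3.trans s2),
    fun a ha z hz h3 => h.crit a ha z hz (h3.trans s2), fun a ha b hb h3 => ?_, Cc, c1,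
    fun a ha b hb h0 ht hf => ?_⟩
  · obtain ⟨a', ha', h4⟩ := a2 a ha
    obtain ⟨b', hb', h5⟩ := a2 b hb
    refine ⟨a', a1 _ ha', b', a1 _ hb', h4, h5, u1 a' ha' b' hb' fun h6 => ?_⟩
    have h7 := nsub_lt h4 h5
    rw [h6, sub_sub_sub_cancel_right] at h7
    linarith
  · obtain ⟨a', ha', h4⟩ := a2 b hb
    have h5 : Cc * d0 ≤ ‖T.derivative.eval (b.eval 0)‖ / 2 := by linarith [m2 _ hf]
    exact ⟨h5, a', a1 _ ha', h4,
      u2 a' ha' (h.farZ hs hI hZ c1 ha hb (a1 _ ha') h0 ht (by linarith) h5)⟩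

theorem Cst.coef (k : Cst T L Xs R σ d0 θ s1) (h : Sys T c L Xs R σ0)
    (hs : 0 < s1) {M : ℕ} (hM : 1 ≤ M)
    (ih : ∀ a ∈ Xs, ∀ b ∈ Xs, ∀ j, 1 ≤ j → j < M →
      ‖(a - b).coeff j‖ * s1 ^ j ≤ θ ^ 2 * ‖(a - b).eval 0‖) {B : ℝ}
    (hB : ∀ a ∈ Xs, ∀ b ∈ Xs, ‖(a - b).coeff M‖ * s1 ^ M ≤ B * ‖(a - b).eval 0‖) :
    ∀ a ∈ Xs, ∀ b ∈ Xs,
      ‖(a - b).coeff M‖ * s1 ^ M ≤ max (θ ^ 2) (θ * B) * ‖(a - b).eval 0‖ := by
  have t0 := k.pos
  set W := max 1 (B / θ) with hW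
  have w1 : 1 ≤ W := le_max_left _ _
  have w2 : B ≤ θ * W := by
    rw [← div_le_iff₀' t0]; exact le_max_right _ _
  set w : ℕ → ℝ := fun j => if j < M then s1 ^ j else if j = M then s1 ^ M / W else 0 with hw
  have hle : ∀ j, w j ≤ pw s1 j := fun j => by
    simp only [hw, pw]
    split_ifs with h3 h4
    · exact le_rfl
    · rw [h4]; exact div_le_self (by positivity) w1
    · positivity
  have hn : ∀ j, 0 ≤ w j := fun j => by
    simp only [hw]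
    split_ifs <;> positivity
  have h0 : w 0 = 1 := by simp only [hw]; rw [if_pos (by omega), pow_zero]
  have hwt : Wt w := ⟨h0, hn, fun i j => by
    rcases Nat.eq_zero_or_pos i with rfl | hi
    · rw [zero_add, h0, one_mul]
    rcases Nat.eq_zero_or_pos j with rfl | hj
    · rw [add_zero, h0, mul_one]
    rcases le_or_gt (i + j) M with h3 | h3
    · refine (hle _).trans (le_of_eq ?_)
      simp only [hw, pw]
      rw [if_pos (by omega), if_pos (by omega), pow_add]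
    · refine le_trans (le_of_eq ?_) (mul_nonneg (hn i) (hn j))
      simp only [hw]
      rw [if_neg (by omega), if_neg (by omega)]⟩
  intro a ha b hb
  have h3 := (cen_iff (sq_nonneg θ)).1 (k.boot h hwt hle (fun a ha b hb =>
    (cen_iff t0.le).2 fun j hj => by
      simp only [hw]
      split_ifs with h3 h4
      · exact (ih a ha b hb j hj h3).trans (mul_le_mul_of_nonneg_right
          (by nlinarith [k.lt]) (norm_nonneg _))
      · rw [h4, ← mul_div_assoc, div_le_iff₀ (by linarith)]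
        nlinarith [hB a ha b hb, norm_nonneg ((a - b).eval 0)]
      · rw [mul_zero]; positivity) a ha b hb) M hM
  simp only [hw, lt_irrefl, if_false, if_true] at h3
  rw [← mul_div_assoc, div_le_iff₀ (by linarith)] at h3
  refine h3.trans (le_of_eq ?_)
  rw [hW, mul_right_comm, mul_max_of_nonneg _ _ (sq_nonneg θ), mul_one,
    show θ ^ 2 * (B / θ) = θ * B by field_simp]

theorem Sys.extend (h : Sys T c L Xs R σ0) {s : ℝ} (hs : 0 < s)
    (hI : Iso Xs s) (hZ : ∀ a ∈ Xs, ∀ b ∈ Xs, a.eval 0 ≠ b.eval 0 → Z s (a - b) = 0) :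
    ∃ s1 : ℝ, s < s1 ∧ Iso Xs s1 := by
  obtain ⟨σ, d0, θ, s1, h1, k⟩ := h.cst hs hI hZ
  have hs1 := hs.trans h1
  have t0 := k.pos
  have H : ∀ M : ℕ, ∀ a ∈ Xs, ∀ b ∈ Xs, 1 ≤ M →
      ‖(a - b).coeff M‖ * s1 ^ M ≤ θ ^ 2 * ‖(a - b).eval 0‖ := fun M => by
    induction M using Nat.strong_induction_on with
    | _ M ih =>
    intro a ha b hb hM
    have it : ∀ n : ℕ, ∀ a ∈ Xs, ∀ b ∈ Xs, ‖(a - b).coeff M‖ * s1 ^ M ≤
        max (θ ^ 2) (θ ^ n * (s1 / s) ^ M) * ‖(a - b).eval 0‖ := fun n => by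
      induction n with
      | zero =>
        intro a ha b hb
        have h3 : ‖(a - b).coeff M‖ * s ^ M ≤ ‖(a - b).eval 0‖ := by
          rw [eval_sub]; exact hI a ha b hb M
        refine le_trans ?_ (mul_le_mul_of_nonneg_right (le_max_right _ _) (norm_nonneg _))
        calc _ = (s1 / s) ^ M * (‖(a - b).coeff M‖ * s ^ M) := by rw [div_pow]; field_simp
          _ ≤ _ := by rw [pow_zero, one_mul]; gcongr
      | succ n ihn =>
        intro a ha b hb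
        refine (k.coef h hs1 hM (fun a ha b hb j h3 h4 => ih j h4 a ha b hb h3) ihn
          a ha b hb).trans (mul_le_mul_of_nonneg_right (max_le (le_max_left _ _) ?_) (norm_nonneg _))
        rw [mul_max_of_nonneg _ _ t0.le]
        exact max_le_max (mul_le_of_le_one_left (sq_nonneg θ) k.lt.le) (le_of_eq (by ring))
    obtain ⟨n, hn⟩ := exists_pow_lt_of_lt_one (show 0 < θ ^ 2 / (s1 / s) ^ M by positivity) k.lt
    rw [lt_div_iff₀ (by positivity)] at hn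
    simpa only [max_eq_left hn.le] using it n a ha b hb
  refine ⟨s1, h1, fun a ha b hb => ?_⟩
  rw [← eval_sub]
  exact Cen.bd (θ := θ ^ 2) (wt_pw hs1.le) ((cen_iff (sq_nonneg θ)).2 fun j hj => H j a ha b hb hj)
    (pow_le_one₀ t0.le k.lt.le)

end Pool.Agent.MP_28f8a1_an.W37
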