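import Pool.Agent.MP_28f8a1_an.W37.Wei

/-! h37w F3: capture, escape fact, nets, discreteness. -/

open Polynomial Metric Filter

namespace Pool.Agent.MP_28f8a1_an.W37

variable {K : Type*} [NontriviallyNormedField K] [IsUltrametricDist K]

theorem esc_radius (d : ℕ) (hd : 2 ≤ d) (a B : ℝ) (ha : 0 < a) : ∃ R0 : ℝ, 0 < R0 ∧
    ∀ S : K[X], S.natDegree = d → a ≤ ‖S.leadingCoeff‖ → (∀ k, ‖S.coeff k‖ ≤ B) →
      ∀ z : K, R0 ≤ ‖z‖ → 2 * ‖z‖ ≤ ‖S.eval z‖ := by
  have hq : 0 < (|B| + 2) / a := by positivity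
  refine ⟨1 + (|B| + 2) / a, by positivity, fun S hS hl hB z hz => ?_⟩
  obtain ⟨e, rfl⟩ : ∃ e, d = e + 2 := ⟨d - 2, by omega⟩
  have h1 : 1 ≤ ‖z‖ := by linarith
  have h2 : |B| + 2 ≤ a * ‖z‖ := by
    have : (|B| + 2) / a ≤ ‖z‖ := by linarith
    rw [div_le_iff₀ ha] at this; linarith
  have hB0 : 0 ≤ B := (norm_nonneg _).trans (hB 0)
  rw [abs_of_nonneg hB0] at h2
  have h3 : ‖S.eraseLead.eval z‖ ≤ B * ‖z‖ ^ (e + 1) := by
    refine Bd.eval_le (s := ‖z‖) (fun k => ?_) le_rfl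
    by_cases hk : k ≤ e + 1
    · rw [eraseLead_coeff_of_ne _ (by omega)]
      exact mul_le_mul (hB k) (pow_le_pow_right₀ h1 hk) (pow_nonneg (norm_nonneg _) _) hB0
    · have : S.eraseLead.coeff k = 0 := by
        rw [eraseLead_coeff]
        split_ifs with h
        · rfl
        · exact coeff_eq_zero_of_natDegree_lt (by omega)
      rw [this, norm_zero, zero_mul]; positivity
  have hp : 0 < ‖z‖ ^ (e + 1) := by positivity
  have h4 : a * ‖z‖ * ‖z‖ ^ (e + 1) ≤ ‖S.leadingCoeff * z ^ (e + 2)‖ := by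
    rw [norm_mul, norm_pow]
    calc _ = a * ‖z‖ ^ (e + 2) := by ring
      _ ≤ _ := mul_le_mul_of_nonneg_right hl (by positivity)
  have h5 : S.eval z - S.leadingCoeff * z ^ (e + 2) = S.eraseLead.eval z := by
    have := congrArg (eval z) (eraseLead_add_C_mul_X_pow S)
    simp only [eval_add, eval_mul, eval_C, eval_pow, eval_X, hS] at this
    rw [← this]; ring
  have h6 : ‖S.eval z‖ = ‖S.leadingCoeff * z ^ (e + 2)‖ := by
    apply neq_of_sub_lt
    rw [h5]
    nlinarith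
  have h7 : ‖z‖ ≤ ‖z‖ ^ (e + 1) := le_self_pow₀ h1 (by omega)
  rw [h6]
  nlinarith

omit [IsUltrametricDist K] in
theorem tendsto_of_double {S : K[X]} {R0 : ℝ} (hR : 0 < R0)
    (h : ∀ z : K, R0 ≤ ‖z‖ → 2 * ‖z‖ ≤ ‖S.eval z‖) {c : K} {n : ℕ} (hn : R0 ≤ ‖it S n c‖) :
    Tendsto (fun n : ℕ => ‖it S n c‖) atTop atTop := by
  have h1 : ∀ k : ℕ, R0 * 2 ^ k ≤ ‖it S (k + n) c‖ := by
    intro k
    induction k with
    | zero => simpa using hn
    | succ k ih =>
      have h2 : (1 : ℝ) ≤ 2 ^ k := one_le_pow₀ one_le_two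
      have h3 := h (it S (k + n) c) (by nlinarith)
      rw [show k + 1 + n = (k + n) + 1 by ring, it_succ, pow_succ]
      linarith
  rw [← tendsto_add_atTop_iff_nat n]
  exact tendsto_atTop_mono h1
    ((tendsto_pow_atTop_atTop_of_one_lt one_lt_two).const_mul_atTop hR)

omit [IsUltrametricDist K] in
theorem exists_itp (S : K[X]) (m : ℕ) : ∃ g : K[X], (∀ z, g.eval z = it S m z) ∧
    ∀ z, g.derivative.eval z = ∏ n ∈ Finset.range m, S.derivative.eval (it S n z) := by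
  induction m with
  | zero => exact ⟨X, fun z => by simp [it_zero], fun z => by simp⟩
  | succ m ih =>
    obtain ⟨g, h1, h2⟩ := ih
    refine ⟨S.comp g, fun z => by rw [eval_comp, h1, it_succ], fun z => ?_⟩
    rw [derivative_comp, eval_mul, eval_comp, h1, h2, Finset.prod_range_succ]

theorem cap_of_periodic (S : K[X]) {q : K} {m : ℕ} (hq : it S m q = q)
    (hρ : ‖∏ n ∈ Finset.range m, S.derivative.eval (it S n q)‖ ≤ 1) :
    ∃ r : ℝ, 0 < r ∧ Set.MapsTo (it S m) (closedBall q r) (closedBall q r) := by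
  obtain ⟨g, h1, h2⟩ := exists_itp S m
  obtain ⟨Cc, hC⟩ := tay g (‖q‖ + 1)
  have hC0 : 0 < Cc := lt_of_lt_of_le one_pos hC.one
  refine ⟨1 / Cc, by positivity, fun z hz => ?_⟩
  rw [mem_closedBall_iff_norm] at hz ⊢
  have h3 : ‖z - q‖ * Cc ≤ 1 := (le_div_iff₀ hC0).1 hz
  have h4 : ‖z‖ ≤ ‖q‖ + 1 := by
    have := norm_sub_norm_le z q
    have h5 := hC.one
    nlinarith [norm_nonneg (z - q)]
  obtain ⟨e, he, h5⟩ := hC.ptwo h4 (le_add_of_nonneg_right zero_le_one)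
  rw [h1, h1, hq, h2] at h5
  rw [h5, norm_mul]
  refine le_trans (mul_le_of_le_one_right (norm_nonneg _) (nadd hρ ?_)) hz
  rw [norm_mul]
  exact (mul_le_mul_of_nonneg_left he (norm_nonneg _)).trans h3

theorem repel_of_periodic (S : K[X]) {q : K} {m : ℕ} (hq : it S m q = q)
    (hρ : 1 < ‖∏ n ∈ Finset.range m, S.derivative.eval (it S n q)‖) :
    ∃ r : ℝ, 0 < r ∧ ∀ z : K, ‖z - q‖ ≤ r → ‖z - q‖ ≤ ‖it S m z - q‖ := by
  obtain ⟨g, h1, h2⟩ := exists_itp S m
  obtain ⟨Cc, hC⟩ := tay g (‖q‖ + 1)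
  have hC0 : 0 < Cc := lt_of_lt_of_le one_pos hC.one
  refine ⟨1 / Cc, by positivity, fun z hz => ?_⟩
  have h3 : ‖z - q‖ * Cc ≤ 1 := (le_div_iff₀ hC0).1 hz
  have h4 : ‖z‖ ≤ ‖q‖ + 1 := by
    have := norm_sub_norm_le z q
    have h5 := hC.one
    nlinarith [norm_nonneg (z - q)]
  rw [← h2] at hρ
  have h5 := hC.scale (le_add_of_nonneg_right zero_le_one) h4 (h3.trans_lt hρ)
  rw [h1, h1, hq] at h5
  rw [h5]
  exact le_mul_of_one_le_right (norm_nonneg _) hρ.le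

omit [IsUltrametricDist K] in
theorem Captured.of_it {S : K[X]} {c : K} {j : ℕ} (h : Captured S (it S j c)) : Captured S c := by
  rcases h with h | ⟨b, r, m, i, h1, h2, h3, h4⟩
  · left
    rw [← tendsto_add_atTop_iff_nat j]
    simpa only [it_add] using h
  · exact Or.inr ⟨b, r, m, i + j, h1, h2, h3, by rwa [it_add]⟩

omit [IsUltrametricDist K] in
theorem xi_inj {T : K[X]} (hd : 2 ≤ T.natDegree) (c : K) {i j : ℕ} (h : xi T c i = xi T c j) :
    i = j := by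
  have hm : StrictMono fun j => (xi T c j).natDegree := by
    refine strictMono_nat_of_lt_succ fun j => ?_
    simp only [xi, step]
    rcases Nat.eq_zero_or_pos (xi T c j).natDegree with h0 | h0
    · rw [natDegree_add_eq_right_of_natDegree_lt (by rw [natDegree_comp, h0]; simp), h0]; simp
    · rw [natDegree_add_eq_left_of_natDegree_lt (by rw [natDegree_comp, natDegree_X]; nlinarith),
        natDegree_comp]
      nlinarith
  exact hm.injective (by simp only [h])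

theorem Es.mono {T : K[X]} {d0 t t' : ℝ} {n : ℕ} {x x' : K} (h : Es T d0 n x t) (ht : t ≤ t')
    (hx : ‖x - x'‖ ≤ t') : Es T d0 n x' t' := by
  obtain ⟨z, z', k, h1, h2, h3, h4⟩ := h
  refine ⟨z, z', k, h1, ?_, ?_, h4⟩
  · rw [← sub_add_sub_cancel z x x']; exact nadd (h2.trans ht) hx
  · rw [← sub_add_sub_cancel z' x x']; exact nadd (h3.trans ht) hx

theorem Es.zero {T : K[X]} {d0 t : ℝ} {x : K} (h : Es T d0 0 x t) : d0 ≤ t := by
  obtain ⟨z, z', k, h1, h2, h3, h4⟩ := h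
  obtain rfl : k = 0 := by omega
  refine h4.trans ?_
  rw [it_zero, it_zero, ← sub_sub_sub_cancel_right z z' x]
  exact nsub h2 h3

theorem Es.step {T : K[X]} {d0 t t' : ℝ} {n : ℕ} {x : K} (h : Es T d0 (n + 1) x t) (ht : t < d0)
    (hm : ∀ z : K, ‖z - x‖ ≤ t → ‖T.eval z - T.eval x‖ ≤ t') : Es T d0 n (T.eval x) t' := by
  obtain ⟨z, z', k, h1, h2, h3, h4⟩ := h
  rcases k with _ | k
  · exact absurd (Es.zero ⟨z, z', 0, le_rfl, h2, h3, h4⟩) (not_le.2 ht)
  · exact ⟨T.eval z, T.eval z', k, by omega, hm z h2, hm z' h3, by rwa [it_succ', it_succ'] at h4⟩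

omit [IsUltrametricDist K] in
theorem disc {L : Subfield K} (cpt : Dv L) :
    ∃ k0 : ℝ, 0 ≤ k0 ∧ k0 < 1 ∧ ∀ a ∈ L, ∀ b ∈ L, ‖a‖ < ‖b‖ → ‖a‖ ≤ k0 * ‖b‖ := by
  obtain ⟨-, g, hg, h⟩ := cpt
  have g0 : 0 < g := by linarith
  refine ⟨g⁻¹, by positivity, inv_lt_one_of_one_lt₀ hg, fun a ha b hb hab => ?_⟩
  rcases eq_or_ne a 0 with rfl | ha0
  · rw [norm_zero]; positivity
  obtain ⟨m, hm⟩ := h a ha ha0
  obtain ⟨n, hn⟩ := h b hb (norm_pos_iff.1 ((norm_nonneg _).trans_lt hab))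
  rw [hm, hn] at hab ⊢
  rw [zpow_lt_zpow_iff_right₀ hg] at hab
  rw [← zpow_neg_one, ← zpow_add₀ g0.ne']
  exact zpow_le_zpow_right₀ hg.le (by omega)

variable {T : K[X]} {c : K} {L : Subfield K} {Xs : Set K[X]} {R σ0 : ℝ}

/-- an a priori Lipschitz bound gives the bound `R` on `Xs` -/
theorem Sys.bd (h : Sys T c L Xs R σ0) {w : ℕ → ℝ} (hw : Wt w)
    (hI : ∀ a ∈ Xs, ∀ b ∈ Xs, Bd w (a - b) ‖a.eval 0 - b.eval 0‖) : ∀ a ∈ Xs, Bd w a R := by
  intro a ha
  have h0 := h.bdd _ (h.orb 0)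
  have h1 := (hI a ha _ (h.orb 0)).mono (nsub (h.bdd a ha) h0)
  simp only [xi, eval_C] at h0 h1
  exact h1.of_centred hw h0

variable [IsAlgClosed K]

theorem nr {T : K[X]} (hd : 2 ≤ T.natDegree) {c : K} {s R : ℝ} (hs : 0 < s)
    (hb : ∀ j, Bd (pw s) (xi T c j) R) {l0 : K} (hl : ‖l0‖ ≤ s) {i m : ℕ} (hm : 1 ≤ m)
    (h : it (T + C l0) (i + m) c = it (T + C l0) i c) :
    ‖∏ n ∈ Finset.range m, T.derivative.eval (it (T + C l0) (i + n) c)‖ ≤ 1 := by
  have hw := wt_pw hs.le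
  obtain ⟨Cc, hC⟩ := tay T R
  have per : ∀ n, it (T + C l0) (i + (n + m)) c = it (T + C l0) (i + n) c := by
    intro n
    rw [show i + (n + m) = n + (i + m) by ring, it_add, h, ← it_add, add_comm n i]
  set a : ℕ → ℝ := fun n => ‖T.derivative.eval (it (T + C l0) (i + n) c)‖ with ha
  set G : ℕ → ℝ := fun n => gn s (xi T c (i + (n + m)) - xi T c (i + n)) with hG
  have h1 : ∀ n, G n * a n ≤ G (n + 1) := by
    intro n
    obtain ⟨E, -, he⟩ := hC.two _ hw _ _ (hb (i + (n + m))) (hb (i + n))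
    have h2 : xi T c (i + (n + 1 + m)) - xi T c (i + (n + 1)) =
        T.comp (xi T c (i + (n + m))) - T.comp (xi T c (i + n)) := by
      rw [show i + (n + 1 + m) = (i + (n + m)) + 1 by ring, show i + (n + 1) = (i + n) + 1 by ring,
        xi, xi, step_sub]
    simp only [hG, ha]
    rw [h2, he, gn_mul]
    refine mul_le_mul_of_nonneg_left (le_trans (le_of_eq ?_) (eval_le_gn hs _ hl)) (gn_nonneg hs _)
    simp only [eval_add, eval_mul, eval_sub, eval_comp, xi_eval, per, sub_self, zero_mul, add_zero]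
  have h2 : ∀ n k, G n * ∏ j ∈ Finset.range k, a (n + j) ≤ G (n + k) := by
    intro n k
    induction k with
    | zero => simp
    | succ k ih =>
      rw [Finset.prod_range_succ, ← mul_assoc]
      exact (mul_le_mul_of_nonneg_right ih (norm_nonneg _)).trans (h1 _)
  have h3 : ∀ j t, a (j * m + t) = a t := by
    intro j t
    induction j with
    | zero => simp
    | succ j ih =>
      rw [← ih]
      simp only [ha]
      rw [show (j + 1) * m + t = (j * m + t) + m by ring, per]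
  have hρ0 : 0 ≤ ∏ j ∈ Finset.range m, a j := Finset.prod_nonneg fun _ _ => norm_nonneg _
  have h4 : ∀ j, G 0 * (∏ j ∈ Finset.range m, a j) ^ j ≤ G (j * m) := by
    intro j
    induction j with
    | zero => simp
    | succ j ih =>
      have := h2 (j * m) m
      simp only [h3] at this
      rw [pow_succ, ← mul_assoc, add_mul, one_mul]
      exact (mul_le_mul_of_nonneg_right ih hρ0).trans this
  have h5 : ∀ n, G n ≤ R := fun n => ((hb _).sub hw (hb _)).gn_le hs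
  have h6 : 0 < G 0 := gn_pos hs (sub_ne_zero.2 fun h0 => by
    have := xi_inj hd c h0; omega)
  rw [norm_prod]
  by_contra hc
  obtain ⟨j, hj⟩ := pow_unbounded_of_one_lt (R / G 0) (not_le.1 hc)
  rw [div_lt_iff₀ h6] at hj
  have := (h4 j).trans (h5 _)
  simp only [ha] at this
  linarith

/-- a disc whose orbit is bounded and which is visited twice gives capture -/
theorem cap_of_bdd {u : K} {t R' : ℝ} {m : ℕ} (ht0 : 0 < t) (hm : 1 ≤ m)
    (hB : ∀ z : K, ‖z - u‖ ≤ t → ∀ k, ‖it T k z‖ ≤ R') (hmu : ‖it T m u - u‖ ≤ t) :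
    Captured T u := by
  by_contra ncap
  have hR : ‖u‖ ≤ R' := hB u (by simpa using ht0.le) 0
  set U : Set ℝ := {r | t ≤ r ∧ ∀ z : K, ‖z - u‖ ≤ r → ∀ k, ‖it T k z‖ ≤ R'} with hU
  have htU : t ∈ U := ⟨le_rfl, hB⟩
  have hbd : BddAbove U := by
    obtain ⟨v, hv⟩ := NormedField.exists_lt_norm K R'
    refine ⟨‖v‖, fun r hr => not_lt.1 fun hlt => ?_⟩
    have h1 := hr.2 (v + u) (by simpa using hlt.le) 0
    rw [it_zero] at h1
    have h2 := nsub h1 hR
    rw [add_sub_cancel_right] at h2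
    exact absurd h2 (not_le.2 hv)
  have h1 : t ≤ sSup U := le_csSup hbd htU
  have hr0 : 0 < sSup U := ht0.trans_le h1
  obtain ⟨g, hg, -⟩ := exists_itp T m
  have hG : ∀ v, (taylor u g).eval v = it T m (v + u) := fun v => by rw [taylor_eval, hg]
  obtain ⟨k, hk, hlt⟩ : ∃ k, 1 ≤ k ∧ sSup U < ‖(taylor u g).coeff k‖ * sSup U ^ k := by
    by_contra hc
    refine ncap (Or.inr ⟨u, sSup U, m, 0, hr0, hm, fun z hz => ?_, mem_closedBall_self hr0.le⟩)
    rw [mem_closedBall_iff_norm] at hz ⊢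
    have h2 : Bd (pw (sSup U)) (taylor u g - C u) (sSup U) := by
      intro k
      rcases k with _ | k
      · simpa [pw, hg] using hmu.trans h1
      · simpa [pw, coeff_C] using not_lt.1 fun h3 => hc ⟨k + 1, by omega, h3⟩
    simpa [hG] using h2.eval_le hz
  obtain ⟨r, hr1, hr2⟩ := mem_closure_iff.1 (csSup_mem_closure ⟨t, htU⟩ hbd)
    {r : ℝ | sSup U < ‖(taylor u g).coeff k‖ * r ^ k} (isOpen_lt continuous_const (by fun_prop)) hlt
  have h2 : ‖(taylor u g).coeff k‖ * r ^ k ∈ U := by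
    have h3 : t ≤ ‖(taylor u g).coeff k‖ * r ^ k := h1.trans (le_of_lt hr1)
    refine ⟨h3, fun z hz j => ?_⟩
    obtain ⟨v, hv, hz'⟩ := cover (ht0.trans_le hr2.1) (taylor u g) z hk (by
      rw [hG, zero_add, ← sub_sub_sub_cancel_right _ _ u]
      exact nsub (hmu.trans h3) hz)
    rw [← hz', hG, ← it_add]
    exact hr2.2 _ (by simpa using hv) _
  exact absurd (le_csSup hbd h2) (not_le.2 hr1)

omit [IsUltrametricDist K] in
theorem norm_eval_prod (p : K[X]) (x : K) :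
    ‖p.eval x‖ = ‖p.leadingCoeff‖ * (p.roots.map fun β => ‖x - β‖).prod := by
  rw [(IsAlgClosed.splits p).eval_eq_prod_roots, norm_mul]
  congr 1
  induction p.roots using Multiset.induction_on with
  | empty => simp
  | cons a s ih => simp [ih]

/-- if the norm of `p` grows on a disc, `p` has a root in the open disc -/
theorem root_near {p : K[X]} {x z : K} {t : ℝ} (hz : ‖z - x‖ ≤ t) (h : ‖p.eval x‖ < ‖p.eval z‖) :
    ∃ β ∈ p.roots, ‖x - β‖ < t := by
  by_contra hc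
  push Not at hc
  refine absurd h (not_lt.2 ?_)
  rw [norm_eval_prod, norm_eval_prod]
  refine mul_le_mul_of_nonneg_left (Multiset.prod_map_le_prod_map₀ _ _
    (fun _ _ => norm_nonneg _) fun β hβ => ?_) (norm_nonneg _)
  rw [← sub_add_sub_cancel z x β]
  exact nadd (hz.trans (hc β hβ)) le_rfl

/-- a bounded orbit in a discretely valued field that is not captured is totally bounded -/
theorem tb_orbit (hL : Dv L) (hc : ∀ n, it T n c ∈ L) (hb : ∀ n, ‖it T n c‖ ≤ R)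
    (hn : ¬ Captured T c) : TotallyBounded (Set.range fun n => it T n c) := by
  classical
  obtain ⟨-, g, hg, hv⟩ := hL
  have g0 : 0 < g := by linarith
  set P : ℝ → Prop := fun t => ∀ N : ℕ, ∃ n, N ≤ n ∧
    ∀ z : K, ‖z - it T n c‖ ≤ t → ∀ k ≤ N, ‖it T k z‖ ≤ R with hP
  have h1 : ∀ t, ¬ P t → ∃ (N : ℕ) (S : Finset K), ∀ n, N ≤ n → ∃ β ∈ S, ‖it T n c - β‖ < t := by
    intro t ht
    simp only [hP] at ht
    push Not at ht
    obtain ⟨N, hN⟩ := ht
    choose q hq _ using exists_itp T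
    refine ⟨N, (Finset.range (N + 1)).biUnion fun k => (q k).roots.toFinset, fun n hn => ?_⟩
    obtain ⟨z, h2, k, h3, h4⟩ := hN n hn
    obtain ⟨β, h5, h6⟩ := root_near (p := q k) h2 (by
      rw [hq, hq, ← it_add]; exact (hb _).trans_lt h4)
    exact ⟨β, Finset.mem_biUnion.2 ⟨k, Finset.mem_range.2 (by omega), by simpa using h5⟩, h6⟩
  have h2 : ∀ j : ℤ, ¬ P (g ^ j) := by
    intro j0 hj0
    obtain ⟨j, hj, hmax⟩ := Int.exists_greatest_of_bdd (P := fun j : ℤ => P (g ^ j)) (by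
      obtain ⟨v, hv⟩ := NormedField.exists_lt_norm K R
      obtain ⟨b, hb'⟩ := pow_unbounded_of_one_lt ‖v‖ hg
      refine ⟨b, fun j hj => not_lt.1 fun hlt => ?_⟩
      obtain ⟨n, -, h3⟩ := hj 0
      have h4 := h3 (v + it T n c) (by
        rw [add_sub_cancel_right]
        exact hb'.le.trans (by rw [← zpow_natCast]; exact zpow_le_zpow_right₀ hg.le hlt.le)) 0 le_rfl
      have h5 := nsub h4 (hb n)
      rw [it_zero, add_sub_cancel_right] at h5
      exact absurd h5 (not_le.2 hv)) ⟨j0, hj0⟩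
    obtain ⟨N0, S, hS⟩ := h1 (g ^ (j + 1)) fun h => by have := hmax _ h; omega
    choose n hn1 hn2 using hj
    choose β hβ hβ' using fun N : ℕ => hS (n (N0 + N)) ((Nat.le_add_right _ _).trans (hn1 _))
    obtain ⟨y, hy⟩ := Finite.exists_infinite_fiber fun N : ℕ => (⟨β N, hβ N⟩ : S)
    have hI := Set.infinite_coe_iff.1 hy
    have h3 : ∀ N ∈ (fun N : ℕ => (⟨β N, hβ N⟩ : S)) ⁻¹' {y},
        ‖it T (n (N0 + N)) c - y‖ < g ^ (j + 1) := fun N hN => by
      have h4 : β N = y := congrArg Subtype.val (Set.mem_singleton_iff.1 hN)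
      exact h4 ▸ hβ' N
    obtain ⟨N1, hN1⟩ := hI.nonempty
    have h4 : ∀ N ∈ (fun N : ℕ => (⟨β N, hβ N⟩ : S)) ⁻¹' {y},
        ‖it T (n (N0 + N)) c - it T (n (N0 + N1)) c‖ ≤ g ^ j := fun N hN => by
      have h5 := nsub_lt (h3 N hN) (h3 N1 hN1)
      rw [sub_sub_sub_cancel_right] at h5
      rcases eq_or_ne (it T (n (N0 + N)) c - it T (n (N0 + N1)) c) 0 with h6 | h6
      · rw [h6, norm_zero]; positivity
      obtain ⟨e, he⟩ := hv _ (L.sub_mem (hc _) (hc _)) h6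
      rw [he] at h5 ⊢
      rw [zpow_lt_zpow_iff_right₀ hg] at h5
      exact zpow_le_zpow_right₀ hg.le (by omega)
    obtain ⟨N2, hN2, hlt⟩ := hI.exists_gt (n (N0 + N1))
    have h5 := hn1 (N0 + N2)
    refine hn (Captured.of_it (j := n (N0 + N1)) (cap_of_bdd (t := g ^ j) (R' := R)
      (m := n (N0 + N2) - n (N0 + N1)) (by positivity) (by omega) (fun z hz k => ?_) ?_))
    · obtain ⟨N, hN, hk⟩ := hI.exists_gt k
      refine hn2 (N0 + N) z ?_ k (by omega)
      rw [← sub_sub_sub_cancel_right _ _ (it T (n (N0 + N1)) c)]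
      exact nsub hz (h4 N hN)
    · rw [← it_add, Nat.sub_add_cancel (by omega)]
      exact h4 N2 hN2
  refine Metric.totallyBounded_iff.2 fun ε hε => ?_
  obtain ⟨b, hb'⟩ := exists_pow_lt_of_lt_one hε (inv_lt_one_of_one_lt₀ hg)
  obtain ⟨N, S, hS⟩ := h1 _ (h2 (-b))
  refine ⟨S ∪ (Finset.range N).image fun n => it T n c,
    (Finset.finite_toSet _).union (Finset.finite_toSet _), ?_⟩
  rintro _ ⟨n, rfl⟩
  simp only [Set.mem_iUnion, mem_ball, dist_eq_norm]
  rcases lt_or_ge n N with h3 | h3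
  · exact ⟨it T n c, by simp; exact Or.inr ⟨n, h3, rfl⟩, by simpa using hε⟩
  · obtain ⟨β, h4, h5⟩ := hS n h3
    exact ⟨β, by simp [h4], h5.trans (by rwa [zpow_neg, zpow_natCast, ← inv_pow])⟩

theorem Sys.net (h : Sys T c L Xs R σ0) {η : ℝ} (hη : 0 < η) : ∃ A : Finset K[X],
    (∀ a ∈ A, a ∈ Xs) ∧ ∀ a ∈ Xs, ∃ a' ∈ A, ‖a.eval 0 - a'.eval 0‖ < η := by
  classical
  have h1 : TotallyBounded ((fun a : K[X] => a.eval 0) '' Xs) := by
    refine (tb_orbit h.cpt (fun n => ?_) (R := R) (fun n => ?_) h.ncap).closure.subset ?_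
    · rw [← xi_eval0]; exact h.memL _ (h.orb n)
    · rw [← xi_eval0]; exact h.bdd _ (h.orb n)
    rintro _ ⟨a, ha, rfl⟩
    refine Metric.mem_closure_iff.2 fun ε hε => ?_
    obtain ⟨j, hj⟩ := h.approx a ha ε hε
    exact ⟨_, ⟨j, rfl⟩, by rwa [dist_comm, dist_eq_norm]⟩
  obtain ⟨t, h2, h3, h4⟩ := finite_approx_of_totallyBounded h1 η hη
  lift t to Finset K using h3
  obtain ⟨A, h5, rfl⟩ := Finset.subset_set_image_iff.1 h2
  refine ⟨A, fun a ha => h5 ha, fun a ha => ?_⟩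
  have h6 := h4 ⟨a, ha, rfl⟩
  simp only [Set.mem_iUnion, Finset.coe_image, Set.mem_image, mem_ball, dist_eq_norm] at h6
  obtain ⟨_, ⟨a', h7, rfl⟩, h8⟩ := h6
  exact ⟨a', h7, h8⟩

theorem Sys.esc (h : Sys T c L Xs R σ0) {a b : K[X]} (ha : a ∈ Xs) (hb : b ∈ Xs)
    (hab : a.eval 0 ≠ b.eval 0) {d0 : ℝ} (_hd0 : 0 < d0) :
    ∃ n, Es T d0 n (a.eval 0) ‖a.eval 0 - b.eval 0‖ := by
  by_contra hcon
  set x := a.eval 0
  set y := b.eval 0
  set t := ‖x - y‖ with ht
  have ht0 : 0 < t := norm_pos_iff.2 (sub_ne_zero.2 hab)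
  have hsm : ∀ z z' k, ‖z - x‖ ≤ t → ‖z' - x‖ ≤ t → ‖it T k z - it T k z'‖ < d0 :=
    fun z z' k h1 h2 => not_le.1 fun h3 => hcon ⟨k, z, z', k, le_rfl, h1, h2, h3⟩
  obtain ⟨i, m, hm, hi, him⟩ : ∃ i m, 1 ≤ m ∧ ‖it T i c - x‖ ≤ t ∧ ‖it T (m + i) c - x‖ ≤ t := by
    obtain ⟨i, hi⟩ := h.approx a ha t ht0
    obtain ⟨j, hj⟩ := h.approx b hb t ht0
    have hj' : ‖it T j c - x‖ ≤ t := by
      rw [← sub_add_sub_cancel (it T j c) y x]
      exact nadd hj.le (by rw [norm_sub_rev])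
    rcases lt_trichotomy i j with hij | hij | hij
    · exact ⟨i, j - i, by omega, hi.le, by rwa [Nat.sub_add_cancel hij.le]⟩
    · subst hij
      have := nsub_lt hj hi
      rw [sub_sub_sub_cancel_left] at this
      exact absurd this (lt_irrefl _)
    · exact ⟨j, i - j, by omega, hj', by rw [Nat.sub_add_cancel hij.le]; exact hi.le⟩
  set u := it T i c with hu
  have hR : ∀ k, ‖it T k u‖ ≤ R := fun k => by
    rw [hu, ← it_add, ← xi_eval0]; exact h.bdd _ (h.orb _)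
  refine h.ncap (Captured.of_it (j := i) (cap_of_bdd (R' := max R d0) ht0 hm (fun z hz k => ?_) ?_))
  · have h1 : ‖z - x‖ ≤ t := by rw [← sub_add_sub_cancel z u x]; exact nadd hz hi
    rw [← sub_add_cancel (it T k z) (it T k u)]
    exact nadd ((hsm z u k h1 hi).le.trans (le_max_right _ _)) ((hR k).trans (le_max_left _ _))
  · rw [← sub_sub_sub_cancel_right _ _ x]
    exact nsub (by rwa [← it_add]) hi

end Pool.Agent.MP_28f8a1_an.W37
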