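import Pool.Agent.MP_28f8a1_an.W37.Cap

/-! h37w F5: section 1 of the paper. -/

open Polynomial Metric Filter Topology

namespace Pool.Agent.MP_28f8a1_an.W37

variable {K : Type*} [NontriviallyNormedField K] [IsUltrametricDist K] [IsAlgClosed K]
variable {T : K[X]} {c : K} {L : Subfield K} {Xs : Set K[X]} {R σ0 s : ℝ}

theorem co_gn (hs : 0 < s) (hI : Iso Xs s) {a b : K[X]} (ha : a ∈ Xs) (hb : b ∈ Xs) :
    gn s (a - b) = ‖a.eval 0 - b.eval 0‖ := by
  rw [gn_eq_of_bd hs (by simpa using hI a ha b hb), eval_sub]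

theorem co_near (hs : 0 < s) (hI : Iso Xs s) {a b a' b' : K[X]} (ha : a ∈ Xs) (hb : b ∈ Xs)
    (ha' : a' ∈ Xs) (hb' : b' ∈ Xs) (h1 : ‖a'.eval 0 - a.eval 0‖ < ‖a.eval 0 - b.eval 0‖)
    (h2 : ‖b'.eval 0 - b.eval 0‖ < ‖a.eval 0 - b.eval 0‖) : Z s (a' - b') = Z s (a - b) := by
  refine (Z_eq_of_close hs (r := max ‖a'.eval 0 - a.eval 0‖ ‖b'.eval 0 - b.eval 0‖) ?_ ?_).1
  · rw [show a' - b' - (a - b) = (a' - a) - (b' - b) by ring]
    exact ((hI _ ha' _ ha).mono (le_max_left _ _)).sub (wt_pw hs.le)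
      ((hI _ hb' _ hb).mono (le_max_right _ _))
  · rw [co_gn hs hI ha hb]; exact max_lt h1 h2

theorem Sys.co_mac (h : Sys T c L Xs R σ0) (hs : 0 < s) (hI : Iso Xs s) {η : ℝ} (hη : 0 < η) :
    ∃ M : ℕ, ∀ a ∈ Xs, ∀ b ∈ Xs, η ≤ ‖a.eval 0 - b.eval 0‖ → Z s (a - b) ≤ M := by
  obtain ⟨A, hA, hn⟩ := h.net hη
  refine ⟨A.sup natDegree, fun a ha b hb hab => ?_⟩
  obtain ⟨a', ha', h1⟩ := hn a ha
  obtain ⟨b', hb', h2⟩ := hn b hb
  have e := co_near hs hI ha hb (hA _ ha') (hA _ hb') (by rw [norm_sub_rev]; linarith)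
    (by rw [norm_sub_rev]; linarith)
  rw [← e]
  exact (Z_le_natDegree s _).trans ((natDegree_sub_le a' b').trans
    (max_le (Finset.le_sup ha') (Finset.le_sup hb')))

/-- one step for a pair that collides at `l0` -/
theorem Sys.co_step (h : Sys T c L Xs R σ0) (hs : 0 < s) (hI : Iso Xs s) {l0 : K} (hl : ‖l0‖ ≤ s)
    {a b : K[X]} (ha : a ∈ Xs) (hb : b ∈ Xs) (hab : a.eval l0 = b.eval l0)
    (hne : (step T a).eval 0 ≠ (step T b).eval 0) : ∃ z : ℕ,
      Z s (step T a - step T b) = Z s (a - b) + z ∧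
      ‖a.eval 0 - b.eval 0‖ * ‖T.derivative.eval (b.eval l0)‖ ≤
        ‖(step T a).eval 0 - (step T b).eval 0‖ ∧
      (z = 0 → ‖(step T a).eval 0 - (step T b).eval 0‖ ≤
        ‖a.eval 0 - b.eval 0‖ * ‖T.derivative.eval (b.eval l0)‖) := by
  have hw := wt_pw hs.le
  obtain ⟨Cc, hC⟩ := tay T R
  obtain ⟨E, -, hE⟩ := hC.two _ hw a b (h.bd hw hI a ha) (h.bd hw hI b hb)
  obtain ⟨Q, hQ⟩ : ∃ Q, Q = T.derivative.comp b + (a - b) * E := ⟨_, rfl⟩
  have h1 : step T a - step T b = (a - b) * Q := by rw [step_sub, hE, hQ]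
  have h2 : Q.eval l0 = T.derivative.eval (b.eval l0) := by simp [hQ, hab, eval_comp]
  have h3 : (a - b) * Q ≠ 0 := fun h0 => hne (by
    have := congrArg (eval 0) (h1.trans h0)
    rwa [eval_sub, eval_zero, sub_eq_zero] at this)
  have h4 := co_gn hs hI (h.inv a ha) (h.inv b hb)
  rw [h1, gn_mul, co_gn hs hI ha hb] at h4
  refine ⟨Z s Q, by rw [h1, Z_mul s h3], ?_, fun hz => ?_⟩
  · rw [← h4, ← h2]
    exact mul_le_mul_of_nonneg_left (eval_le_gn hs Q hl) (norm_nonneg _)
  · have hQ0 := right_ne_zero_of_mul h3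
    rw [← h4, ← h2, eval_of_Z0 hs hQ0 hz hl, gn_of_Z0 hs hQ0 hz]

omit [IsUltrametricDist K] [IsAlgClosed K] in
theorem co_cont (S : K[X]) (m : ℕ) : Continuous (it S m) := S.continuous.iterate m

/-- an orbit whose steps of length `m` tend to zero is captured -/
theorem Sys.co_lim (h : Sys T c L Xs R σ0) {i m : ℕ} (hm : 1 ≤ m)
    (ht : Tendsto (fun j => it T (i + (j + 1) * m) c - it T (i + j * m) c) atTop (𝓝 0)) :
    False := by
  have hc : CauchySeq fun j => it T (i + j * m) c :=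
    NonarchimedeanAddGroup.cauchySeq_of_tendsto_sub_nhds_zero ht
  have hs : ∀ j, it T (i + (j + 1) * m) c = it T m (it T (i + j * m) c) := fun j => by
    rw [← it_add]; congr 1; ring
  obtain ⟨q, hq⟩ : ∃ q, Tendsto (fun j => it T (i + j * m) c) atTop (𝓝 q) := by
    obtain ⟨g, hg, -⟩ := exists_itp T m
    have h1 : ∀ j, (g - X).eval (it T (i + j * m) c) =
        it T (i + (j + 1) * m) c - it T (i + j * m) c := fun j => by rw [eval_sub, hg, eval_X, hs]
    have h2 : g - X ≠ 0 := fun h0 => by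
      have h3 := h1 0
      rw [h0, eval_zero, eq_comm, sub_eq_zero] at h3
      have := h.inj _ _ h3
      omega
    have h3 : ∀ β : K, ∃ r, Tendsto (fun j => ‖it T (i + j * m) c - β‖) atTop (𝓝 r) := fun β =>
      cauchySeq_tendsto_of_complete
        ((uniformContinuous_norm.comp (uniformContinuous_id.sub uniformContinuous_const)).comp_cauchySeq hc)
    choose r hr using h3
    have h4 := (tendsto_multiset_prod (g - X).roots fun β _ => hr β).const_mul ‖(g - X).leadingCoeff‖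
    simp only [← norm_eval_prod, h1] at h4
    have h5 := tendsto_nhds_unique h4 ht.norm
    rw [norm_zero, mul_eq_zero, norm_eq_zero, leadingCoeff_eq_zero, Multiset.prod_eq_zero_iff,
      Multiset.mem_map] at h5
    obtain ⟨β, -, h6⟩ := h5.resolve_left h2
    exact ⟨β, tendsto_iff_norm_sub_tendsto_zero.2 (h6 ▸ hr β)⟩
  have hp : it T m q = q := by
    refine tendsto_nhds_unique (((co_cont T m).tendsto q).comp hq) ?_
    simpa only [Function.comp_def, ← hs] using hq.comp (tendsto_add_atTop_nat 1)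
  have hn : ∀ r, 0 < r → ∃ J, ∀ j ≥ J, ‖it T (i + j * m) c - q‖ ≤ r := fun r hr => by
    obtain ⟨J, hJ⟩ := Metric.tendsto_atTop.1 hq r hr
    exact ⟨J, fun j hj => by rw [← dist_eq_norm]; exact (hJ j hj).le⟩
  rcases le_or_gt ‖∏ n ∈ Finset.range m, T.derivative.eval (it T n q)‖ 1 with hρ | hρ
  · obtain ⟨r, hr, hM⟩ := cap_of_periodic T hp hρ
    obtain ⟨J, hJ⟩ := hn r hr
    exact h.ncap (Or.inr ⟨q, r, m, i + J * m, hr, hm, hM, mem_closedBall_iff_norm.2 (hJ J le_rfl)⟩)
  · obtain ⟨r, hr, hM⟩ := repel_of_periodic T hp hρ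
    obtain ⟨J, hJ⟩ := hn r hr
    have h1 : ∀ j, J ≤ j → ‖it T (i + J * m) c - q‖ ≤ ‖it T (i + j * m) c - q‖ := fun j hj => by
      induction j, hj using Nat.le_induction with
      | base => exact le_rfl
      | succ j hj ih => rw [hs]; exact ih.trans (hM _ (hJ j hj))
    have h2 : it T (i + J * m) c = q := by
      rw [← sub_eq_zero, ← norm_le_zero_iff]
      refine le_of_forall_pos_le_add fun ε hε => ?_
      obtain ⟨J', hJ'⟩ := hn ε hε
      simpa using (h1 _ (le_max_left J J')).trans (hJ' _ (le_max_right J J'))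
    have h3 := h.inj (i + (J + 1) * m) (i + J * m) (by rw [hs, h2, hp])
    rw [add_mul] at h3
    omega

theorem Sys.co_false (h : Sys T c L Xs R σ0) (hs : 0 < s) (hI : Iso Xs s) {l0 : K} (hl : ‖l0‖ ≤ s)
    {i m : ℕ} (hm : 1 ≤ m) (hp : (xi T c (i + m)).eval l0 = (xi T c i).eval l0) : False := by
  have hw := wt_pw hs.le
  have hxi : ∀ n k, xi T c (n + (k + 1)) = step T (xi T c (n + k)) := fun n k => rfl
  have hsh : ∀ n n', (xi T c n').eval l0 = (xi T c n).eval l0 →
      ∀ k, (xi T c (n' + k)).eval l0 = (xi T c (n + k)).eval l0 := fun n n' hn k => by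
    induction k with
    | zero => exact hn
    | succ k ih => rw [hxi, hxi, step_eval, step_eval, ih]
  have hne : ∀ n n', n' ≠ n → ∀ k, (xi T c (n' + k)).eval 0 ≠ (xi T c (n + k)).eval 0 :=
    fun n n' hn k h0 => by
      rw [xi_eval0, xi_eval0] at h0
      have := h.inj _ _ h0
      omega
  have hper : ∀ k j, (xi T c (i + k + j * m)).eval l0 = (xi T c (i + k)).eval l0 := fun k j => by
    induction j with
    | zero => simp
    | succ j ih =>
      rw [← ih, show i + k + (j + 1) * m = i + m + (k + j * m) by ring, hsh _ _ hp, add_assoc]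
  have hst := fun n n' (hn : n' ≠ n) (h0 : (xi T c n').eval l0 = (xi T c n).eval l0) k =>
    h.co_step hs hI hl (h.orb (n' + k)) (h.orb (n + k)) (hsh n n' h0 k) (hne n n' hn (k + 1))
  simp only [← hxi] at hst
  by_cases hcr : ∃ k, T.derivative.eval ((xi T c (i + k)).eval l0) = 0
  · obtain ⟨k0, hk0⟩ := hcr
    have hs1 := hst i (i + m) (by omega) hp
    have hmono : Monotone fun k => Z s (xi T c (i + m + k) - xi T c (i + k)) :=
      monotone_nat_of_le_succ fun k => by
        obtain ⟨z, h1, -⟩ := hs1 k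
        omega
    have hge : ∀ j, j ≤ Z s (xi T c (i + m + (k0 + j * m)) - xi T c (i + (k0 + j * m))) := by
      intro j
      induction j with
      | zero => exact Nat.zero_le _
      | succ j ih =>
        obtain ⟨z, h1, -, h3⟩ := hs1 (k0 + j * m)
        have hz : z ≠ 0 := fun hz => hne i (i + m) (by omega) (k0 + j * m + 1) (by
          have := h3 hz
          rw [← add_assoc i k0, hper, hk0, norm_zero, mul_zero] at this
          exact sub_eq_zero.1 (norm_le_zero_iff.1 this))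
        have := hmono (show k0 + j * m + 1 ≤ k0 + (j + 1) * m by rw [add_mul]; omega)
        simp only at this
        omega
    refine h.co_lim (i := i) hm (Metric.tendsto_atTop.2 fun ε hε => ?_)
    obtain ⟨M, hM⟩ := h.co_mac hs hI hε
    refine ⟨k0 + M + 1, fun j hj => ?_⟩
    rw [dist_zero_right, ← xi_eval0, ← xi_eval0, show i + (j + 1) * m = i + m + j * m by ring]
    by_contra! h1
    have h2 := hM _ (h.orb _) _ (h.orb _) h1
    have h3 := hmono (show k0 + (M + 1) * m ≤ j * m by nlinarith)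
    have h4 := hge (M + 1)
    simp only at h3
    omega
  push Not at hcr
  obtain ⟨Cc, hC⟩ := tay T R
  have hC1 := hC.one
  have hR := h.bd hw hI
  obtain ⟨P, hP⟩ : ∃ P : ℕ → ℝ, ∀ k, P k = ‖T.derivative.eval ((xi T c (i + k)).eval l0)‖ :=
    ⟨_, fun _ => rfl⟩
  have hP0 : ∀ k, 0 < P k := fun k => by rw [hP]; exact norm_pos_iff.2 (hcr k)
  have hPC : ∀ k, P k ≤ Cc := fun k => by rw [hP]; exact hC.pder ((hR _ (h.orb _)).eval_le hl)
  have hPp : ∀ k j, P (k + j * m) = P k := fun k j => by rw [hP, hP, ← add_assoc, hper]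
  obtain ⟨μ, hμ, hμP⟩ : ∃ μ, 0 < μ ∧ ∀ k, μ ≤ P k := by
    obtain ⟨k1, -, h1⟩ := (Finset.range m).exists_min_image P ⟨0, Finset.mem_range.2 hm⟩
    refine ⟨P k1, hP0 _, fun k => ?_⟩
    rw [← Nat.mod_add_div' k m, hPp]
    exact h1 _ (Finset.mem_range.2 (Nat.mod_lt _ hm))
  have hρ : ∏ k ∈ Finset.range m, P k ≤ 1 := by
    have := nr h.deg hs (fun j => hR _ (h.orb j)) hl hm (by rw [← xi_eval, ← xi_eval, hp])
    simpa only [norm_prod, ← xi_eval, ← hP] using this
  have hpr : ∀ k, ∏ n ∈ Finset.range k, P n ≤ Cc ^ m := fun k => by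
    induction k using Nat.strong_induction_on with
    | _ k ih =>
      rcases lt_or_ge k m with hk | hk
      · calc _ ≤ ∏ _n ∈ Finset.range k, Cc :=
              Finset.prod_le_prod (fun n _ => (hP0 n).le) fun n _ => hPC n
          _ = Cc ^ k := by simp
          _ ≤ Cc ^ m := pow_le_pow_right₀ hC1 hk.le
      · obtain ⟨k, rfl⟩ := Nat.exists_eq_add_of_le hk
        rw [Finset.prod_range_add]
        have h1 : ∀ n, P (m + n) = P n := fun n => by rw [← hPp n 1]; congr 1; ring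
        simp only [h1]
        have h2 := ih k (by omega)
        have h3 : 0 ≤ ∏ n ∈ Finset.range k, P n := Finset.prod_nonneg fun n _ => (hP0 n).le
        nlinarith
  have hB : 1 ≤ Cc / μ := (one_le_div hμ).2 ((hμP 0).trans (hPC 0))
  have hd : 0 < μ / (2 * Cc) := by positivity
  obtain ⟨M, hM⟩ := h.co_mac hs hI hd
  have hε : 0 < μ / (2 * Cc) / ((Cc / μ) ^ M * Cc ^ m) := by positivity
  obtain ⟨A, -, hA⟩ := h.net hε
  choose f hf hf' using fun j : ℕ => hA _ (h.orb (i + j * m))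
  obtain ⟨j, j', hj, hjj⟩ := Finite.exists_ne_map_eq_of_infinite fun j => (⟨f j, hf j⟩ : A)
  have hjj : f j = f j' := congrArg Subtype.val hjj
  have hn : i + j' * m ≠ i + j * m := fun h0 =>
    hj (Nat.eq_of_mul_eq_mul_right hm (Nat.add_left_cancel h0)).symm
  have h0 : (xi T c (i + j' * m)).eval l0 = (xi T c (i + j * m)).eval l0 :=
    (hper 0 j').trans (hper 0 j).symm
  have hs1 := hst _ _ hn h0
  have hPk : ∀ k, ‖T.derivative.eval ((xi T c (i + j * m + k)).eval l0)‖ = P k := fun k => by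
    rw [hP, add_right_comm, hper]
  simp only [hPk] at hs1
  obtain ⟨t, ht⟩ : ∃ t : ℕ → ℝ, ∀ k, t k =
      ‖(xi T c (i + j' * m + k)).eval 0 - (xi T c (i + j * m + k)).eval 0‖ := ⟨_, fun _ => rfl⟩
  obtain ⟨Y, hY⟩ : ∃ Y : ℕ → ℕ, ∀ k, Y k =
      Z s (xi T c (i + j' * m + k) - xi T c (i + j * m + k)) := ⟨_, fun _ => rfl⟩
  simp only [← ht, ← hY] at hs1
  have ht0 : ∀ k, 0 < t k := fun k => by
    rw [ht]; exact norm_pos_iff.2 (sub_ne_zero.2 (hne _ _ hn k))
  have hts : t 0 < μ / (2 * Cc) / ((Cc / μ) ^ M * Cc ^ m) := by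
    rw [ht, add_zero, add_zero, ← sub_sub_sub_cancel_right _ _ ((f j).eval 0)]
    exact nsub_lt (hjj ▸ hf' j') (hf' j)
  have hb : ∀ n, ‖(xi T c n).eval 0‖ ≤ R := fun n => h.bdd _ (h.orb n)
  have hup : ∀ k, t k ≤ t 0 * ((Cc / μ) ^ Y k * ∏ n ∈ Finset.range k, P n) := fun k => by
    induction k with
    | zero => simpa using le_mul_of_one_le_right (ht0 0).le (one_le_pow₀ hB)
    | succ k ih =>
      obtain ⟨z, h1, -, h3⟩ := hs1 k
      have h4 : t (k + 1) ≤ t k * ((Cc / μ) ^ z * P k) := by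
        rcases Nat.eq_zero_or_pos z with hz | hz
        · simpa [hz] using h3 hz
        · have h5 : t (k + 1) ≤ t k * Cc := by
            rw [ht, ht, hxi, hxi, step_eval0, step_eval0]; exact hC.plip (hb _) (hb _)
          refine h5.trans (mul_le_mul_of_nonneg_left ?_ (ht0 k).le)
          calc Cc = Cc / μ * μ := by field_simp
            _ ≤ _ := mul_le_mul (le_self_pow₀ hB hz.ne') (hμP k) hμ.le (by positivity)
      rw [h1, pow_add, Finset.prod_range_succ]
      have h6 := hP0 k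
      calc _ ≤ _ := h4
        _ ≤ _ := mul_le_mul_of_nonneg_right ih (by positivity)
        _ = _ := by ring
  have hesc : ∀ N k, Es T (μ / (2 * Cc)) N ((xi T c (i + j * m + k)).eval 0) (t k) →
      ∃ k', μ / (2 * Cc) ≤ t k' := fun N => by
    induction N with
    | zero => exact fun k hk => ⟨k, hk.zero⟩
    | succ N ih =>
      intro k hk
      by_cases h1 : μ / (2 * Cc) ≤ t k
      · exact ⟨k, h1⟩
      push Not at h1
      refine ih (k + 1) ?_
      obtain ⟨z, -, h2, -⟩ := hs1 k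
      have h3 : t k * Cc < μ := by
        rw [lt_div_iff₀ (by positivity)] at h1
        nlinarith [ht0 k]
      have h4 : t (k + 1) = ‖T.eval ((xi T c (i + j' * m + k)).eval 0) -
          T.eval ((xi T c (i + j * m + k)).eval 0)‖ := by
        rw [ht, hxi, hxi, step_eval0, step_eval0]
      rw [hxi, step_eval0]
      have htk := ht k
      have hx := hb (i + j * m + k)
      have hy := hb (i + j' * m + k)
      generalize (xi T c (i + j * m + k)).eval 0 = x at *
      generalize (xi T c (i + j' * m + k)).eval 0 = y at *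
      have h5 : μ ≤ ‖T.derivative.eval x‖ := by
        obtain ⟨e, he, h6⟩ := hC.ptwo hy hx
        rw [h6, norm_mul, ← htk] at h4
        have h7 : μ ≤ ‖T.derivative.eval x + (y - x) * e‖ :=
          le_of_mul_le_mul_left (by nlinarith [hμP k, ht0 k]) (ht0 k)
        by_contra! h8
        refine absurd h7 (not_le.2 (nadd_lt h8 ?_))
        rw [norm_mul, ← htk]
        nlinarith [ht0 k]
      have h9 : t (k + 1) = t k * ‖T.derivative.eval x‖ := by
        rw [h4, hC.scale hx hy (by rw [← htk]; linarith), htk]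
      refine hk.step h1 fun u hu => ?_
      have hu' : ‖u‖ ≤ R := by
        rw [← sub_add_cancel u x]
        exact nadd (hu.trans (htk ▸ nsub hy hx)) hx
      rw [hC.scale hx hu' (by nlinarith), h9]
      exact mul_le_mul_of_nonneg_right hu (norm_nonneg _)
  obtain ⟨N, hN⟩ := h.esc (h.orb (i + j * m)) (h.orb (i + j' * m)) (hne _ _ hn 0).symm hd
  obtain ⟨k, hk⟩ := hesc N 0 (by rw [ht, norm_sub_rev]; exact hN)
  have h1 : Y k ≤ M := by rw [hY]; exact hM _ (h.orb _) _ (h.orb _) (ht k ▸ hk)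
  rw [lt_div_iff₀ (by positivity)] at hts
  refine absurd (hk.trans ((hup k).trans (mul_le_mul_of_nonneg_left ?_ (ht0 0).le))) (not_le.2 hts)
  exact mul_le_mul (pow_le_pow_right₀ hB h1) (hpr k)
    (Finset.prod_nonneg fun n _ => (hP0 n).le) (by positivity)

theorem Sys.nocoll (h : Sys T c L Xs R σ0) {s : ℝ} (hs : 0 < s) (hI : Iso Xs s) :
    ∀ a ∈ Xs, ∀ b ∈ Xs, a.eval 0 ≠ b.eval 0 → Z s (a - b) = 0 := by
  intro a ha b hb hab
  have ht : 0 < ‖a.eval 0 - b.eval 0‖ := norm_pos_iff.2 (sub_ne_zero.2 hab)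
  obtain ⟨j, hj⟩ := h.approx a ha _ ht
  obtain ⟨j', hj'⟩ := h.approx b hb _ ht
  rw [← xi_eval0] at hj hj'
  rw [← co_near hs hI ha hb (h.orb j) (h.orb j') hj hj']
  rcases eq_or_ne j j' with rfl | hne
  · simp [Z]
  rw [Z_eq_zero_iff s (sub_ne_zero.2 fun h0 => hne (xi_inj h.deg c h0))]
  intro l hl h0
  rw [eval_sub, sub_eq_zero] at h0
  rcases lt_or_gt_of_ne hne with h1 | h1
  · obtain ⟨m, rfl⟩ := Nat.exists_eq_add_of_le h1.le
    exact h.co_false hs hI hl (i := j) (m := m) (by omega) h0.symm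
  · obtain ⟨m, rfl⟩ := Nat.exists_eq_add_of_le h1.le
    exact h.co_false hs hI hl (i := j') (m := m) (by omega) h0

end Pool.Agent.MP_28f8a1_an.W37
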