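import Pool.Agent.MP_28f8a1_an.W37.Start
import Pool.Agent.MP_28f8a1_an.W37.Coll
import Pool.Agent.MP_28f8a1_an.W37.Boot

/-! h37w F7: the core statement. -/

open Polynomial Metric Filter

namespace Pool.Agent.MP_28f8a1_an.W37

variable {K : Type*} [NontriviallyNormedField K] [IsUltrametricDist K] [IsAlgClosed K]

theorem core {T : K[X]} {L : Subfield K} {s0 : ℝ} (hd : 2 ≤ T.natDegree)
    (alt : (‖(2 : K)‖ = 1 ∧ ∀ z, T.derivative.eval z = 0 → T.derivative.derivative.eval z ≠ 0) ∨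
      (T.derivative ≠ 0 ∧ ∀ c, T.derivative.eval c = 0 → ¬ Captured T c →
        ∀ z, T.derivative.eval z = 0 → ∃ η : ℝ, 0 < η ∧ ∀ j, it T j c ≠ z → η ≤ ‖it T j c - z‖))
    (cpt : Dv L)
    (hTL : ∀ z ∈ L, T.eval z ∈ L) (critL : ∀ z, T.derivative.eval z = 0 → z ∈ L) (hs0 : 0 < s0)
    (hN : ∀ z, T.derivative.eval z = 0 → ¬ Captured T z →
      ∀ l : K, ‖l‖ ≤ s0 → ¬ Captured (T + C l) z) :
    ∀ z, T.derivative.eval z = 0 → Captured T z := by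
  intro c0 hc0
  by_contra hn
  obtain ⟨c, Xs, R, σ0, hS, hI⟩ := start hd alt cpt hTL critL hs0 hN hc0 hn
  have hcl : IsClosed {s : ℝ | s0 ≤ s ∧ Iso Xs s} := by
    have : {s : ℝ | s0 ≤ s ∧ Iso Xs s} = Set.Ici s0 ∩ ⋂ a ∈ Xs, ⋂ b ∈ Xs, ⋂ k : ℕ,
        {s : ℝ | ‖(a - b).coeff k‖ * s ^ k ≤ ‖a.eval 0 - b.eval 0‖} := by
      ext s; simp [Iso, Bd, pw]
    rw [this]
    refine isClosed_Ici.inter (isClosed_biInter fun a _ => isClosed_biInter fun b _ =>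
      isClosed_iInter fun k => isClosed_le (by fun_prop) continuous_const)
  have hbd : BddAbove {s : ℝ | s0 ≤ s ∧ Iso Xs s} := by
    refine ⟨‖(xi T c 1).eval 0 - (xi T c 0).eval 0‖, fun s hs => ?_⟩
    have := hs.2 _ (hS.orb 1) _ (hS.orb 0) 1
    simpa [xi, step, pw, coeff_C, coeff_X] using this
  have hmem := hcl.csSup_mem ⟨s0, le_rfl, hI⟩ hbd
  have hpos : 0 < sSup {s : ℝ | s0 ≤ s ∧ Iso Xs s} := hs0.trans_le hmem.1
  obtain ⟨s1, h1, h3⟩ := hS.extend hpos hmem.2 (hS.nocoll hpos hmem.2)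
  exact absurd (le_csSup hbd ⟨hmem.1.trans h1.le, h3⟩) (not_le.2 h1)

end Pool.Agent.MP_28f8a1_an.W37
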