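import Pool.Agent.MP_28f8a1_an.W37.Main

/-! h37w: the hypotheses of the density theorem hold for `C_p`, `p` odd. -/

namespace Pool.Agent.MP_28f8a1_an.W37

theorem cp_dense (p : ℕ) [Fact p.Prime] : Dense {x : PadicComplex p | IsAlgebraic ℚ_[p] x} := by
  have h : DenseRange ((↑) : PadicAlgCl p → PadicComplex p) :=
    UniformSpace.Completion.denseRange_coe
  refine h.mono ?_
  rintro _ ⟨x, rfl⟩
  exact (Algebra.IsAlgebraic.isAlgebraic (R := ℚ_[p]) x).algebraMap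

theorem cp_two (p : ℕ) [hp : Fact p.Prime] (h : p ≠ 2) : ‖(2 : PadicComplex p)‖ = 1 := by
  have h1 : (2 : PadicComplex p) = algebraMap ℚ_[p] (PadicComplex p) ((2 : ℕ) : ℚ_[p]) := by
    rw [map_natCast]; norm_num
  rw [h1, norm_algebraMap', Padic.norm_natCast_eq_one_iff]
  exact (Nat.coprime_primes hp.out Nat.prime_two).2 h

theorem cp_disc (p : ℕ) [hp : Fact p.Prime] : ∃ g : ℝ, 1 < g ∧ ∀ x : ℚ_[p], x ≠ 0 →
    ∃ m : ℤ, ‖algebraMap ℚ_[p] (PadicComplex p) x‖ = g ^ m :=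
  ⟨p, by exact_mod_cast hp.out.one_lt, fun x hx =>
    ⟨-x.valuation, by rw [norm_algebraMap', Padic.norm_eq_zpow_neg_valuation hx]⟩⟩

theorem cp_main (p : ℕ) [Fact p.Prime] (h : p ≠ 2) (T : Polynomial (PadicComplex p))
    (hd : 2 ≤ T.natDegree) (ε : ℝ) (hε : 0 < ε) :
    ∃ S : Polynomial (PadicComplex p), ∃ δ : ℝ, 0 < δ ∧ S.natDegree = T.natDegree ∧
      (∀ k, ‖S.coeff k - T.coeff k‖ < ε) ∧
      ∀ U : Polynomial (PadicComplex p), U.natDegree = T.natDegree →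
        (∀ k, ‖U.coeff k - S.coeff k‖ < δ) → ∀ c, U.derivative.eval c = 0 → Captured U c :=
  main ℚ_[p] (cp_disc p) (cp_dense p) (Or.inl (cp_two p h)) T hd ε hε

end Pool.Agent.MP_28f8a1_an.W37
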