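import Mathlib

/-! h37w: definitions shared by the rows. -/

open Polynomial Metric Filter

namespace Pool.Agent.MP_28f8a1_an.W37

variable {K : Type*} [NontriviallyNormedField K]

/-- submultiplicative weights -/
structure Wt (w : ℕ → ℝ) : Prop where
  zero : w 0 = 1
  nonneg : ∀ k, 0 ≤ w k
  sub : ∀ i j, w (i + j) ≤ w i * w j

/-- the weighted sup seminorm of `f` is at most `r` -/
def Bd (w : ℕ → ℝ) (f : K[X]) (r : ℝ) : Prop := ∀ k, ‖f.coeff k‖ * w k ≤ r

/-- the weights of the Gauss norm of radius `s` -/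
def pw (s : ℝ) : ℕ → ℝ := fun k => s ^ k

open Classical in
/-- number of roots in the closed disc of radius `s` -/
noncomputable def Z (s : ℝ) (f : K[X]) : ℕ := (f.roots.filter (fun a => ‖a‖ ≤ s)).card

/-- the Gauss norm of radius `s`, by the product formula -/
noncomputable def gn (s : ℝ) (f : K[X]) : ℝ :=
  ‖f.leadingCoeff‖ * (f.roots.map (fun a => max s ‖a‖)).prod

/-- the `n`-th iterate of the polynomial map -/
def it (S : K[X]) (n : ℕ) (z : K) : K := (fun y => S.eval y)^[n] z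

/-- the orbit of `c` escapes, or meets a closed disc mapped into itself by an iterate -/
def Captured (S : K[X]) (c : K) : Prop :=
  Tendsto (fun n : ℕ => ‖it S n c‖) atTop atTop ∨
    ∃ (b : K) (r : ℝ) (m i : ℕ), 0 < r ∧ 1 ≤ m ∧
      Set.MapsTo (it S m) (closedBall b r) (closedBall b r) ∧ it S i c ∈ closedBall b r

/-- one step in the family `T + l` -/
noncomputable def step (T a : K[X]) : K[X] := T.comp a + X

/-- the orbit of `c` under `T + l`, as a polynomial in `l` -/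
noncomputable def xi (T : K[X]) (c : K) : ℕ → K[X]
  | 0 => C c
  | j + 1 => step T (xi T c j)

/-- distances in the Gauss norm of radius `s` are the distances at `l = 0` -/
def Iso (Xs : Set K[X]) (s : ℝ) : Prop :=
  ∀ a ∈ Xs, ∀ b ∈ Xs, Bd (pw s) (a - b) ‖a.eval 0 - b.eval 0‖

/-- the disc of centre `x` and radius `t` spreads to size `d0` by time `n` -/
def Es (T : K[X]) (d0 : ℝ) (n : ℕ) (x : K) (t : ℝ) : Prop :=
  ∃ (z z' : K) (k : ℕ), k ≤ n ∧ ‖z - x‖ ≤ t ∧ ‖z' - x‖ ≤ t ∧ d0 ≤ ‖it T k z - it T k z'‖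

/-- a closed subfield with discrete value group -/
def Dv (L : Subfield K) : Prop :=
  IsClosed (L : Set K) ∧ ∃ g : ℝ, 1 < g ∧ ∀ x ∈ L, x ≠ 0 → ∃ m : ℤ, ‖x‖ = g ^ m

/-- what section 0 hands to sections 1 and 2 -/
structure Sys (T : K[X]) (c : K) (L : Subfield K) (Xs : Set K[X]) (R σ0 : ℝ) : Prop where
  deg : 2 ≤ T.natDegree
  alt : (‖(2 : K)‖ = 1 ∧ ∀ z, T.derivative.eval z = 0 → T.derivative.derivative.eval z ≠ 0) ∨
    (T.derivative ≠ 0 ∧
      ∀ a ∈ Xs, ∀ z, T.derivative.eval z = 0 → ‖a.eval 0 - z‖ < σ0 → a.eval 0 = z)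
  cpt : Dv L
  orb : ∀ j, xi T c j ∈ Xs
  inv : ∀ a ∈ Xs, step T a ∈ Xs
  memL : ∀ a ∈ Xs, a.eval 0 ∈ L
  bdd : ∀ a ∈ Xs, ‖a.eval 0‖ ≤ R
  approx : ∀ a ∈ Xs, ∀ η : ℝ, 0 < η → ∃ j, ‖it T j c - a.eval 0‖ < η
  inj : ∀ i j, it T i c = it T j c → i = j
  sig_pos : 0 < σ0
  crit : ∀ a ∈ Xs, ∀ z, T.derivative.eval z = 0 → ‖a.eval 0 - z‖ < σ0 → C z ∈ Xs
  ncap : ¬ Captured T c

theorem it_zero (S : K[X]) (z : K) : it S 0 z = z := rfl

theorem it_succ (S : K[X]) (n : ℕ) (z : K) : it S (n + 1) z = S.eval (it S n z) :=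
  Function.iterate_succ_apply' _ _ _

theorem it_succ' (S : K[X]) (n : ℕ) (z : K) : it S (n + 1) z = it S n (S.eval z) :=
  Function.iterate_succ_apply _ _ _

theorem it_add (S : K[X]) (m n : ℕ) (z : K) : it S (m + n) z = it S m (it S n z) :=
  Function.iterate_add_apply _ _ _ _

theorem step_eval (T a : K[X]) (l : K) : (step T a).eval l = (T + C l).eval (a.eval l) := by
  simp [step, eval_comp]

theorem step_eval0 (T a : K[X]) : (step T a).eval 0 = T.eval (a.eval 0) := by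
  simp [step, eval_comp]

theorem step_sub (T a b : K[X]) : step T a - step T b = T.comp a - T.comp b := by
  simp [step]

theorem xi_eval (T : K[X]) (c l : K) (j : ℕ) : (xi T c j).eval l = it (T + C l) j c := by
  induction j with
  | zero => simp [xi, it_zero]
  | succ j ih => rw [xi, step_eval, ih, it_succ]

theorem xi_eval0 (T : K[X]) (c : K) (j : ℕ) : (xi T c j).eval 0 = it T j c := by
  simpa using xi_eval T c 0 j

end Pool.Agent.MP_28f8a1_an.W37
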