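import Pool.Agent.MP_28f8a1_an.W37.Defs
import Pool.Agent.MP_28f8a1_an.H19N.Open

/-! h37w: reduction of the density theorem to the core statement (any characteristic). -/

set_option linter.unusedSectionVars false

open Polynomial Metric Filter

namespace Pool.Agent.MP_28f8a1_an.W37

open Pool.Agent.MP_28f8a1_an.H19 (gp gp_le gp_pos eval_le_gp sig sig_scale sig_centre eval_mem
  op_root op_small)

variable {K : Type*} [NontriviallyNormedField K] [IsUltrametricDist K] [IsAlgClosed K]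

/-- same degree and close coefficients -/
def Near (S : K[X]) (δ : ℝ) (U : K[X]) : Prop :=
  U.natDegree = S.natDegree ∧ ∀ k, ‖U.coeff k - S.coeff k‖ < δ

theorem Near.mono {S U : K[X]} {δ δ' : ℝ} (h : Near S δ U) (hδ : δ ≤ δ') : Near S δ' U :=
  ⟨h.1, fun k => (h.2 k).trans_le hδ⟩

theorem near_self (S : K[X]) {δ : ℝ} (hδ : 0 < δ) : Near S δ S := ⟨rfl, fun k => by simpa⟩

theorem r_tri (a b c : K) : ‖a - c‖ ≤ max ‖a - b‖ ‖b - c‖ := by
  have := IsUltrametricDist.norm_add_le_max (a - b) (b - c)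
  rwa [sub_add_sub_cancel] at this

theorem Near.trans {S U V : K[X]} {δ : ℝ} (h : Near S δ U) (h' : Near U δ V) : Near S δ V :=
  ⟨h'.1.trans h.1, fun k => (r_tri _ (U.coeff k) _).trans_lt (max_lt (h'.2 k) (h.2 k))⟩

theorem r_norm_eq {a b : K} (h : ‖a - b‖ < ‖b‖) : ‖a‖ = ‖b‖ := by
  have := IsUltrametricDist.norm_add_eq_max_of_norm_ne_norm (x := a - b) (y := b) h.ne
  rwa [sub_add_cancel, max_eq_right h.le] at this

theorem r_eval_le {P : K[X]} {d : ℕ} {δ R : ℝ} (hd : P.natDegree ≤ d) (h : ∀ k, ‖P.coeff k‖ ≤ δ)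
    (hR : 1 ≤ R) {w : K} (hw : ‖w‖ ≤ R) : ‖P.eval w‖ ≤ δ * R ^ d := by
  have hδ : 0 ≤ δ := (norm_nonneg _).trans (h 0)
  refine (eval_le_gp (x := 0) (t := R) (by linarith) (by rwa [sub_zero]) P).trans (gp_le fun i => ?_)
  rw [taylor_zero]
  by_cases hi : i ≤ d
  · gcongr; exact h _
  · rw [coeff_eq_zero_of_natDegree_lt (by omega), norm_zero, zero_mul]; positivity

theorem r_coeff_bd (S : K[X]) : ∃ M : ℝ, 0 < M ∧ ∀ k, ‖S.coeff k‖ ≤ M := by
  refine ⟨gp 0 1 S + 1, by have := H19.gp_nonneg 0 zero_le_one S; linarith, fun k => ?_⟩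
  have := H19.le_gp 0 zero_le_one S k
  rw [taylor_zero, one_pow, mul_one] at this
  linarith

/-- one step, uniformly on bounded sets -/
theorem r_step (S : K[X]) {R η : ℝ} (hR : 1 ≤ R) (hη : 0 < η) : ∃ δ : ℝ, 0 < δ ∧
    ∀ U, Near S δ U → ∀ z w, ‖z‖ ≤ R → ‖w - z‖ < δ → ‖U.eval w - S.eval z‖ < η := by
  have hR0 : 0 < R := by linarith
  have hs : 0 ≤ sig S 0 R := H19.gp_nonneg _ hR0.le _
  obtain ⟨δ, d0, d1, d2, d3⟩ : ∃ δ : ℝ, 0 < δ ∧ δ ≤ R ∧ δ * R ^ S.natDegree < η ∧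
      sig S 0 R * δ < η * R := by
    have h1 : ∀ᶠ δ in nhdsWithin (0 : ℝ) (Set.Ioi 0), 0 < δ ∧ δ ≤ R ∧ δ * R ^ S.natDegree < η ∧
        sig S 0 R * δ < η * R := by
      refine Eventually.and self_mem_nhdsWithin (Eventually.filter_mono nhdsWithin_le_nhds
        ((eventually_le_nhds hR0).and (Eventually.and ?_ ?_)))
      · have h2 : ContinuousAt (fun δ : ℝ => δ * R ^ S.natDegree) 0 := by fun_prop
        exact h2.eventually_lt continuousAt_const (by simpa using hη)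
      · have h2 : ContinuousAt (fun δ : ℝ => sig S 0 R * δ) 0 := by fun_prop
        exact h2.eventually_lt continuousAt_const (by simpa using mul_pos hη hR0)
    exact h1.exists
  refine ⟨δ, d0, fun U hU z w hz hw => (r_tri _ (S.eval w) _).trans_lt (max_lt ?_ ?_)⟩
  · have hw' : ‖w‖ ≤ R := by
      have := r_tri w z 0
      rw [sub_zero, sub_zero] at this
      exact this.trans (max_le (hw.le.trans d1) hz)
    rw [← eval_sub]
    exact (r_eval_le ((natDegree_sub_le _ _).trans (max_le hU.1.le le_rfl))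
      (fun k => by rw [coeff_sub]; exact (hU.2 k).le) hR hw').trans_lt d2
  · have h1 := eval_mem S d0 hw.le
    have h2 := sig_scale S z d0 d1
    rw [sig_centre (x := 0) (y := z) S hR0 (by rwa [sub_zero])] at h2
    refine h1.trans_lt (lt_of_mul_lt_mul_right (h2.trans_lt d3) hR0.le)

theorem r_iter (S : K[X]) (m : ℕ) : ∀ {R η : ℝ}, 1 ≤ R → 0 < η → ∃ δ : ℝ, 0 < δ ∧
    ∀ U, Near S δ U → ∀ z w, ‖z‖ ≤ R → ‖w - z‖ < δ → ‖it U m w - it S m z‖ < η := by
  induction m with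
  | zero => exact fun _ hη => ⟨_, hη, fun _ _ _ _ _ h => h⟩
  | succ m ih =>
    intro R η hR hη
    obtain ⟨M, M0, hM⟩ := r_coeff_bd S
    obtain ⟨δ1, h1, H1⟩ := ih (R := max 1 (M * R ^ S.natDegree)) (le_max_left _ _) hη
    obtain ⟨δ2, h2, H2⟩ := r_step S hR h1
    refine ⟨min δ1 δ2, lt_min h1 h2, fun U hU z w hz hw => ?_⟩
    rw [it_succ', it_succ']
    exact H1 U (hU.mono (min_le_left _ _)) _ _
      ((r_eval_le le_rfl hM hR hz).trans (le_max_right _ _))
      (H2 U (hU.mono (min_le_right _ _)) z w hz (hw.trans_le (min_le_right _ _)))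

/-- a locally uniform escape radius -/
theorem r_radius (S : K[X]) (hd : 2 ≤ S.natDegree) : ∃ δ ρ : ℝ, 0 < δ ∧ 1 ≤ ρ ∧
    ∀ U, Near S δ U → ∀ x, ρ ≤ ‖x‖ → 2 * ‖x‖ ≤ ‖U.eval x‖ := by
  have hS : S ≠ 0 := by rintro rfl; simp at hd
  have ha : 0 < ‖S.leadingCoeff‖ := norm_pos_iff.mpr (leadingCoeff_ne_zero.mpr hS)
  obtain ⟨M, M0, hM⟩ := r_coeff_bd S
  set a := ‖S.leadingCoeff‖ with ha'
  have haM : a ≤ M := hM _
  refine ⟨a, max 1 (max (2 / a) (2 * M / a)), ha, le_max_left _ _, fun U hU x hx => ?_⟩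
  have x1 : 1 ≤ ‖x‖ := (le_max_left _ _).trans hx
  have x2 : 2 ≤ ‖x‖ * a := (div_le_iff₀ ha).mp (((le_max_left _ _).trans (le_max_right _ _)).trans hx)
  have x3 : 2 * M ≤ ‖x‖ * a :=
    (div_le_iff₀ ha).mp (((le_max_right _ _).trans (le_max_right _ _)).trans hx)
  obtain ⟨n, hn⟩ : ∃ n, S.natDegree = n + 2 := ⟨S.natDegree - 2, by omega⟩
  have hl : ‖U.leadingCoeff‖ = a := by
    rw [leadingCoeff, hU.1]; exact r_norm_eq (hU.2 _)
  have hc : ∀ k, ‖U.eraseLead.coeff k‖ ≤ M := fun k => by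
    rw [eraseLead_coeff]
    split_ifs
    · rw [norm_zero]; exact M0.le
    · have := r_tri (U.coeff k) (S.coeff k) 0
      rw [sub_zero, sub_zero] at this
      exact this.trans (max_le ((hU.2 k).le.trans haM) (hM k))
  have h1 : ‖U.eraseLead.eval x‖ ≤ M * ‖x‖ ^ (n + 1) :=
    r_eval_le ((eraseLead_natDegree_le U).trans (by rw [hU.1, hn]; omega)) hc x1 le_rfl
  have h2 : U.eval x - U.leadingCoeff * x ^ (n + 2) = U.eraseLead.eval x := by
    nth_rewrite 1 [← eraseLead_add_C_mul_X_pow U]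
    rw [hU.1, hn]; simp
  have hp : 0 < ‖x‖ ^ (n + 1) := by positivity
  have h3 : ‖U.leadingCoeff * x ^ (n + 2)‖ = ‖x‖ * a * ‖x‖ ^ (n + 1) := by
    rw [norm_mul, norm_pow, hl]; ring
  have h4 : ‖U.eval x‖ = ‖x‖ * a * ‖x‖ ^ (n + 1) := by
    rw [← h3]
    refine r_norm_eq ?_
    rw [h2, h3]
    exact h1.trans_lt (mul_lt_mul_of_pos_right (by linarith) hp)
  have h5 : ‖x‖ ≤ ‖x‖ ^ (n + 1) := le_self_pow₀ x1 (by omega)
  rw [h4]
  exact mul_le_mul x2 h5 (norm_nonneg _) (by positivity)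

theorem r_escape {U : K[X]} {ρ : ℝ} (hρ : 1 ≤ ρ) (h : ∀ x, ρ ≤ ‖x‖ → 2 * ‖x‖ ≤ ‖U.eval x‖)
    {w : K} {n : ℕ} (hw : ρ ≤ ‖it U n w‖) : Tendsto (fun k : ℕ => ‖it U k w‖) atTop atTop := by
  have h1 : ∀ k : ℕ, 2 ^ k * ρ ≤ ‖it U (k + n) w‖ := fun k => by
    induction k with
    | zero => simpa using hw
    | succ k ih =>
      have h2 : ρ ≤ 2 ^ k * ρ := le_mul_of_one_le_left (by linarith) (one_le_pow₀ one_le_two)
      have h3 := h _ (h2.trans ih)
      rw [show k + 1 + n = (k + n) + 1 by ring, it_succ, pow_succ]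
      linarith
  rw [← tendsto_add_atTop_iff_nat n]
  exact tendsto_atTop_mono h1
    ((tendsto_pow_atTop_atTop_of_one_lt one_lt_two).atTop_mul_const (by linarith))

/-- capture is an open condition -/
theorem r_open (S : K[X]) (hd : 2 ≤ S.natDegree) {z : K} (h : Captured S z) : ∃ δ : ℝ, 0 < δ ∧
    ∀ U, Near S δ U → ∀ w, ‖w - z‖ < δ → Captured U w := by
  rcases h with h | ⟨b, r, m, i, hr, hm, hB, hi⟩
  · obtain ⟨δ1, ρ, h1, hρ, H1⟩ := r_radius S hd
    obtain ⟨n, hn⟩ := (h.eventually_ge_atTop ρ).exists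
    obtain ⟨δ2, h2, H2⟩ := r_iter S n (R := max 1 ‖z‖) (le_max_left _ _) one_pos
    refine ⟨min δ1 δ2, lt_min h1 h2, fun U hU w hw => Or.inl ?_⟩
    refine r_escape hρ (H1 U (hU.mono (min_le_left _ _))) (n := n) ?_
    have h3 := H2 U (hU.mono (min_le_right _ _)) z w (le_max_right _ _)
      (hw.trans_le (min_le_right _ _))
    rwa [r_norm_eq (h3.trans_le (hρ.trans hn))]
  · obtain ⟨δ1, h1, H1⟩ := r_iter S m (R := max 1 (max ‖b‖ r)) (le_max_left _ _) hr
    obtain ⟨δ2, h2, H2⟩ := r_iter S i (R := max 1 ‖z‖) (le_max_left _ _) hr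
    refine ⟨min δ1 δ2, lt_min h1 h2, fun U hU w hw => Or.inr ⟨b, r, m, i, hr, hm, ?_, ?_⟩⟩
    · intro y hy
      have hy' : ‖y - b‖ ≤ r := by rwa [mem_closedBall, dist_eq_norm] at hy
      have h3 : ‖y‖ ≤ max 1 (max ‖b‖ r) := by
        have := r_tri y b 0
        rw [sub_zero, sub_zero] at this
        exact this.trans ((max_le (hy'.trans (le_max_right _ _)) (le_max_left _ _)).trans
          (le_max_right _ _))
      have h4 := H1 U (hU.mono (min_le_left _ _)) y y h3 (by simpa using h1)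
      have h5 := hB hy
      rw [mem_closedBall, dist_eq_norm] at h5 ⊢
      exact (r_tri _ (it S m y) _).trans (max_le h4.le h5)
    · have h4 := H2 U (hU.mono (min_le_right _ _)) z w (le_max_right _ _)
        (hw.trans_le (min_le_right _ _))
      rw [mem_closedBall, dist_eq_norm] at hi ⊢
      exact (r_tri _ (it S i z) _).trans (max_le h4.le hi)

/-- the critical points of `U` with property `P` -/
def crs (P : K[X] → K → Prop) (U : K[X]) : Set K := {z | U.derivative.eval z = 0 ∧ P U z}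

/-- the numbers of critical points and of captured critical points are constant near `T` -/
def Stab (T : K[X]) (δ : ℝ) : Prop :=
  0 < δ ∧ ∀ U, Near T δ U → U.derivative ≠ 0 ∧
    (crs (fun _ _ => True) U).ncard = (crs (fun _ _ => True) T).ncard ∧
    (crs Captured U).ncard = (crs Captured T).ncard

/-- the core statement -/
def CoreW (K : Type*) [NontriviallyNormedField K] : Prop :=
  ∀ (T : K[X]) (L : Subfield K) (δ : ℝ), 2 ≤ T.natDegree →
    ((‖(2 : K)‖ = 1 ∧ ∀ z, T.derivative.eval z = 0 → T.derivative.derivative.eval z ≠ 0) ∨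
      (2 : K) = 0) →
    Dv L → (∀ k, T.coeff k ∈ L) →
    (∀ z, T.derivative.eval z = 0 → z ∈ L) → Stab T δ →
    ∀ c, T.derivative.eval c = 0 → Captured T c

open Classical in
theorem crs_sub (P : K[X] → K → Prop) {U : K[X]} (hU : U.derivative ≠ 0) :
    crs P U ⊆ (U.derivative.roots.toFinset : Set K) := fun z hz => by
  simpa [hU] using hz.1

theorem crs_finite (P : K[X] → K → Prop) {U : K[X]} (hU : U.derivative ≠ 0) : (crs P U).Finite :=
  (Finset.finite_toSet _).subset (crs_sub P hU)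

open Classical in
theorem crs_le (P : K[X] → K → Prop) {U : K[X]} (hU : U.derivative ≠ 0) :
    (crs P U).ncard ≤ U.natDegree := by
  refine (Set.ncard_le_ncard (crs_sub P hU)).trans ?_
  rw [Set.ncard_coe_finset]
  exact (Multiset.toFinset_card_le _).trans ((card_roots' _).trans
    ((natDegree_derivative_le U).trans (Nat.sub_le _ _)))

theorem r_fin {A : Set K} (hA : A.Finite) {Q : K → ℝ → Prop}
    (hQ : ∀ z δ δ', 0 < δ' → δ' ≤ δ → Q z δ → Q z δ') (h : ∀ z ∈ A, ∃ δ, 0 < δ ∧ Q z δ) :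
    ∃ δ, 0 < δ ∧ ∀ z ∈ A, Q z δ := by
  induction A, hA using Set.Finite.induction_on with
  | empty => exact ⟨1, one_pos, by simp⟩
  | insert _ _ ih =>
    obtain ⟨δ1, h1, H1⟩ := ih fun z hz => h z (Or.inr hz)
    obtain ⟨δ2, h2, H2⟩ := h _ (Or.inl rfl)
    refine ⟨min δ1 δ2, lt_min h1 h2, ?_⟩
    rintro z (rfl | hz)
    · exact hQ _ _ _ (lt_min h1 h2) (min_le_right _ _) H2
    · exact hQ _ _ _ (lt_min h1 h2) (min_le_left _ _) (H1 z hz)

/-- lower semicontinuity of the number of critical points with an open property -/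
theorem r_lsc (P : K[X] → K → Prop) (S : K[X]) (hS : S.derivative ≠ 0)
    (hP : ∀ z, P S z → ∃ δ : ℝ, 0 < δ ∧ ∀ U, Near S δ U → ∀ w, ‖w - z‖ < δ → P U w) :
    ∃ δ : ℝ, 0 < δ ∧ ∀ U, Near S δ U → U.derivative ≠ 0 → (crs P S).ncard ≤ (crs P U).ncard := by
  have hf := crs_finite P hS
  obtain ⟨δ1, h1, H1⟩ := r_fin hf (Q := fun z δ => ∀ U, Near S δ U → ∀ w, ‖w - z‖ < δ → P U w)
    (fun z δ δ' _ hδ h U hU w hw => h U (hU.mono hδ) w (hw.trans_le hδ)) fun z hz => hP z hz.2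
  obtain ⟨t1, h2, H2⟩ := r_fin hf (Q := fun z t => ∀ y ∈ crs P S, y ≠ z → t < ‖y - z‖)
    (fun z δ δ' _ hδ h y hy hyz => hδ.trans_lt (h y hy hyz)) fun z _ =>
      r_fin hf (Q := fun y t => y ≠ z → t < ‖y - z‖)
        (fun y δ δ' _ hδ h hyz => hδ.trans_lt (h hyz)) fun y _ => by
          by_cases e : y = z
          · exact ⟨1, one_pos, fun h => (h e).elim⟩
          · have := norm_pos_iff.mpr (sub_ne_zero.mpr e)
            exact ⟨‖y - z‖ / 2, by positivity, fun _ => by linarith⟩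
  set t := min (min t1 (δ1 / 2)) 1 with ht
  have t0 : 0 < t := lt_min (lt_min h2 (by linarith)) one_pos
  have ta : t ≤ t1 := (min_le_left _ _).trans (min_le_left _ _)
  have tb : t < δ1 := ((min_le_left _ _).trans (min_le_right _ _)).trans_lt (by linarith)
  obtain ⟨δ3, h3, H3⟩ := r_fin hf
    (Q := fun z δ => δ * (max 1 ‖z‖) ^ S.natDegree < gp z t S.derivative)
    (fun z δ δ' _ hδ h => lt_of_le_of_lt (by gcongr) h) fun z _ => by
      have h4 := gp_pos z t0 hS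
      have h5 : 0 < (max 1 ‖z‖) ^ S.natDegree := by positivity
      refine ⟨gp z t S.derivative / 2 / (max 1 ‖z‖) ^ S.natDegree, by positivity, ?_⟩
      rw [div_mul_cancel₀ _ h5.ne']; linarith
  refine ⟨min δ1 δ3, lt_min h1 h3, fun U hU hU' => ?_⟩
  have h4 : ∀ z ∈ crs P S, ∃ b, ‖b - z‖ ≤ t ∧ U.derivative.eval b = 0 := fun z hz =>
    op_root t0 hz.1 (by
      rw [← derivative_sub]
      exact (op_small (n := S.natDegree) (δ := δ3)
        ((natDegree_sub_le _ _).trans (max_le (hU.1.le.trans (Nat.le_succ _)) (Nat.le_succ _)))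
        (fun k => by rw [coeff_sub]; exact ((hU.2 k).trans_le (min_le_right _ _)).le)
        (le_max_left _ _) (le_max_right _ _) t0.le
        ((min_le_right _ _).trans (le_max_left _ _))).trans_lt (H3 z hz))
  choose! β b1 b2 using h4
  refine Set.ncard_le_ncard_of_injOn β (fun z hz => ⟨b2 z hz,
    H1 z hz U (hU.mono (min_le_left _ _)) _ ((b1 z hz).trans_lt tb)⟩) (fun y hy z hz e => ?_)
    (crs_finite P hU')
  by_contra hne
  have h5 := r_tri y (β y) z
  rw [norm_sub_rev y (β y)] at h5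
  exact (H2 z hz y hy hne).not_ge (h5.trans ((max_le (b1 y hy) (e ▸ b1 z hz)).trans ta))

section alg
variable {F : Type*} [Field F] [Algebra F K]

theorem r_val {g : ℝ} (hg : 1 < g) (hF : ∀ x : F, x ≠ 0 → ∃ m : ℤ, ‖algebraMap F K x‖ = g ^ m)
    {D : ℕ} {p : F[X]} (hp : p ≠ 0) (hD : p.natDegree ≤ D) {x : K} (hx : x ≠ 0)
    (h : aeval x p = 0) : ∃ m : ℤ, ‖x‖ ^ D.factorial = g ^ m := by
  have g0 : 0 < g := by linarith
  have x0 : 0 < ‖x‖ := norm_pos_iff.2 hx
  have h1 : ¬ Set.Pairwise (p.support : Set ℕ) fun i j =>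
      ‖algebraMap F K (p.coeff i) * x ^ i‖ ≠ ‖algebraMap F K (p.coeff j) * x ^ j‖ := fun h1 => by
    have hne := support_nonempty.2 hp
    have h2 := IsUltrametricDist.norm_sum_eq_sup'_of_pairwise_ne hne h1
    rw [aeval_def, eval₂_eq_sum, Polynomial.sum_def] at h
    rw [h, norm_zero] at h2
    obtain ⟨i, hi⟩ := hne
    have h3 := Finset.le_sup' (fun i => ‖algebraMap F K (p.coeff i) * x ^ i‖) hi
    rw [← h2, norm_le_zero_iff] at h3
    exact mul_ne_zero ((_root_.map_ne_zero _).2 (mem_support_iff.1 hi)) (pow_ne_zero _ hx) h3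
  have h2 : ∀ i ∈ p.support, ∀ j ∈ p.support, i < j →
      ‖algebraMap F K (p.coeff i) * x ^ i‖ = ‖algebraMap F K (p.coeff j) * x ^ j‖ →
      ∃ m : ℤ, ‖x‖ ^ D.factorial = g ^ m := fun i hi j hj hij e => by
    obtain ⟨a, ha⟩ := hF _ (mem_support_iff.1 hi)
    obtain ⟨b, hb⟩ := hF _ (mem_support_iff.1 hj)
    obtain ⟨k, rfl⟩ := Nat.exists_eq_add_of_lt hij
    obtain ⟨n, hn⟩ := Nat.dvd_factorial (Nat.succ_pos k)
      (show k + 1 ≤ D by have := le_natDegree_of_mem_supp _ hj; omega)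
    rw [norm_mul, norm_mul, norm_pow, norm_pow, ha, hb, add_assoc, pow_add] at e
    have h3 : ‖x‖ ^ (k + 1) = g ^ (a - b) := by
      rw [zpow_sub₀ g0.ne', eq_div_iff (by positivity)]
      exact mul_left_cancel₀ (pow_pos x0 i).ne' (by linarith)
    exact ⟨(a - b) * n, by rw [hn, pow_mul, h3, zpow_mul, zpow_natCast]⟩
  simp only [Set.Pairwise] at h1
  push Not at h1
  obtain ⟨i, hi, j, hj, hij, e⟩ := h1
  rcases lt_or_gt_of_ne hij with h3 | h3
  · exact h2 i hi j hj h3 e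
  · exact h2 j hj i hi h3 e.symm

theorem r_field (hF : ∃ g : ℝ, 1 < g ∧ ∀ x : F, x ≠ 0 → ∃ m : ℤ, ‖algebraMap F K x‖ = g ^ m)
    (A : Set K) (hA : A.Finite) (h : ∀ x ∈ A, IsAlgebraic F x) :
    ∃ L : Subfield K, A ⊆ L ∧ Dv L := by
  obtain ⟨g, hg, hF⟩ := hF
  have g0 : 0 < g := by linarith
  have : Finite A := hA
  have hfd := IntermediateField.finiteDimensional_adjoin (K := F) (S := A)
    fun x hx => (h x hx).isIntegral
  set E := IntermediateField.adjoin F A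
  set D := Module.finrank F E
  have D0 : D.factorial ≠ 0 := D.factorial_ne_zero
  refine ⟨E.toSubfield.topologicalClosure, (IntermediateField.subset_adjoin F A).trans
    E.toSubfield.le_topologicalClosure, Subfield.isClosed_topologicalClosure _,
    g ^ ((D.factorial : ℝ)⁻¹), Real.one_lt_rpow hg (by positivity), fun y hy y0 => ?_⟩
  obtain ⟨x, hx, hxy⟩ := Metric.mem_closure_iff.1 hy ‖y‖ (norm_pos_iff.2 y0)
  rw [dist_comm, dist_eq_norm] at hxy
  have e := r_norm_eq hxy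
  have x0 : x ≠ 0 := by rw [← norm_pos_iff, e]; exact norm_pos_iff.2 y0
  obtain ⟨m, hm⟩ := r_val hg hF (p := minpoly F (⟨x, hx⟩ : E)) (D := D)
    (minpoly.ne_zero (Algebra.IsIntegral.isIntegral _)) (minpoly.natDegree_le _) x0 (by
      have h1 := congrArg (algebraMap E K) (minpoly.aeval F (⟨x, hx⟩ : E))
      rwa [← aeval_algebraMap_apply, map_zero] at h1)
  refine ⟨m, (pow_left_inj₀ (norm_nonneg _) (by positivity) D0).1 ?_⟩
  rw [← e, hm, ← zpow_natCast, ← zpow_mul, mul_comm, zpow_mul, zpow_natCast,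
    Real.rpow_inv_natCast_pow g0.le D0]

theorem r_root_alg {P : K[X]} (hP : P ≠ 0) (h : ∀ k, IsAlgebraic F (P.coeff k)) {z : K}
    (hz : P.eval z = 0) : IsAlgebraic F z := by
  obtain ⟨Q, hQ⟩ : P ∈ lifts (algebraMap (algebraicClosure F K) K) :=
    (lifts_iff_coeff_lifts P).mpr fun k => ⟨⟨P.coeff k, mem_algebraicClosure_iff.mpr (h k)⟩, rfl⟩
  have hQ' : Q.map (algebraMap (algebraicClosure F K) K) = P := hQ
  have h1 : IsAlgebraic (algebraicClosure F K) z :=
    ⟨Q, by rintro rfl; exact hP (by simpa using hQ'.symm), by rw [← eval_map_algebraMap, hQ', hz]⟩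
  exact h1.restrictScalars F

theorem r_alg_near0 (hden : Dense {x : K | IsAlgebraic F x}) (S : K[X])
    (hd : 2 ≤ S.natDegree) {δ : ℝ} (hδ : 0 < δ) :
    ∃ T, Near S δ T ∧ ∀ k, IsAlgebraic F (T.coeff k) := by
  classical
  have hS : S ≠ 0 := by rintro rfl; simp at hd
  have ha : 0 < ‖S.leadingCoeff‖ := norm_pos_iff.mpr (leadingCoeff_ne_zero.mpr hS)
  have h1 : ∀ k, ∃ a, IsAlgebraic F a ∧ ‖a - S.coeff k‖ < min δ ‖S.leadingCoeff‖ := fun k => by
    obtain ⟨a, h3, h4⟩ := hden.exists_dist_lt (S.coeff k) (lt_min hδ ha)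
    exact ⟨a, h3, by rwa [dist_comm, dist_eq_norm] at h4⟩
  choose a a1 a2 using h1
  set T1 : K[X] := ∑ k ∈ Finset.range (S.natDegree + 1), monomial k (a k) with hT1
  have c1 : ∀ k, T1.coeff k = if k ≤ S.natDegree then a k else 0 := fun k => by
    simp [hT1, coeff_monomial]
  have n1 : Near S δ T1 := by
    refine ⟨natDegree_eq_of_le_of_coeff_ne_zero
      (natDegree_le_iff_coeff_eq_zero.mpr fun k hk => by rw [c1, if_neg (by omega)]) ?_, fun k => ?_⟩
    · rw [c1, if_pos le_rfl, ← norm_pos_iff, r_norm_eq ((a2 _).trans_le (min_le_right _ _))]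
      exact ha
    · rw [c1]
      split_ifs with hk
      · exact (a2 k).trans_le (min_le_left _ _)
      · rw [coeff_eq_zero_of_natDegree_lt (by omega)]; simpa
  have g1 : ∀ k, IsAlgebraic F (T1.coeff k) := fun k => by
    rw [c1]; split_ifs
    · exact a1 k
    · exact isAlgebraic_zero
  exact ⟨T1, n1, g1⟩

theorem r_alg_near (hden : Dense {x : K | IsAlgebraic F x}) (h2 : ‖(2 : K)‖ = 1) (S : K[X])
    (hd : 2 ≤ S.natDegree) {δ : ℝ} (hδ : 0 < δ) (h0 : δ ≤ ‖S.coeff 2‖) :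
    ∃ T, Near S δ T ∧ (∀ k, IsAlgebraic F (T.coeff k)) ∧
      ∀ z, T.derivative.eval z = 0 → T.derivative.derivative.eval z ≠ 0 := by
  classical
  obtain ⟨T1, n1, g1⟩ := r_alg_near0 hden S hd hδ
  have d2 : T1.derivative.derivative ≠ 0 := by
    intro e
    have h3 := congrArg (coeff · 0) e
    have h4 : ‖T1.coeff 2‖ = ‖S.coeff 2‖ := r_norm_eq ((n1.2 2).trans_le h0)
    have h5 : (2 : K) ≠ 0 := by intro e; rw [e, norm_zero] at h2; exact zero_ne_one h2
    simp only [coeff_derivative, coeff_zero, zero_add, Nat.cast_zero, mul_one, Nat.cast_one,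
      one_add_one_eq_two, mul_eq_zero, h5, or_false] at h3
    rw [h3, norm_zero] at h4
    linarith
  set B : Set K := (fun z => -T1.derivative.eval z) '' (T1.derivative.derivative.roots.toFinset : Set K)
  have hB : B.Finite := (Finset.finite_toSet _).image _
  obtain ⟨u, u1, u2⟩ : ∃ u ∈ {x : K | IsAlgebraic F x}, u ∈ ball (0 : K) δ ∩ Bᶜ := by
    refine hden.exists_mem_open (isOpen_ball.inter hB.isClosed.isOpen_compl) ?_
    have h3 : (ball (0 : K) δ).Infinite := infinite_of_mem_nhds 0 (ball_mem_nhds _ hδ)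
    exact (h3.sdiff hB).nonempty
  have u3 : ‖u‖ < δ := by simpa using u2.1
  have c2 : ∀ k, (T1 + C u * X).coeff k = T1.coeff k + if k = 1 then u else 0 := fun k => by
    rw [coeff_add, C_mul_X_eq_monomial, coeff_monomial]; simp [eq_comm]
  refine ⟨T1 + C u * X, n1.trans ⟨?_, fun k => ?_⟩, fun k => ?_, fun z hz e => u2.2 ⟨z, ?_, ?_⟩⟩
  · refine natDegree_add_eq_left_of_natDegree_lt ?_
    rw [n1.1]
    exact ((natDegree_C_mul_le _ _).trans natDegree_X_le).trans_lt (by omega)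
  · rw [c2, add_sub_cancel_left]
    split_ifs
    · exact u3
    · simpa
  · rw [c2]
    split_ifs
    · exact (g1 k).add u1
    · simpa using g1 k
  · simpa [d2] using e
  · have : T1.derivative.eval z + u = 0 := by simpa using hz
    exact neg_eq_of_add_eq_zero_right this

theorem main_of_coreW (hcore : CoreW K)
    (hF : ∃ g : ℝ, 1 < g ∧ ∀ x : F, x ≠ 0 → ∃ m : ℤ, ‖algebraMap F K x‖ = g ^ m) (hden : Dense {x : K | IsAlgebraic F x})
    (h2 : ‖(2 : K)‖ = 1 ∨ (2 : K) = 0) (T : K[X]) (hd : 2 ≤ T.natDegree) (ε : ℝ) (hε : 0 < ε) :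
    ∃ S : K[X], ∃ δ : ℝ, 0 < δ ∧ S.natDegree = T.natDegree ∧
      (∀ k, ‖S.coeff k - T.coeff k‖ < ε) ∧
      ∀ U : K[X], U.natDegree = T.natDegree → (∀ k, ‖U.coeff k - S.coeff k‖ < δ) →
        ∀ c, U.derivative.eval c = 0 → Captured U c := by
  obtain ⟨i, hi, h5, h6⟩ : ∃ i : ℕ, i ≤ 1 ∧ (i : K) + 1 ≠ 0 ∧
      ((‖(2 : K)‖ = 1 ∧ i + 1 = 2) ∨ (2 : K) = 0) := by
    rcases h2 with h2 | h2
    · refine ⟨1, le_rfl, fun e => ?_, Or.inl ⟨h2, rfl⟩⟩
      rw [Nat.cast_one, one_add_one_eq_two] at e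
      rw [e, norm_zero] at h2
      exact zero_ne_one h2
    · exact ⟨0, zero_le_one, by simp, Or.inr h2⟩
  obtain ⟨T0, n0, c0⟩ : ∃ T0, Near T ε T0 ∧ T0.coeff (i + 1) ≠ 0 := by
    by_cases e : T.coeff (i + 1) = 0
    · obtain ⟨u, u0, u1⟩ := NormedField.exists_norm_lt K hε
      have hd' : T.natDegree ≠ i + 1 := fun e' => by
        have : T ≠ 0 := by rintro rfl; simp at hd
        exact leadingCoeff_ne_zero.mpr this (by rw [leadingCoeff, e', e])
      refine ⟨T + monomial (i + 1) u, ⟨natDegree_add_eq_left_of_natDegree_lt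
        ((natDegree_monomial_le _).trans_lt (by omega)), fun k => ?_⟩, ?_⟩
      · rw [coeff_add, add_sub_cancel_left, coeff_monomial]
        split_ifs
        · exact u1
        · simpa
      · simpa [e] using norm_pos_iff.mp u0
    · exact ⟨T, near_self T hε, e⟩
  set e := min ε ‖T0.coeff (i + 1)‖ with he
  have e0 : 0 < e := lt_min hε (norm_pos_iff.mpr c0)
  have k2 : ∀ U, Near T0 e U → ‖U.coeff (i + 1)‖ = ‖T0.coeff (i + 1)‖ := fun U hU =>
    r_norm_eq ((hU.2 (i + 1)).trans_le (min_le_right _ _))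
  have k1 : ∀ U, Near T0 e U → U.derivative ≠ 0 := fun U hU e' => by
    have h3 := congrArg (coeff · i) e'
    simp only [coeff_derivative, coeff_zero, mul_eq_zero, h5, or_false] at h3
    have h4 := k2 U hU
    rw [h3, norm_zero] at h4
    exact c0 (norm_eq_zero.mp h4.symm)
  have kd : ∀ U, Near T0 e U → 2 ≤ U.natDegree := fun U hU => by rw [hU.1, n0.1]; exact hd
  set φ : K[X] → ℕ := fun U => (crs (fun _ _ => True) U).ncard + (crs Captured U).ncard with hφ
  obtain ⟨S, hS, hmax⟩ : ∃ S, Near T0 e S ∧ ∀ U, Near T0 e U → φ U ≤ φ S := by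
    have hb : BddAbove (φ '' {U | Near T0 e U}) := by
      refine ⟨T0.natDegree + T0.natDegree, ?_⟩
      rintro _ ⟨U, hU, rfl⟩
      exact add_le_add ((crs_le _ (k1 U hU)).trans hU.1.le) ((crs_le _ (k1 U hU)).trans hU.1.le)
    obtain ⟨S, hS, hS'⟩ := Nat.sSup_mem (s := φ '' {U | Near T0 e U}) ⟨_, T0, near_self T0 e0, rfl⟩ hb
    exact ⟨S, hS, fun U hU => hS' ▸ le_csSup hb ⟨U, hU, rfl⟩⟩
  obtain ⟨δ1, p1, H1⟩ := r_lsc (fun _ _ => True) S (k1 S hS)
    fun _ _ => ⟨1, one_pos, fun _ _ _ _ => trivial⟩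
  obtain ⟨δ2, p2, H2⟩ := r_lsc Captured S (k1 S hS) fun z hz => r_open S (kd S hS) hz
  set δ := min e (min δ1 δ2) with hδ
  have δ0 : 0 < δ := lt_min e0 (lt_min p1 p2)
  have m0 : ∀ U, Near S δ U → Near T0 e U := fun U hU => hS.trans (hU.mono (min_le_left _ _))
  have m1 : ∀ U, Near S δ U → (crs (fun _ _ => True) U).ncard = (crs (fun _ _ => True) S).ncard ∧
      (crs Captured U).ncard = (crs Captured S).ncard := fun U hU => by
    have a1 := H1 U (hU.mono ((min_le_right _ _).trans (min_le_left _ _))) (k1 U (m0 U hU))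
    have a2 := H2 U (hU.mono ((min_le_right _ _).trans (min_le_right _ _))) (k1 U (m0 U hU))
    have a3 := hmax U (m0 U hU)
    simp only [hφ] at a3
    omega
  obtain ⟨V, v1, v2, v3⟩ : ∃ V, Near S δ V ∧ (∀ k, IsAlgebraic F (V.coeff k)) ∧
      ((‖(2 : K)‖ = 1 ∧ ∀ z, V.derivative.eval z = 0 → V.derivative.derivative.eval z ≠ 0) ∨
        (2 : K) = 0) := by
    rcases h6 with ⟨h7, h8⟩ | h7
    · obtain ⟨V, v1, v2, v3⟩ := r_alg_near hden h7 S (kd S hS) δ0
        (by rw [← h8, k2 S hS]; exact (min_le_left _ _).trans (min_le_right _ _))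
      exact ⟨V, v1, v2, Or.inl ⟨h7, v3⟩⟩
    · obtain ⟨V, v1, v2⟩ := r_alg_near0 hden S (kd S hS) δ0
      exact ⟨V, v1, v2, Or.inr h7⟩
  have v0 := k1 V (m0 V v1)
  obtain ⟨L, l1, l2⟩ := r_field hF (Set.range V.coeff ∪ crs (fun _ _ => True) V)
    (V.finite_range_coeff.union (crs_finite _ v0)) (by
      rintro x (⟨k, rfl⟩ | hx)
      · exact v2 k
      · refine r_root_alg v0 (fun k => ?_) hx.1
        rw [coeff_derivative]
        exact (v2 _).mul (by exact_mod_cast isAlgebraic_natCast (k + 1)))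
  have hall : ∀ c, V.derivative.eval c = 0 → Captured V c :=
    hcore V L δ (kd V (m0 V v1)) v3 l2 (fun k => l1 (Or.inl ⟨k, rfl⟩))
      (fun z hz => l1 (Or.inr ⟨hz, trivial⟩)) ⟨δ0, fun U hU => ⟨k1 U (m0 U (v1.trans hU)),
        (m1 _ (v1.trans hU)).1.trans (m1 _ v1).1.symm,
        (m1 _ (v1.trans hU)).2.trans (m1 _ v1).2.symm⟩⟩
  have a5 : crs Captured V = crs (fun _ _ => True) V :=
    Set.ext fun z => ⟨fun h => ⟨h.1, trivial⟩, fun h => ⟨h.1, hall z h.1⟩⟩
  have nT : Near T ε S := n0.trans (hS.mono (min_le_left _ _))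
  refine ⟨S, δ, δ0, nT.1, nT.2, fun U hU hU' c hc => ?_⟩
  have a6 : Near S δ U := ⟨hU.trans nT.1.symm, hU'⟩
  have a7 : crs Captured U = crs (fun _ _ => True) U :=
    Set.eq_of_subset_of_ncard_le (fun z hz => ⟨hz.1, trivial⟩)
      (by rw [(m1 _ a6).1, (m1 _ a6).2, ← (m1 _ v1).1, ← (m1 _ v1).2, a5])
      (crs_finite _ (k1 U (m0 U a6)))
  have a8 : c ∈ crs (fun _ _ => True) U := ⟨hc, trivial⟩
  exact (a7 ▸ a8).2

end alg

end Pool.Agent.MP_28f8a1_an.W37
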