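import Pool.Agent.MP_28f8a1_an.W37.Start
import Pool.Agent.MP_28f8a1_an.W37.Red

/-! h37w: consequences of stability; in characteristic 2 no critical point is accumulated by a
critical orbit that is not captured. -/

open Polynomial Metric Filter

namespace Pool.Agent.MP_28f8a1_an.W37

variable {K : Type*} [NontriviallyNormedField K] [IsUltrametricDist K] [IsAlgClosed K]

variable {T : K[X]} {δ : ℝ}

theorem Stab.near (h : Stab T δ) {U : K[X]} (hU : Near T δ U) : Stab U δ :=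
  ⟨h.1, fun V hV => ⟨(h.2 V (hU.trans hV)).1, (h.2 V (hU.trans hV)).2.1.trans (h.2 U hU).2.1.symm,
    (h.2 V (hU.trans hV)).2.2.trans (h.2 U hU).2.2.symm⟩⟩

/-- captured critical points that stay critical are all the captured critical points -/
theorem Stab.cap (h : Stab T δ) (hd : 2 ≤ T.natDegree) : ∃ δ' : ℝ, 0 < δ' ∧ δ' ≤ δ ∧
    ∀ U, Near T δ' U → (∀ w, T.derivative.eval w = 0 → Captured T w → U.derivative.eval w = 0) →
      ∀ w, U.derivative.eval w = 0 → Captured U w → T.derivative.eval w = 0 ∧ Captured T w := by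
  have v0 := (h.2 T (near_self T h.1)).1
  obtain ⟨δ3, p3, H3⟩ := r_fin (crs_finite Captured v0)
    (Q := fun z δ => ∀ U, Near T δ U → Captured U z)
    (fun z δ δ' _ hδ h U hU => h U (hU.mono hδ)) fun z hz => by
      obtain ⟨η, a1, a2⟩ := r_open T hd hz.2
      exact ⟨η, a1, fun U hU => a2 U hU z (by simpa)⟩
  refine ⟨min δ δ3, lt_min h.1 p3, min_le_left _ _, fun U hU hw w h1 h2 => ?_⟩
  obtain ⟨a1, -, a2⟩ := h.2 U (hU.mono (min_le_left _ _))
  have a3 : crs Captured T = crs Captured U :=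
    Set.eq_of_subset_of_ncard_le
      (fun z hz => ⟨hw z hz.1 hz.2, H3 z hz _ (hU.mono (min_le_right _ _))⟩) a2.le
      (crs_finite _ a1)
  have a4 : w ∈ crs Captured U := ⟨h1, h2⟩
  rw [← a3] at a4
  exact a4

theorem Stab.line (h : Stab T δ) (hd : 2 ≤ T.natDegree) : ∃ s0 : ℝ, 0 < s0 ∧
    ∀ c, T.derivative.eval c = 0 → ¬ Captured T c → ∀ l, ‖l‖ ≤ s0 → ¬ Captured (T + C l) c := by
  obtain ⟨δ', d0, -, H⟩ := h.cap hd
  refine ⟨δ' / 2, by linarith, fun c hc hn l hl hcap => hn ?_⟩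
  have a0 : Near T δ' (T + C l) := by
    refine ⟨natDegree_add_C, fun k => ?_⟩
    rw [coeff_add, add_sub_cancel_left, coeff_C]
    split_ifs
    · linarith
    · simpa
  have a2 : (T + C l).derivative = T.derivative := by simp
  exact (H _ a0 (fun w hw _ => a2 ▸ hw) c (a2 ▸ hc) hcap).2

theorem Stab.inj (h : Stab T δ) (hd : 2 ≤ T.natDegree) {c : K} (hc : T.derivative.eval c = 0)
    (hn : ¬ Captured T c) {i j : ℕ} (e : it T i c = it T j c) : i = j := by
  obtain ⟨s0, hs0, hN⟩ := h.line hd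
  obtain ⟨R, -, hb⟩ := st_bd hd hs0 (hN c hc hn)
  exact st_nocoll hd hs0 (hN c hc hn) hb (l := 0) (by simpa using hs0.le) (by simpa using e)

theorem bd_of_lt {f : K[X]} {s R0 : ℝ} {u : K} (hs : 0 < s) (hu : R0 ≤ ‖u‖)
    (h : ∀ l : K, ‖l‖ ≤ s → ‖f.eval l‖ < R0) : Bd (pw s) f ‖u‖ := by
  intro k
  have h0 : ‖f.eval 0‖ ≤ ‖u‖ := ((h 0 (by simpa using hs.le)).trans_le hu).le
  rcases Nat.eq_zero_or_pos k with rfl | hk
  · simpa [pw, coeff_zero_eq_eval_zero] using h0
  by_contra hgt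
  obtain ⟨y, hy, hyu⟩ := cover hs f u hk ((nsub h0 le_rfl).trans (not_le.1 hgt).le)
  have := h y hy
  rw [hyu] at this
  linarith

omit [IsAlgClosed K] in
theorem quad_move {f : K[X]} {s R : ℝ} (hs : 0 < s) (h : Bd (pw s) f R) (h1 : f.coeff 1 = 0)
    {a : K} (ha : ‖a‖ ≤ s) : ‖f.eval a - f.eval 0‖ ≤ ‖a‖ ^ 2 * (R / s ^ 2) := by
  have h2 : Bd (pw s) f.divX.divX (R / s ^ 2) := fun k => by
    have := h (k + 1 + 1)
    rw [coeff_divX, coeff_divX, le_div_iff₀ (by positivity)]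
    simp only [pw] at this ⊢
    calc _ = ‖f.coeff (k + 1 + 1)‖ * s ^ (k + 1 + 1) := by ring
      _ ≤ R := this
  have h3 : f = f.divX.divX * X * X + C (f.coeff 0) := by
    have e1 := divX_mul_X_add f
    have e2 := divX_mul_X_add f.divX
    rw [coeff_divX, zero_add, h1, C_0, add_zero] at e2
    rw [e2, e1]
  have h4 : f.eval a - f.eval 0 = a ^ 2 * f.divX.divX.eval a := by
    have e1 := congrArg (eval a) h3
    simp only [eval_add, eval_mul, eval_X, eval_C] at e1
    rw [e1, coeff_zero_eq_eval_zero]; ring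
  rw [h4, norm_mul, norm_pow]
  exact mul_le_mul_of_nonneg_left (h2.eval_le ha) (by positivity)

/-- the orbit of `c + e a` under `T + a ^ 2 P`, as a polynomial in `a` -/
noncomputable def ze (T P : K[X]) (c e : K) : ℕ → K[X]
  | 0 => C c + C e * X
  | j + 1 => T.comp (ze T P c e j) + X ^ 2 * P.comp (ze T P c e j)

omit [IsUltrametricDist K] [IsAlgClosed K] in
theorem ze_eval (T P : K[X]) (c e a : K) (j : ℕ) :
    (ze T P c e j).eval a = it (T + C (a ^ 2) * P) j (c + e * a) := by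
  induction j with
  | zero => simp [ze, it_zero]
  | succ j ih => rw [it_succ, ← ih]; simp [ze, eval_comp]

omit [IsUltrametricDist K] [IsAlgClosed K] in
theorem ze_eval0 (T P : K[X]) (c e : K) (j : ℕ) : (ze T P c e j).eval 0 = it T j c := by
  simpa using ze_eval T P c e 0 j

omit [IsUltrametricDist K] [IsAlgClosed K] in
theorem ze_one {T : K[X]} (P : K[X]) {c : K} (e : K) (hc : T.derivative.eval c = 0) (j : ℕ) :
    (ze T P c e (j + 1)).coeff 1 = 0 := by
  have key : ∀ f : K[X], f.coeff 1 = f.derivative.eval 0 := fun f => by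
    rw [← coeff_zero_eq_eval_zero, coeff_derivative]; simp
  have h1 : ∀ j, (ze T P c e (j + 1)).coeff 1 =
      (ze T P c e j).coeff 1 * T.derivative.eval (it T j c) := fun j => by
    rw [key, key, ← ze_eval0 T P c e j]
    simp [ze, derivative_comp, eval_comp]
  induction j with
  | zero => rw [h1, it_zero, hc, mul_zero]
  | succ j ih => rw [h1, ih, zero_mul]

omit [IsUltrametricDist K] [IsAlgClosed K] in
theorem two_fac (h2 : (2 : K) = 0) {z : K} (hz : T.derivative.eval z = 0) :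
    ∃ S : K[X], T.derivative = (X - C z) ^ 2 * S ∧
      ∀ a : K, (T + C (a ^ 2) * (X * S)).derivative = (X - C (z + a)) ^ 2 * S := by
  have h0 : T.derivative.derivative = 0 := by
    ext k
    rw [coeff_derivative, coeff_derivative, coeff_zero]
    obtain ⟨m, hm⟩ := Nat.even_mul_succ_self (k + 1)
    have h1 : ((k + 1 : ℕ) : K) * ((k + 1 + 1 : ℕ) : K) = 0 := by
      rw [← Nat.cast_mul, hm, ← two_mul, Nat.cast_mul, Nat.cast_ofNat, h2, zero_mul]
    push_cast at h1 ⊢
    linear_combination (T.coeff (k + 1 + 1)) * h1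
  have h2' : (2 : K[X]) = 0 := by rw [← map_ofNat C 2, h2, C_0]
  obtain ⟨H, hH⟩ : X - C z ∣ T.derivative := dvd_iff_isRoot.2 hz
  have h1 : H + (X - C z) * H.derivative = 0 := by
    rw [hH] at h0
    simpa [derivative_mul] using h0
  obtain ⟨S, rfl⟩ : X - C z ∣ H := dvd_iff_isRoot.2 (by simpa using congrArg (eval z) h1)
  have h3 : S.derivative = 0 := by
    have h4 : (X - C z) ^ 2 * S.derivative = 0 := by
      simp only [derivative_mul, derivative_sub, derivative_X, derivative_C, sub_zero,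
        one_mul] at h1
      linear_combination h1 - (X - C z) * S * h2'
    exact (mul_eq_zero.1 h4).resolve_left (pow_ne_zero _ (X_sub_C_ne_zero z))
  refine ⟨S, by rw [hH]; ring, fun a => ?_⟩
  rw [derivative_add, derivative_C_mul, derivative_mul, derivative_X, h3, hH, C_add, C_pow]
  linear_combination (C a * (X - C z) * S) * h2'

theorem two_near (hd : 2 ≤ T.natDegree) (h0 : T.derivative ≠ 0) {z : K} {S : K[X]}
    (hS : T.derivative = (X - C z) ^ 2 * S) {η : ℝ} (hη : 0 < η) : ∃ s : ℝ, 0 < s ∧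
      ∀ a : K, ‖a‖ ≤ s → Near T η (T + C (a ^ 2) * (X * S)) := by
  have S0 : S ≠ 0 := by rintro rfl; simp [hS] at h0
  have h1 : (X * S).natDegree < T.natDegree := by
    have h2 := natDegree_derivative_le T
    rw [hS, natDegree_mul (pow_ne_zero _ (X_sub_C_ne_zero z)) S0, natDegree_pow,
      natDegree_X_sub_C] at h2
    rw [natDegree_X_mul S0]
    omega
  obtain ⟨M, M0, hM⟩ := r_coeff_bd (X * S)
  refine ⟨min 1 (η / M / 2), by positivity, fun a ha => ⟨?_, fun k => ?_⟩⟩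
  · exact natDegree_add_eq_left_of_natDegree_lt ((natDegree_C_mul_le _ _).trans_lt h1)
  · rw [coeff_add, add_sub_cancel_left, coeff_C_mul, norm_mul, norm_pow]
    have h2 : ‖a‖ ≤ 1 := ha.trans (min_le_left _ _)
    have h3 : ‖a‖ * M ≤ η / 2 := by
      have := mul_le_mul_of_nonneg_right (ha.trans (min_le_right _ _)) M0.le
      rwa [show η / M / 2 * M = η / 2 by field_simp] at this
    have h4 : ‖a‖ ^ 2 ≤ ‖a‖ := by nlinarith [norm_nonneg a]
    have h5 := mul_le_mul h4 (hM k) (norm_nonneg _) (norm_nonneg _)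
    linarith

theorem Stab.noacc (h : Stab T δ) (h2 : (2 : K) = 0) (hd : 2 ≤ T.natDegree) {c z : K}
    (hc : T.derivative.eval c = 0) (hn : ¬ Captured T c) (hz : T.derivative.eval z = 0) :
    ∃ η : ℝ, 0 < η ∧ ∀ j, it T j c ≠ z → η ≤ ‖it T j c - z‖ := by
  classical
  by_contra hcl
  push Not at hcl
  have v0 := (h.2 T (near_self T h.1)).1
  have hzn : ¬ Captured T z := fun hz' => by
    obtain ⟨η, e0, e1⟩ := r_open T hd hz'
    obtain ⟨j, -, hj⟩ := hcl η e0
    exact hn (e1 T (near_self T e0) _ hj).of_it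
  obtain ⟨S, hS, hS'⟩ := two_fac h2 hz
  have hw : ∀ w, T.derivative.eval w = 0 → w ≠ z → S.eval w = 0 := fun w h1 h3 => by
    rw [hS] at h1
    simpa [sub_eq_zero, h3] using h1
  have hU : ∀ a w : K, S.eval w = 0 → (T + C (a ^ 2) * (X * S)).derivative.eval w = 0 :=
    fun a w h1 => by rw [hS', eval_mul, h1, mul_zero]
  have hUz : ∀ a : K, (T + C (a ^ 2) * (X * S)).derivative.eval (z + a) = 0 := fun a => by
    rw [hS']; simp
  have hSz : S.eval z ≠ 0 := fun h0 => by
    obtain ⟨s, s0, hs⟩ := two_near hd v0 hS h.1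
    have h3 : (closedBall z s).Infinite := infinite_of_mem_nhds z (closedBall_mem_nhds _ s0)
    obtain ⟨y, y1, y2⟩ := h3.exists_notMem_finite (crs_finite (fun _ _ => True) v0)
    obtain ⟨a1, a2, -⟩ := h.2 _ (hs (y - z) (by rwa [mem_closedBall, dist_eq_norm] at y1))
    have a3 := Set.eq_of_subset_of_ncard_le (s := crs (fun _ _ => True) T)
      (t := crs (fun _ _ => True) (T + C ((y - z) ^ 2) * (X * S))) (fun w hw' => ⟨hU (y - z) w (by
        by_cases e : w = z
        · rw [e, h0]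
        · exact hw w hw'.1 e), trivial⟩) a2.le (crs_finite _ a1)
    rw [a3] at y2
    refine y2 ⟨?_, trivial⟩
    simpa using hUz (y - z)
  have hh : 0 < ‖S.eval z‖ := norm_pos_iff.2 hSz
  obtain ⟨δ1, ρ, d1, r1, hρ⟩ := r_radius T hd
  obtain ⟨δ2, d2, d3, hcap⟩ := h.cap hd
  obtain ⟨u, hu⟩ := NormedField.exists_lt_norm K ρ
  have hlt : ∀ U, Near T δ1 U → ∀ w, ¬ Captured U w → ∀ j, ‖it U j w‖ < ρ := fun U h1 w h3 j =>
    not_le.1 fun h4 => h3 (Or.inl (r_escape r1 (hρ U h1) h4))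
  have hx : ∀ j, ‖it T j c‖ ≤ ‖u‖ := fun j => ((hlt T (near_self T d1) c hn j).trans hu).le
  have hzR : ‖z‖ ≤ ‖u‖ := ((hlt T (near_self T d1) z hzn 0).trans hu).le
  have u1 : 1 ≤ ‖u‖ := r1.trans hu.le
  obtain ⟨C1, c1⟩ := tay T ‖u‖
  obtain ⟨C2, c2⟩ := tay S ‖u‖
  have hC1 : 0 < C1 := one_pos.trans_le c1.one
  have hC2 : 0 < C2 := one_pos.trans_le c2.one
  obtain ⟨s', s0', hs'⟩ := two_near hd v0 hS (lt_min d1 d2)
  set s := min s' (min 1 (‖S.eval z‖ / C2 / 2)) with hs
  have s0 : 0 < s := by positivity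
  have s1 : s ≤ 1 := (min_le_right _ _).trans (min_le_left _ _)
  have hSy : ∀ y, ‖y - z‖ ≤ s → ‖S.eval y‖ = ‖S.eval z‖ := fun y hy => by
    have h1 : ‖y‖ ≤ ‖u‖ := by simpa using nadd (hy.trans (s1.trans u1)) hzR
    have h3 := mul_le_mul_of_nonneg_right
      (hy.trans ((min_le_right _ _).trans (min_le_right _ _))) hC2.le
    rw [show ‖S.eval z‖ / C2 / 2 * C2 = ‖S.eval z‖ / 2 by field_simp] at h3
    exact neq_of_sub_lt (by linarith [c2.plip h1 hzR])
  set e : K := if c = z then 1 else 0 with he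
  have hN : ∀ a : K, ‖a‖ ≤ s → Near T (min δ1 δ2) (T + C (a ^ 2) * (X * S)) := fun a ha =>
    hs' a (ha.trans (min_le_left _ _))
  have hcr : ∀ a : K, (T + C (a ^ 2) * (X * S)).derivative.eval (c + e * a) = 0 := fun a => by
    rw [he]
    split_ifs with h1
    · rw [h1, one_mul]; exact hUz a
    · rw [zero_mul, add_zero]; exact hU a c (hw c hc h1)
  have hnc : ∀ a : K, ‖a‖ ≤ s → ¬ Captured (T + C (a ^ 2) * (X * S)) (c + e * a) :=
    fun a ha h1 => by
      obtain ⟨h3, h4⟩ := hcap _ ((hN a ha).mono (min_le_right _ _))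
        (fun w h5 h6 => hU a w (hw w h5 fun h7 => hzn (h7 ▸ h6))) _ (hcr a) h1
      rw [he] at h3 h4
      split_ifs at h3 h4 with h5
      · rw [h5, one_mul] at h3 h4
        have h6 := hSy (z + a) (by simpa using ha)
        rw [hw _ h3 fun h7 => hzn (h7 ▸ h4), norm_zero] at h6
        linarith
      · rw [zero_mul, add_zero] at h4
        exact hn h4
  have hb : ∀ j, Bd (pw s) (ze T (X * S) c e j) ‖u‖ := fun j => bd_of_lt s0 hu.le fun a ha => by
    rw [ze_eval]
    exact hlt _ ((hN a ha).mono (min_le_left _ _)) _ (hnc a ha) j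
  have hI : ∀ a : K, ‖a‖ ≤ s → ∀ i j, ‖(ze T (X * S) c e i).eval a - (ze T (X * S) c e j).eval a‖ =
      ‖it T i c - it T j c‖ := fun a ha i j => by
    by_cases hij : i = j
    · simp [hij]
    have h1 : ∀ l : K, ‖l‖ ≤ s → (ze T (X * S) c e i - ze T (X * S) c e j).eval l ≠ 0 :=
      fun l hl h3 => by
        rw [eval_sub, ze_eval, ze_eval, sub_eq_zero] at h3
        have h4 := (hN l hl).mono ((min_le_right _ _).trans d3)
        exact hij ((h.near h4).inj (h4.1 ▸ hd) (hcr l) (hnc l hl) h3)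
    have h3 : ze T (X * S) c e i - ze T (X * S) c e j ≠ 0 := fun h4 =>
      h1 0 (by simpa using s0.le) (by rw [h4, eval_zero])
    have := eval_of_Z0 s0 h3 ((Z_eq_zero_iff s h3).2 h1) ha
    rwa [eval_sub, eval_sub, ze_eval0, ze_eval0] at this
  obtain ⟨a, a0, a1⟩ := NormedField.exists_norm_lt K
    (show 0 < min s (s ^ 2 / ‖u‖) by positivity)
  have a2 : ‖a‖ ≤ s := (a1.trans_le (min_le_left _ _)).le
  have a3 : ‖a‖ ^ 2 * (‖u‖ / s ^ 2) < ‖a‖ := by
    have h1 := (lt_div_iff₀ (by linarith)).1 (a1.trans_le (min_le_right _ _))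
    have h3 : ‖a‖ * (‖u‖ / s ^ 2) < 1 := by
      rw [← mul_div_assoc, div_lt_one (by positivity)]; exact h1
    nlinarith
  set U := T + C (a ^ 2) * (X * S) with hUd
  obtain ⟨C3, c3⟩ := tay U ‖u‖
  have hC3 : 0 < C3 := one_pos.trans_le c3.one
  set μ := ‖a‖ ^ 2 * ‖S.eval z‖ with hμ
  have m0 : 0 < μ := by positivity
  obtain ⟨j, j0, hj⟩ := hcl (min ‖a‖ (min (μ / C1) (μ / C3))) (by positivity)
  rw [lt_min_iff, lt_min_iff, lt_div_iff₀ hC1, lt_div_iff₀ hC3] at hj
  have ht : 0 < ‖it T j c - z‖ := norm_pos_iff.2 (sub_ne_zero.2 j0)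
  obtain ⟨n, -, hn'⟩ := hcl _ ht
  have hnj : ‖it T n c - it T j c‖ = ‖it T j c - z‖ := by
    rw [← norm_neg]
    apply neq_of_sub_lt
    rw [show -(it T n c - it T j c) - (it T j c - z) = -(it T n c - z) by ring, norm_neg]
    exact hn'
  have h1 : (ze T (X * S) c e j).coeff 1 = 0 := by
    rcases j with _ | j
    · rw [it_zero] at j0
      simp [ze, he, j0]
    · exact ze_one _ _ hc j
  have h3 := (quad_move s0 (hb j) h1 a2).trans_lt a3
  rw [ze_eval0] at h3
  have hy : ∀ i, ‖(ze T (X * S) c e i).eval a‖ ≤ ‖u‖ := fun i => (hb i).eval_le a2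
  have h4 : ‖(ze T (X * S) c e j).eval a - z‖ < ‖a‖ := by simpa using nadd_lt h3 hj.1
  have h5 : ‖U.derivative.eval ((ze T (X * S) c e j).eval a)‖ = μ := by
    rw [hUd, hS', eval_mul, norm_mul, hSy _ (h4.le.trans a2), eval_pow, norm_pow, eval_sub, eval_X,
      eval_C, hμ, ← norm_neg, neq_of_sub_lt (b := a) (by
        rw [show -((ze T (X * S) c e j).eval a - (z + a)) - a =
          -((ze T (X * S) c e j).eval a - z) by ring, norm_neg]
        exact h4)]
  have h6 := c3.scale (hy j) (hy n) (by rw [hI a a2, hnj, h5]; exact hj.2.2)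
  have h7 : ∀ i, U.eval ((ze T (X * S) c e i).eval a) = (ze T (X * S) c e (i + 1)).eval a :=
    fun i => by rw [ze_eval, ze_eval, it_succ]
  rw [h7, h7, hI a a2, hI a a2, hnj, h5, it_succ, it_succ] at h6
  obtain ⟨e', he1, he2⟩ := c1.ptwo (hx n) (hx j)
  have h8 : ‖T.derivative.eval (it T j c) + (it T n c - it T j c) * e'‖ ≤ ‖it T j c - z‖ * C1 := by
    refine nadd ?_ ?_
    · have := c1.pdlip (hx j) hzR
      rwa [hz, sub_zero] at this
    · rw [norm_mul, hnj]; exact mul_le_mul_of_nonneg_left he1 ht.le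
  rw [he2, norm_mul, hnj] at h6
  have h9 := mul_left_cancel₀ ht.ne' h6
  linarith [hj.2.1]

end Pool.Agent.MP_28f8a1_an.W37
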