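import Pool.Agent.MP_28f8a1_an.W37.Core
import Pool.Agent.MP_28f8a1_an.W37.Two

/-! h37w: the density theorem. -/

open Polynomial Metric Filter

namespace Pool.Agent.MP_28f8a1_an.W37

variable {K : Type*} [NontriviallyNormedField K] [IsUltrametricDist K] [IsAlgClosed K]

theorem coreW : CoreW K := fun T L δ hd alt cpt hc crit hst => by
  obtain ⟨s0, hs0, hN⟩ := hst.line hd
  exact core hd (alt.imp id fun h2 => ⟨(hst.2 T (near_self T hst.1)).1,
    fun c h1 h3 z hz => hst.noacc h2 hd h1 h3 hz⟩) cpt (fun z hz => by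
    rw [eval_eq_sum_range]
    exact L.sum_mem fun k _ => L.mul_mem (hc k) (L.pow_mem hz k)) crit hs0 hN

theorem main (F : Type*) [Field F] [Algebra F K]
    (hF : ∃ g : ℝ, 1 < g ∧ ∀ x : F, x ≠ 0 → ∃ m : ℤ, ‖algebraMap F K x‖ = g ^ m)
    (hdense : Dense {x : K | IsAlgebraic F x}) (h2 : ‖(2 : K)‖ = 1 ∨ (2 : K) = 0)
    (T : K[X]) (hd : 2 ≤ T.natDegree) (ε : ℝ) (hε : 0 < ε) :
    ∃ S : K[X], ∃ δ : ℝ, 0 < δ ∧ S.natDegree = T.natDegree ∧
      (∀ k, ‖S.coeff k - T.coeff k‖ < ε) ∧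
      ∀ U : K[X], U.natDegree = T.natDegree → (∀ k, ‖U.coeff k - S.coeff k‖ < δ) →
        ∀ c, U.derivative.eval c = 0 → Captured U c :=
  main_of_coreW coreW hF hdense h2 T hd ε hε

end Pool.Agent.MP_28f8a1_an.W37
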