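import Pool.Agent.MP_28f8a1_an.W37.Cap

/-! h37w F4: section 0 of the paper. -/

open Polynomial Metric Filter

namespace Pool.Agent.MP_28f8a1_an.W37

variable {K : Type*} [NontriviallyNormedField K] [IsUltrametricDist K] [IsAlgClosed K]

theorem st_bd {T : K[X]} {s0 : ℝ} (hd : 2 ≤ T.natDegree) (hs0 : 0 < s0) {c : K}
    (hc : ∀ l : K, ‖l‖ ≤ s0 → ¬ Captured (T + C l) c) :
    ∃ R : ℝ, 0 < R ∧ ∀ j, Bd (pw s0) (xi T c j) R := by
  have hT : T ≠ 0 := by rintro rfl; simp at hd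
  have hB : ∀ k, ‖T.coeff k‖ ≤ gn 1 T := fun k => by simpa [pw] using bd_gn one_pos T k
  obtain ⟨R0, hR0, hesc⟩ := esc_radius (K := K) T.natDegree hd ‖T.leadingCoeff‖ (gn 1 T + s0)
    (norm_pos_iff.2 (leadingCoeff_ne_zero.2 hT))
  have hlt : ∀ j, ∀ l : K, ‖l‖ ≤ s0 → ‖(xi T c j).eval l‖ < R0 := by
    intro j l hl
    by_contra hge
    rw [xi_eval] at hge
    refine hc l hl (Or.inl (tendsto_of_double hR0 (hesc _ natDegree_add_C ?_ fun k => ?_)
      (not_lt.1 hge)))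
    · rw [leadingCoeff, leadingCoeff, natDegree_add_C, coeff_add, coeff_C, if_neg (by omega),
        add_zero]
    · rw [coeff_add]
      refine (norm_add_le _ _).trans (add_le_add (hB k) ?_)
      rw [coeff_C]
      split_ifs
      · exact hl
      · simpa using hs0.le
  obtain ⟨u, hu⟩ := NormedField.exists_lt_norm K R0
  refine ⟨‖u‖, hR0.trans hu, fun j k => ?_⟩
  have h0 : ‖(xi T c j).eval 0‖ ≤ ‖u‖ := ((hlt j 0 (by simpa using hs0.le)).trans hu).le
  rcases Nat.eq_zero_or_pos k with rfl | hk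
  · simpa [pw, coeff_zero_eq_eval_zero] using h0
  by_contra hgt
  obtain ⟨y, hy, hyu⟩ := cover hs0 (xi T c j) u hk ((nsub h0 le_rfl).trans (not_le.1 hgt).le)
  have := hlt j y hy
  rw [hyu] at this
  linarith

theorem st_nocoll {T : K[X]} {s0 R : ℝ} (hd : 2 ≤ T.natDegree) (hs0 : 0 < s0) {c : K}
    (hc : ∀ l : K, ‖l‖ ≤ s0 → ¬ Captured (T + C l) c) (hb : ∀ j, Bd (pw s0) (xi T c j) R)
    {l : K} (hl : ‖l‖ ≤ s0) {i j : ℕ} (h : it (T + C l) i c = it (T + C l) j c) : i = j := by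
  have key : ∀ i m : ℕ, 1 ≤ m → it (T + C l) (i + m) c ≠ it (T + C l) i c := by
    intro i m hm h
    have h1 := nr hd hs0 hb hl hm h
    have hq : it (T + C l) m (it (T + C l) i c) = it (T + C l) i c := by
      rw [← it_add, add_comm m i, h]
    obtain ⟨r, hr, hmap⟩ := cap_of_periodic (T + C l) hq (by
      have e : ∀ n, (T + C l).derivative.eval (it (T + C l) n (it (T + C l) i c)) =
          T.derivative.eval (it (T + C l) (i + n) c) := fun n => by
        rw [← it_add, add_comm n i]; simp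
      simpa only [e] using h1)
    exact hc l hl (Or.inr ⟨_, r, m, i, hr, hm, hmap, mem_closedBall_self hr.le⟩)
  rcases lt_trichotomy i j with hij | hij | hij
  · obtain ⟨m, rfl⟩ := Nat.exists_eq_add_of_lt hij
    exact absurd h.symm (key i (m + 1) (by omega))
  · exact hij
  · obtain ⟨m, rfl⟩ := Nat.exists_eq_add_of_lt hij
    exact absurd h (key j (m + 1) (by omega))

theorem st_iso {T : K[X]} {s0 R : ℝ} (hd : 2 ≤ T.natDegree) (hs0 : 0 < s0) {c : K}
    (hc : ∀ l : K, ‖l‖ ≤ s0 → ¬ Captured (T + C l) c) (hb : ∀ j, Bd (pw s0) (xi T c j) R)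
    (i j : ℕ) : Bd (pw s0) (xi T c i - xi T c j) ‖it T i c - it T j c‖ := by
  by_cases hij : i = j
  · subst hij; rw [sub_self]; exact bd_zero (norm_nonneg _)
  have hf : xi T c i - xi T c j ≠ 0 := fun h => hij (xi_inj hd c (sub_eq_zero.1 h))
  have hZ : Z s0 (xi T c i - xi T c j) = 0 := (Z_eq_zero_iff s0 hf).2 fun l hl h => by
    rw [eval_sub, xi_eval, xi_eval, sub_eq_zero] at h
    exact hij (st_nocoll hd hs0 hc hb hl h)
  have := bd_gn hs0 (xi T c i - xi T c j)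
  rwa [gn_of_Z0 hs0 hf hZ, eval_sub, xi_eval0, xi_eval0] at this

theorem st_x3 {T : K[X]} {s0 R : ℝ} (hs0 : 0 < s0) (hR : 0 < R) {c z : K}
    (hb : ∀ j, Bd (pw s0) (xi T c j) R)
    (hI : ∀ i j, Bd (pw s0) (xi T c i - xi T c j) ‖it T i c - it T j c‖)
    (hz : T.derivative.eval z = 0) (hz2 : T.derivative.derivative.eval z ≠ 0)
    (hne : ∀ j, it T j c ≠ z) (hcl : ∀ η : ℝ, 0 < η → ∃ j, ‖it T j c - z‖ < η)
    {η : ℝ} (hη : 0 < η) : ∃ j, Bd (pw s0) (C z - xi T c j) η := by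
  have hw := wt_pw hs0.le
  have hx : ∀ j, ‖it T j c‖ ≤ R := fun j => by simpa [xi_eval0] using (hb j).eval0 hw
  have hzR : ‖z‖ ≤ R := by
    obtain ⟨j, hj⟩ := hcl R hR
    have := nsub (hx j) hj.le
    simpa using this
  obtain ⟨H, hH⟩ : X - C z ∣ T.derivative := dvd_iff_isRoot.2 hz
  have hHz : H.eval z ≠ 0 := by
    intro h0
    apply hz2
    rw [hH, derivative_mul]
    simp [h0]
  have hh : 0 < ‖H.eval z‖ := norm_pos_iff.2 hHz
  obtain ⟨C1, h1⟩ := tay T R
  obtain ⟨C2, h2⟩ := tay H R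
  have hC1 : 0 < C1 := one_pos.trans_le h1.one
  have hC2 : 0 < C2 := one_pos.trans_le h2.one
  obtain ⟨j, hj⟩ := hcl (min (η * ‖H.eval z‖ / C1) (‖H.eval z‖ / C2)) (by positivity)
  rw [lt_min_iff, lt_div_iff₀ hC1, lt_div_iff₀ hC2] at hj
  have ht : 0 < ‖it T j c - z‖ := norm_pos_iff.2 (sub_ne_zero.2 (hne j))
  obtain ⟨n, hn⟩ := hcl _ ht
  have hnj : ‖it T n c - it T j c‖ = ‖it T j c - z‖ := by
    rw [← norm_neg]
    apply neq_of_sub_lt
    rw [show -(it T n c - it T j c) - (it T j c - z) = -(it T n c - z) by ring, norm_neg]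
    exact hn
  set t := ‖it T j c - z‖ with htd
  obtain ⟨E, hE, he⟩ := h1.two _ hw _ _ (hb n) (hb j)
  have hD : Bd (pw s0) (xi T c n - xi T c j) t := hnj ▸ hI n j
  have hgD : gn s0 (xi T c n - xi T c j) = t := by
    refine le_antisymm (hD.gn_le hs0) ?_
    have := eval_le_gn hs0 (xi T c n - xi T c j) (l := 0) (by simpa using hs0.le)
    rwa [eval_sub, xi_eval0, xi_eval0, hnj] at this
  have hD' : gn s0 (T.comp (xi T c n) - T.comp (xi T c j)) ≤ t * (t * C1) := by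
    have h3 := (hI (n + 1) (j + 1)).gn_le hs0
    rw [xi, xi, step_sub, it_succ, it_succ] at h3
    refine h3.trans ?_
    obtain ⟨e, he1, he2⟩ := h1.ptwo (hx n) (hx j)
    rw [he2, norm_mul, hnj]
    refine mul_le_mul_of_nonneg_left (nadd ?_ ?_) ht.le
    · have := h1.pdlip (hx j) hzR
      rwa [hz, sub_zero] at this
    · rw [norm_mul, hnj]; exact mul_le_mul_of_nonneg_left he1 ht.le
  rw [he, gn_mul, hgD] at hD'
  have hQ := (bd_gn hs0 _).mono (le_of_mul_le_mul_left hD' ht)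
  have hT' : Bd (pw s0) (T.derivative.comp (xi T c j)) (t * C1) := by
    have := hQ.sub hw (hD.mul hw hE)
    rwa [add_sub_cancel_right] at this
  have h4 := hT'.gn_le hs0
  rw [hH, mul_comp, gn_mul, sub_comp, X_comp, C_comp] at h4
  have h5 : ‖H.eval z‖ ≤ gn s0 (H.comp (xi T c j)) := by
    have := eval_le_gn hs0 (H.comp (xi T c j)) (l := 0) (by simpa using hs0.le)
    rw [eval_comp, xi_eval0] at this
    rwa [neq_of_sub_lt ((h2.plip (hx j) hzR).trans_lt hj.2)] at this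
  have h6 : gn s0 (xi T c j - C z) ≤ η := by
    have h7 := (mul_le_mul_of_nonneg_left h5 (gn_nonneg hs0 (xi T c j - C z))).trans h4
    exact le_of_mul_le_mul_right (h7.trans hj.1.le) hh
  refine ⟨j, ?_⟩
  have := ((bd_gn hs0 _).mono h6).neg
  rwa [neg_sub] at this

theorem st_min {α : Type*} (s : Finset α) (f : α → ℝ) (hf : ∀ a ∈ s, 0 < f a) :
    ∃ σ : ℝ, 0 < σ ∧ ∀ a ∈ s, σ ≤ f a := by
  rcases s.eq_empty_or_nonempty with rfl | hs
  · exact ⟨1, one_pos, by simp⟩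
  · obtain ⟨a, ha, h⟩ := s.exists_min_image f hs
    exact ⟨f a, hf a ha, h⟩

theorem start {T : K[X]} {L : Subfield K} {s0 : ℝ} (hd : 2 ≤ T.natDegree)
    (alt : (‖(2 : K)‖ = 1 ∧ ∀ z, T.derivative.eval z = 0 → T.derivative.derivative.eval z ≠ 0) ∨
      (T.derivative ≠ 0 ∧ ∀ c, T.derivative.eval c = 0 → ¬ Captured T c →
        ∀ z, T.derivative.eval z = 0 → ∃ η : ℝ, 0 < η ∧ ∀ j, it T j c ≠ z → η ≤ ‖it T j c - z‖))
    (cpt : Dv L)
    (hTL : ∀ z ∈ L, T.eval z ∈ L) (critL : ∀ z, T.derivative.eval z = 0 → z ∈ L) (hs0 : 0 < s0)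
    (hN : ∀ z, T.derivative.eval z = 0 → ¬ Captured T z →
      ∀ l : K, ‖l‖ ≤ s0 → ¬ Captured (T + C l) z)
    {c0 : K} (hc0 : T.derivative.eval c0 = 0) (hn : ¬ Captured T c0) :
    ∃ (c : K) (Xs : Set K[X]) (R σ0 : ℝ), Sys T c L Xs R σ0 ∧ Iso Xs s0 := by
  classical
  have hw := wt_pw hs0.le
  have hT' : T.derivative ≠ 0 := alt.elim (fun h1 h => h1.2 0 (by simp [h]) (by simp [h]))
    fun h1 => h1.1
  have hinj : ∀ c, T.derivative.eval c = 0 → ¬ Captured T c →
      ∀ i j, it T i c = it T j c → i = j := by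
    intro c hc hn i j h
    obtain ⟨R, -, hb⟩ := st_bd hd hs0 (hN c hc hn)
    exact st_nocoll hd hs0 (hN c hc hn) hb (l := 0) (by simpa using hs0.le) (by simpa using h)
  obtain ⟨c, hc, hn, hlast⟩ : ∃ c, T.derivative.eval c = 0 ∧ ¬ Captured T c ∧
      ∀ j, 1 ≤ j → T.derivative.eval (it T j c) ≠ 0 := by
    have hfin : {j : ℕ | T.derivative.eval (it T j c0) = 0}.Finite := by
      have h1 : {z : K | T.derivative.eval z = 0}.Finite := finite_setOfPred_isRoot hT'
      exact h1.preimage (f := fun j => it T j c0) fun i _ j _ h => hinj c0 hc0 hn i j h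
    obtain ⟨j0, hj0, hmax⟩ := hfin.toFinset.exists_max_image id
      ⟨0, by simpa [it_zero] using hc0⟩
    refine ⟨it T j0 c0, by simpa using hj0, fun h => hn h.of_it, fun j hj h => ?_⟩
    rw [← it_add] at h
    have := hmax (j + j0) (by simpa using h)
    simp only [id] at this
    omega
  obtain ⟨R, hR, hb⟩ := st_bd hd hs0 (hN c hc hn)
  have hI := st_iso hd hs0 (hN c hc hn) hb
  let Xs : Set K[X] := {a | ∀ η : ℝ, 0 < η → ∃ j, Bd (pw s0) (a - xi T c j) η}
  have horb : ∀ j, xi T c j ∈ Xs := fun j η hη => ⟨j, by rw [sub_self]; exact bd_zero hη.le⟩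
  have hbX : ∀ a ∈ Xs, Bd (pw s0) a R := by
    intro a ha
    obtain ⟨j, hj⟩ := ha R hR
    simpa using hj.add hw (hb j)
  have happ : ∀ a ∈ Xs, ∀ η : ℝ, 0 < η → ∃ j, ‖it T j c - a.eval 0‖ < η := by
    intro a ha η hη
    obtain ⟨j, hj⟩ := ha (η / 2) (by positivity)
    have := hj.neg.eval0 hw
    rw [neg_sub, eval_sub, xi_eval0] at this
    exact ⟨j, by linarith⟩
  have hL : ∀ j, it T j c ∈ L := by
    intro j
    induction j with
    | zero => exact critL c hc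
    | succ j ih => rw [it_succ]; exact hTL _ ih
  have hne : ∀ z, T.derivative.eval z = 0 → z ≠ c → ∀ j, it T j c ≠ z := fun z hz hzc j h => by
    rcases Nat.eq_zero_or_pos j with rfl | hj
    · exact hzc h.symm
    · exact hlast j hj (h ▸ hz)
  have hcr : ∀ z : K, ∃ η : ℝ, 0 < η ∧
      (T.derivative.eval z = 0 → C z ∈ Xs ∨ ∀ j, η ≤ ‖it T j c - z‖) ∧
      ((‖(2 : K)‖ = 1 ∧ ∀ z, T.derivative.eval z = 0 → T.derivative.derivative.eval z ≠ 0) ∨
        (T.derivative.eval z = 0 → ∀ j, it T j c ≠ z → η ≤ ‖it T j c - z‖)) := by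
    intro z
    rcases alt with simple | ⟨-, na⟩
    swap
    · by_cases hz : T.derivative.eval z = 0
      · obtain ⟨η, hη, h⟩ := na c hc hn z hz
        refine ⟨η, hη, fun _ => ?_, Or.inr fun _ => h⟩
        by_cases hzc : z = c
        · rw [hzc]; exact Or.inl (horb 0)
        · exact Or.inr fun j => h j (hne z hz hzc j)
      · exact ⟨1, one_pos, fun h => absurd h hz, Or.inr fun h => absurd h hz⟩
    by_cases hcl : ∀ η : ℝ, 0 < η → ∃ j, ‖it T j c - z‖ < η
    · refine ⟨1, one_pos, fun hz => Or.inl ?_, Or.inl simple⟩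
      by_cases hzc : z = c
      · rw [hzc]; exact horb 0
      intro η hη
      exact st_x3 hs0 hR hb hI hz (simple.2 z hz) (hne z hz hzc) hcl hη
    · push Not at hcl
      obtain ⟨η, hη, h⟩ := hcl
      exact ⟨η, hη, fun _ => Or.inr h, Or.inl simple⟩
  choose η hη hη' hη2 using hcr
  obtain ⟨σ0, hσ, hσ'⟩ := st_min T.derivative.roots.toFinset η fun z _ => hη z
  refine ⟨c, Xs, R, σ0, ⟨hd, ?_, cpt, horb, fun a ha ε hε => ?_, fun a ha => ?_,
    fun a ha => (hbX a ha).eval0 hw, happ, hinj c hc hn, hσ, fun a ha z hz hlt => ?_, hn⟩,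
    fun a ha b hb' k => ?_⟩
  · by_cases hA : ‖(2 : K)‖ = 1 ∧
        ∀ z, T.derivative.eval z = 0 → T.derivative.derivative.eval z ≠ 0
    · exact Or.inl hA
    refine Or.inr ⟨hT', fun a ha z hz hlt => ?_⟩
    by_contra h0
    have h1 := hσ' z (by simpa [hT'] using hz)
    have h2 : 0 < ‖a.eval 0 - z‖ := norm_pos_iff.2 (sub_ne_zero.2 h0)
    obtain ⟨j, hj⟩ := happ a ha _ h2
    have h3 : ‖it T j c - z‖ = ‖a.eval 0 - z‖ :=
      neq_of_sub_lt (by rwa [sub_sub_sub_cancel_right])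
    have h4 := (hη2 z).resolve_left hA hz j (sub_ne_zero.1 (norm_pos_iff.1 (h3 ▸ h2)))
    linarith
  · obtain ⟨C1, h1⟩ := tay T R
    have hC1 : 0 < C1 := one_pos.trans_le h1.one
    obtain ⟨j, hj⟩ := ha (ε / C1) (by positivity)
    obtain ⟨Q, hQ, e⟩ := h1.lip _ hw _ _ (hbX a ha) (hb j)
    refine ⟨j + 1, ?_⟩
    rw [xi, step_sub, e]
    exact (hj.mul hw hQ).mono (by rw [div_mul_cancel₀ _ hC1.ne'])
  · have : a.eval 0 ∈ closure (L : Set K) := by
      rw [Metric.mem_closure_iff]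
      intro ε hε
      obtain ⟨j, hj⟩ := happ a ha ε hε
      exact ⟨it T j c, hL j, by rwa [dist_comm, dist_eq_norm]⟩
    rwa [cpt.1.closure_eq] at this
  · rcases hη' z hz with h | h
    · exact h
    · have h1 := hσ' z (by simpa [hT'] using hz)
      obtain ⟨j, hj⟩ := happ a ha (η z) (hη z)
      have h2 := nadd_lt hj (hlt.trans_le h1)
      rw [sub_add_sub_cancel] at h2
      exact absurd (h j) (not_le.2 h2)
  · refine le_of_forall_pos_le_add fun ε hε => ?_
    obtain ⟨i, hi⟩ := ha ε hε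
    obtain ⟨j, hj⟩ := hb' ε hε
    have hn0 := norm_nonneg (a.eval 0 - b.eval 0)
    have e1 := hi.eval0 hw
    have e2 := hj.eval0 hw
    rw [eval_sub, xi_eval0] at e1 e2
    have e3 : ‖it T i c - it T j c‖ ≤ ‖a.eval 0 - b.eval 0‖ + ε := by
      rw [show it T i c - it T j c = (a.eval 0 - b.eval 0) - (a.eval 0 - it T i c) +
        (b.eval 0 - it T j c) by ring]
      exact nadd (nsub (by linarith) (by linarith)) (by linarith)
    have := (((hi.mono (r' := ‖a.eval 0 - b.eval 0‖ + ε) (by linarith)).add hw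
      ((hI i j).mono e3)).sub hw (hj.mono (by linarith))) k
    rwa [show a - xi T c i + (xi T c i - xi T c j) - (b - xi T c j) = a - b by ring] at this

end Pool.Agent.MP_28f8a1_an.W37
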