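import Pool.Agent.MP_28f8a1_an.W37.Bd

/-! h37w F2: Gauss norm by the product formula, Weierstrass degree. -/

open Polynomial Metric Filter

namespace Pool.Agent.MP_28f8a1_an.W37

variable {K : Type*} [NontriviallyNormedField K]

theorem gn_zero (s : ℝ) : gn s (0 : K[X]) = 0 := by simp [gn]

theorem prod_max_pos {s : ℝ} (hs : 0 < s) (m : Multiset K) :
    0 < (m.map (fun a => max s ‖a‖)).prod := by
  apply Multiset.prod_pos
  intro x hx
  obtain ⟨a, -, rfl⟩ := Multiset.mem_map.1 hx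
  exact lt_max_of_lt_left hs

theorem gn_nonneg {s : ℝ} (hs : 0 < s) (f : K[X]) : 0 ≤ gn s f :=
  mul_nonneg (norm_nonneg _) (prod_max_pos hs _).le

theorem gn_pos {s : ℝ} (hs : 0 < s) {f : K[X]} (hf : f ≠ 0) : 0 < gn s f :=
  mul_pos (norm_pos_iff.2 (leadingCoeff_ne_zero.2 hf)) (prod_max_pos hs _)

theorem gn_mul (s : ℝ) (f g : K[X]) : gn s (f * g) = gn s f * gn s g := by
  by_cases h : f * g = 0
  · rcases mul_eq_zero.1 h with h | h <;> simp [h, gn_zero]
  · simp only [gn, leadingCoeff_mul, norm_mul, roots_mul h, Multiset.map_add, Multiset.prod_add]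
    ring

theorem Z_mul (s : ℝ) {f g : K[X]} (h : f * g ≠ 0) : Z s (f * g) = Z s f + Z s g := by
  classical
  simp only [Z, roots_mul h, Multiset.filter_add, Multiset.card_add]

theorem Z_le_natDegree (s : ℝ) (f : K[X]) : Z s f ≤ f.natDegree := by
  classical
  exact (Multiset.card_le_card (Multiset.filter_le _ _)).trans (card_roots' f)

theorem Z_eq_zero_iff (s : ℝ) {f : K[X]} (hf : f ≠ 0) :
    Z s f = 0 ↔ ∀ l : K, ‖l‖ ≤ s → f.eval l ≠ 0 := by
  classical
  simp only [Z, Multiset.card_eq_zero, Multiset.filter_eq_nil, mem_roots hf, IsRoot.def]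
  exact ⟨fun h l hl h0 => h l h0 hl, fun h l h0 hl => h l hl h0⟩

theorem le_Z_of_pow_dvd {s : ℝ} {f : K[X]} (hf : f ≠ 0) {l : K} (hl : ‖l‖ ≤ s) {k : ℕ}
    (h : (X - C l) ^ k ∣ f) : k ≤ Z s f := by
  classical
  obtain ⟨g, rfl⟩ := h
  rw [Z_mul s hf]
  refine le_trans ?_ (Nat.le_add_right _ _)
  simp only [Z, roots_pow, roots_X_sub_C]
  rw [Multiset.filter_eq_self.2]
  · simp
  · intro a ha
    have := Multiset.mem_of_mem_nsmul ha
    rw [Multiset.mem_singleton.1 this]; exact hl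

variable [IsUltrametricDist K]

open Classical in
theorem wei_prod {s : ℝ} (hs : 0 < s) (m : Multiset K) :
    Bd (pw s) (m.map (fun a => X - C a)).prod (m.map (fun a => max s ‖a‖)).prod ∧
    ‖(m.map (fun a => X - C a)).prod.coeff (m.filter (fun a => ‖a‖ ≤ s)).card‖ *
      s ^ (m.filter (fun a => ‖a‖ ≤ s)).card = (m.map (fun a => max s ‖a‖)).prod ∧
    ∀ k, (m.filter (fun a => ‖a‖ ≤ s)).card < k →
      ‖(m.map (fun a => X - C a)).prod.coeff k‖ * s ^ k < (m.map (fun a => max s ‖a‖)).prod := by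
  induction m using Multiset.induction_on with
  | empty =>
    refine ⟨?_, by simp, fun k hk => ?_⟩
    · simpa using bd_C (wt_pw hs.le) (a := (1 : K)) (r := 1) (by simp)
    · have : k ≠ 0 := by simpa [Nat.pos_iff_ne_zero] using hk
      simp [coeff_one, this]
  | cons a m ih =>
    obtain ⟨h1, h2, h3⟩ := ih
    have hG := prod_max_pos hs m
    simp only [Multiset.map_cons, Multiset.prod_cons]
    set P := (m.map (fun a => X - C a)).prod with hP
    set G := (m.map (fun a => max s ‖a‖)).prod with hGd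
    set z := (m.filter (fun a => ‖a‖ ≤ s)).card with hz
    have hw := wt_pw hs.le
    have hlin : Bd (pw s) (X - C a : K[X]) (max s ‖a‖) := by
      refine Bd.sub hw (fun k => ?_) (bd_C hw (le_max_right _ _))
      rw [coeff_X]
      split_ifs with h
      · subst h; simp [pw]
      · simp
    have hc0 : ((X - C a) * P).coeff 0 = -(a * P.coeff 0) := by simp [sub_mul]
    have hc : ∀ k, ((X - C a) * P).coeff (k + 1) = P.coeff k - a * P.coeff (k + 1) := by
      intro k; simp [sub_mul, coeff_X_mul]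
    have hb : ∀ k, ‖P.coeff k‖ * s ^ k ≤ G := h1
    have hsp : ∀ k : ℕ, 0 < s ^ k := fun k => pow_pos hs k
    refine ⟨hlin.mul hw h1, ?_⟩
    by_cases ha : ‖a‖ ≤ s
    · rw [Multiset.filter_cons_of_pos _ (by simpa using ha), Multiset.card_cons, ← hz,
        max_eq_left ha]
      have key : ∀ k, z < k → ‖a * P.coeff k‖ * s ^ k < s * G := by
        intro k hk
        rw [norm_mul, mul_assoc]
        exact (mul_le_mul_of_nonneg_right ha (mul_nonneg (norm_nonneg _) (hsp k).le)).trans_lt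
          (mul_lt_mul_of_pos_left (h3 k hk) hs)
      constructor
      · rw [hc]
        have h4 : ‖a * P.coeff (z + 1)‖ < ‖P.coeff z‖ := by
          have := key (z + 1) (Nat.lt_succ_self z)
          rw [← h2] at this
          refine lt_of_mul_lt_mul_right (a := s ^ (z + 1)) ?_ (hsp _).le
          calc _ < s * (‖P.coeff z‖ * s ^ z) := this
            _ = _ := by ring
        rw [neq_of_sub_lt (a := P.coeff z - a * P.coeff (z + 1)) (b := P.coeff z) (by simpa using h4),
          ← h2]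
        ring
      · intro k hk
        obtain ⟨k, rfl⟩ : ∃ j, k = j + 1 := ⟨k - 1, by omega⟩
        rw [hc, ← lt_div_iff₀ (hsp _)]
        apply nsub_lt
        · rw [lt_div_iff₀ (hsp _)]
          have := mul_lt_mul_of_pos_left (h3 k (by omega)) hs
          calc _ = s * (‖P.coeff k‖ * s ^ k) := by ring
            _ < _ := this
        · rw [lt_div_iff₀ (hsp _)]; exact key _ (by omega)
    · have ha' : s < ‖a‖ := not_le.1 ha
      rw [Multiset.filter_cons_of_neg _ (by simpa using ha), ← hz, max_eq_right ha'.le]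
      have key : ∀ k, ‖P.coeff k‖ * s ^ (k + 1) < ‖a‖ * G := by
        intro k
        calc _ = s * (‖P.coeff k‖ * s ^ k) := by ring
          _ ≤ s * G := mul_le_mul_of_nonneg_left (hb k) hs.le
          _ < _ := mul_lt_mul_of_pos_right ha' hG
      constructor
      · rcases hz0 : z with _ | j
        · rw [hz0] at h2
          rw [hc0, norm_neg, norm_mul, mul_assoc, h2]
        · rw [hz0] at h2
          rw [hc]
          have h4 : ‖P.coeff j‖ < ‖a * P.coeff (j + 1)‖ := by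
            refine lt_of_mul_lt_mul_right (a := s ^ (j + 1)) ?_ (hsp _).le
            rw [norm_mul, mul_assoc, h2]; exact key j
          have h5 : ‖P.coeff j - a * P.coeff (j + 1)‖ = ‖a * P.coeff (j + 1)‖ := by
            rw [norm_sub_rev]
            exact neq_of_sub_lt (by simpa using h4)
          rw [h5, norm_mul, mul_assoc, h2]
      · intro k hk
        obtain ⟨k, rfl⟩ : ∃ j, k = j + 1 := ⟨k - 1, by omega⟩
        rw [hc, ← lt_div_iff₀ (hsp _)]
        apply nsub_lt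
        · rw [lt_div_iff₀ (hsp _)]; exact key k
        · rw [lt_div_iff₀ (hsp _), norm_mul, mul_assoc]
          exact mul_lt_mul_of_pos_left (h3 _ hk) (hs.trans ha')

variable [IsAlgClosed K]

theorem wei {s : ℝ} (hs : 0 < s) {f : K[X]} (hf : f ≠ 0) :
    Bd (pw s) f (gn s f) ∧ ‖f.coeff (Z s f)‖ * s ^ (Z s f) = gn s f ∧
      ∀ k, Z s f < k → ‖f.coeff k‖ * s ^ k < gn s f := by
  obtain ⟨h1, h2, h3⟩ := wei_prod hs f.roots
  have he : C f.leadingCoeff * (f.roots.map (fun a => X - C a)).prod = f :=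
    C_leadingCoeff_mul_prod_multiset_X_sub_C (IsAlgClosed.card_roots_eq_natDegree)
  have hl : 0 < ‖f.leadingCoeff‖ := norm_pos_iff.2 (leadingCoeff_ne_zero.2 hf)
  have hc : ∀ k, f.coeff k = f.leadingCoeff * (f.roots.map (fun a => X - C a)).prod.coeff k := by
    intro k
    conv_lhs => rw [← he, coeff_C_mul]
  refine ⟨?_, ?_, fun k hk => ?_⟩
  · have := h1.C_mul (wt_pw hs.le) f.leadingCoeff
    rwa [he] at this
  · rw [hc, norm_mul, mul_assoc, gn, ← h2]; rfl
  · rw [hc, norm_mul, mul_assoc, gn]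
    exact mul_lt_mul_of_pos_left (h3 k hk) hl

theorem bd_gn {s : ℝ} (hs : 0 < s) (f : K[X]) : Bd (pw s) f (gn s f) := by
  by_cases hf : f = 0
  · subst hf; exact bd_zero (gn_nonneg hs _)
  · exact (wei hs hf).1

theorem Bd.gn_le {s : ℝ} (hs : 0 < s) {f : K[X]} {r : ℝ} (h : Bd (pw s) f r) : gn s f ≤ r := by
  by_cases hf : f = 0
  · subst hf; rw [gn_zero]; exact h.nonneg (wt_pw hs.le)
  · rw [← (wei hs hf).2.1]; exact h _

theorem eval_le_gn {s : ℝ} (hs : 0 < s) (f : K[X]) {l : K} (hl : ‖l‖ ≤ s) : ‖f.eval l‖ ≤ gn s f :=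
  (bd_gn hs f).eval_le hl

theorem gn_eq_of_bd {s : ℝ} (hs : 0 < s) {f : K[X]} (h : Bd (pw s) f ‖f.eval 0‖) :
    gn s f = ‖f.eval 0‖ :=
  le_antisymm (h.gn_le hs) (eval_le_gn hs f (by simpa using hs.le))

/-- Rouché -/
theorem Z_eq_of_close {s : ℝ} (hs : 0 < s) {f g : K[X]} {r : ℝ} (h : Bd (pw s) (f - g) r)
    (hr : r < gn s g) : Z s f = Z s g ∧ gn s f = gn s g := by
  have hw := wt_pw hs.le
  have hr0 := h.nonneg hw
  have hg : g ≠ 0 := by rintro rfl; rw [gn_zero] at hr; linarith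
  obtain ⟨g1, g2, g3⟩ := wei hs hg
  have hsp : ∀ k : ℕ, 0 < s ^ k := fun k => pow_pos hs k
  have hd : ∀ k, ‖f.coeff k - g.coeff k‖ * s ^ k < gn s g := fun k => by
    have := h k
    rw [coeff_sub] at this
    exact lt_of_le_of_lt this hr
  have e1 : ‖f.coeff (Z s g)‖ * s ^ Z s g = gn s g := by
    rw [neq_of_sub_lt (b := g.coeff (Z s g)), g2]
    refine lt_of_mul_lt_mul_right (a := s ^ Z s g) ?_ (hsp _).le
    rw [g2]; exact hd _
  have e2 : ∀ k, Z s g < k → ‖f.coeff k‖ * s ^ k < gn s g := by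
    intro k hk
    have : f.coeff k = (f.coeff k - g.coeff k) + g.coeff k := by ring
    rw [this, ← lt_div_iff₀ (hsp _)]
    exact nadd_lt ((lt_div_iff₀ (hsp _)).2 (hd k)) ((lt_div_iff₀ (hsp _)).2 (g3 k hk))
  have hf : f ≠ 0 := by
    rintro rfl
    have := gn_pos hs hg
    simp at e1; linarith
  obtain ⟨f1, f2, f3⟩ := wei hs hf
  have e3 : gn s f = gn s g := by
    apply le_antisymm
    · have := (h.mono hr.le).add hw g1
      rw [sub_add_cancel] at this
      exact this.gn_le hs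
    · rw [← e1]; exact f1 _
  refine ⟨?_, e3⟩
  rcases lt_trichotomy (Z s f) (Z s g) with hlt | heq | hgt
  · have := f3 _ hlt; linarith
  · exact heq
  · have := e2 _ hgt; linarith

theorem gn_of_Z0 {s : ℝ} (hs : 0 < s) {f : K[X]} (hf : f ≠ 0) (h : Z s f = 0) :
    gn s f = ‖f.eval 0‖ := by
  have := (wei hs hf).2.1
  rw [h] at this
  simpa [coeff_zero_eq_eval_zero] using this.symm

theorem coeff_lt_of_Z0 {s : ℝ} (hs : 0 < s) {f : K[X]} (hf : f ≠ 0) (h : Z s f = 0) {k : ℕ}
    (hk : 1 ≤ k) : ‖f.coeff k‖ * s ^ k < ‖f.eval 0‖ := by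
  rw [← gn_of_Z0 hs hf h]; exact (wei hs hf).2.2 k (by omega)

theorem cover {r : ℝ} (hr : 0 < r) (g : K[X]) (u : K) {k : ℕ} (hk : 1 ≤ k)
    (h : ‖g.eval 0 - u‖ ≤ ‖g.coeff k‖ * r ^ k) : ∃ y : K, ‖y‖ ≤ r ∧ g.eval y = u := by
  by_contra hc
  have hne : ∀ l : K, ‖l‖ ≤ r → (g - C u).eval l ≠ 0 := by
    intro l hl h0
    exact hc ⟨l, hl, by simpa [sub_eq_zero] using h0⟩
  have hf : g - C u ≠ 0 := by
    intro h0
    exact hne 0 (by simpa using hr.le) (by simp [h0])
  have := coeff_lt_of_Z0 hr hf ((Z_eq_zero_iff r hf).2 hne) hk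
  have hk0 : k ≠ 0 := by omega
  simp [coeff_C, hk0] at this
  linarith

theorem eval_of_Z0 {s : ℝ} (hs : 0 < s) {f : K[X]} (hf : f ≠ 0) (h : Z s f = 0) {l : K}
    (hl : ‖l‖ ≤ s) : ‖f.eval l‖ = ‖f.eval 0‖ := by
  have h0 : 0 < ‖f.eval 0‖ := by rw [← gn_of_Z0 hs hf h]; exact gn_pos hs hf
  apply neq_of_sub_lt
  have h1 : f.eval l - f.eval 0 = (f - C (f.eval 0)).eval l := by simp
  rw [h1]
  refine (eval_le_gn hs _ hl).trans_lt ?_
  by_cases hz : f - C (f.eval 0) = 0
  · rw [hz, gn_zero]; exact h0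
  · rw [← (wei hs hz).2.1]
    rcases hk : Z s (f - C (f.eval 0)) with _ | k
    · simpa [coeff_zero_eq_eval_zero] using h0
    · simpa [coeff_C] using coeff_lt_of_Z0 hs hf h (k := k + 1) (by omega)

end Pool.Agent.MP_28f8a1_an.W37
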